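import Pool.Agent.Work.MP_c71557_gt.G.GDefs

set_option autoImplicit false
set_option linter.unusedVariables false

/-!
# MP_c71557_gt, module G/Rt: unit vectors, rotations, a constancy lemma (M)

* `dir_norm_ge`: sup norm; `cos ^ 2 + sin ^ 2 = 1`, so one of `|cos|, |sin|` is at least `1/2`.
* `smul_dir_inj`: `r ^ 2 = r ^ 2 (cos ^ 2 + sin ^ 2)` gives `r = r'`; then `cos α = cos β`, `sin α = sin β`:
  `Real.Angle.angle_eq_iff_two_pi_dvd_sub` / `Real.Angle.cos_sin_inj`.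
* `exists_dir`: `u ≠ 0`; `z = u.1 + u.2 i`, `t = |z|`, `θ0 = arg z`; shift `θ0` by a multiple of `2π` into
  `[a, a + 2π)` (`toIcoMod`).
* `rt_*`: addition formulas.  `rt_inj`: write `u = t • dir θ` and use `rt_dir`, `smul_dir_inj`.
* `const_of_int`: the image of `S` under `φ` is preconnected (`IsPreconnected.image`) and contained in
  the discrete set `2πℤ`; e.g. if `φ x < φ y` the image contains the interval `[φ x, φ y]`
  (`IsPreconnected.Icc_subset`), hence a number which is not in `2πℤ` (`φ x + 2π k` is the only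
  possibility: take `φ x + min ((φ y - φ x)/2) π`).
* `vec_inj`: `smul_dir_inj`.
* `vec_bdd`: on `[0, 2π]` (compact) `vec F` is bounded because every point has a neighbourhood on which
  `‖V F.f F.r s‖ = F.r s ≤ ‖p‖ + ‖q‖` (`F.pl`); by `mem_Ft` `F.r` is `2π`-periodic; `‖vec F θ‖ ≤ F.r θ`.
* `vec_cont`: `F.f` is continuous; `F.r s = ‖V F.f F.r s‖` and `V F.f F.r` is continuous from both sides at every
  point by `F.pl`.
-/

namespace C715

open Ang

theorem dir_ne (θ : ℝ) : dir θ ≠ 0 := by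
  intro h
  have h1 : Real.cos θ = 0 := congrArg Prod.fst h
  have h2 : Real.sin θ = 0 := congrArg Prod.snd h
  have h3 := Real.sin_sq_add_cos_sq θ
  rw [h1, h2] at h3
  norm_num at h3

theorem dir_norm_le (θ : ℝ) : ‖dir θ‖ ≤ 1 := by
  unfold dir
  rw [Prod.norm_mk, Real.norm_eq_abs, Real.norm_eq_abs]
  exact max_le (Real.abs_cos_le_one θ) (Real.abs_sin_le_one θ)

theorem dir_norm_ge (θ : ℝ) : 1 / 2 ≤ ‖dir θ‖ := by
  unfold dir
  rw [Prod.norm_mk, Real.norm_eq_abs, Real.norm_eq_abs]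
  by_contra hcon
  rw [not_le, max_lt_iff] at hcon
  have h3 := Real.sin_sq_add_cos_sq θ
  have h1 := sq_abs (Real.cos θ)
  have h2 := sq_abs (Real.sin θ)
  have h4 := abs_nonneg (Real.cos θ)
  have h5 := abs_nonneg (Real.sin θ)
  nlinarith [hcon.1, hcon.2]

theorem dir_cont : Continuous dir := by
  unfold dir
  fun_prop

theorem dir_per (θ : ℝ) (k : ℤ) : dir (θ + k * (2 * Real.pi)) = dir θ := by
  unfold dir
  rw [Real.cos_add_int_mul_two_pi, Real.sin_add_int_mul_two_pi]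

theorem dir_pi (θ : ℝ) : dir (θ + Real.pi) = -dir θ := by
  unfold dir
  rw [Real.cos_add_pi, Real.sin_add_pi]
  rfl

theorem dir_add (θ φ : ℝ) :
    dir (θ + φ) = Real.cos φ • dir θ + Real.sin φ • dir (θ + Real.pi / 2) := by
  unfold dir
  rw [Real.cos_add_pi_div_two, Real.sin_add_pi_div_two, Real.cos_add, Real.sin_add]
  ext
  · simp only [Prod.fst_add, Prod.smul_fst, smul_eq_mul]
    ring
  · simp only [Prod.snd_add, Prod.smul_snd, smul_eq_mul]
    ring

theorem smul_dir_inj {r r' α β : ℝ} (hr : 0 < r) (hr' : 0 < r') (h : r • dir α = r' • dir β) :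
    r = r' ∧ ∃ k : ℤ, α = β + k * (2 * Real.pi) := by
  have h1 : r * Real.cos α = r' * Real.cos β := congrArg Prod.fst h
  have h2 : r * Real.sin α = r' * Real.sin β := congrArg Prod.snd h
  have h3 := Real.sin_sq_add_cos_sq α
  have h4 := Real.sin_sq_add_cos_sq β
  have h5 : r ^ 2 = r' ^ 2 := by
    have e1 : r ^ 2 = (r * Real.cos α) ^ 2 + (r * Real.sin α) ^ 2 := by
      linear_combination (-r ^ 2) * h3
    have e2 : r' ^ 2 = (r' * Real.cos β) ^ 2 + (r' * Real.sin β) ^ 2 := by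
      linear_combination (-r' ^ 2) * h4
    rw [e1, e2, h1, h2]
  have h6 : r = r' := (sq_eq_sq₀ hr.le hr'.le).1 h5
  refine ⟨h6, ?_⟩
  rw [← h6] at h1 h2
  have h7 := mul_left_cancel₀ hr.ne' h1
  have h8 := mul_left_cancel₀ hr.ne' h2
  have h9 : (β : Real.Angle) = α := Real.Angle.cos_sin_inj h7.symm h8.symm
  obtain ⟨k, hk⟩ := Real.Angle.angle_eq_iff_two_pi_dvd_sub.1 h9
  exact ⟨-k, by push_cast; linarith⟩

theorem exists_dir (u : P2) (hu : u ≠ 0) (a : ℝ) :
    ∃ t θ : ℝ, 0 < t ∧ a ≤ θ ∧ θ < a + 2 * Real.pi ∧ u = t • dir θ := by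
  set z : ℂ := ⟨u.1, u.2⟩ with hz
  have hz0 : z ≠ 0 := by
    intro h
    apply hu
    have h1 : u.1 = 0 := congrArg Complex.re h
    have h2 : u.2 = 0 := congrArg Complex.im h
    exact Prod.ext h1 h2
  obtain ⟨m, hm, -⟩ := existsUnique_add_zsmul_mem_Ico Real.two_pi_pos z.arg a
  refine ⟨‖z‖, z.arg + m • (2 * Real.pi), norm_pos_iff.2 hz0, hm.1, hm.2, ?_⟩
  have h1 : z.arg + m • (2 * Real.pi) = z.arg + m * (2 * Real.pi) := by
    rw [zsmul_eq_mul]
  rw [h1, dir_per]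
  ext
  · change z.re = ‖z‖ * Real.cos z.arg
    rw [Complex.norm_mul_cos_arg]
  · change z.im = ‖z‖ * Real.sin z.arg
    rw [Complex.norm_mul_sin_arg]

theorem rt_dir (α t θ : ℝ) : rt α (t • dir θ) = t • dir (θ + α) := by
  unfold rt dir
  rw [Real.cos_add, Real.sin_add]
  ext
  · simp only [Prod.smul_fst, Prod.smul_snd, smul_eq_mul]
    ring
  · simp only [Prod.smul_fst, Prod.smul_snd, smul_eq_mul]
    ring

theorem rt_zero (u : P2) : rt 0 u = u := by
  unfold rt
  rw [Real.cos_zero, Real.sin_zero]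
  ext
  · simp
  · simp

theorem rt_add (α β : ℝ) (u : P2) : rt α (rt β u) = rt (α + β) u := by
  unfold rt
  rw [Real.cos_add, Real.sin_add]
  ext
  · dsimp only
    ring
  · dsimp only
    ring

theorem rt_smul (α t : ℝ) (u : P2) : rt α (t • u) = t • rt α u := by
  unfold rt
  ext
  · simp only [Prod.smul_fst, Prod.smul_snd, smul_eq_mul]
    ring
  · simp only [Prod.smul_fst, Prod.smul_snd, smul_eq_mul]
    ring

theorem rt_cont : Continuous (fun p : ℝ × P2 => rt p.1 p.2) := by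
  unfold rt
  fun_prop

theorem rt_inj {α β r r' : ℝ} {u : P2} (hu : u ≠ 0) (hr : 0 < r) (hr' : 0 < r')
    (h : r • rt α u = r' • rt β u) : r = r' ∧ ∃ k : ℤ, α = β + k * (2 * Real.pi) := by
  obtain ⟨t, θ, ht, -, -, rfl⟩ := exists_dir u hu 0
  rw [rt_dir, rt_dir, smul_smul, smul_smul] at h
  obtain ⟨h1, k, hk⟩ := smul_dir_inj (mul_pos hr ht) (mul_pos hr' ht) h
  exact ⟨mul_right_cancel₀ ht.ne' h1, k, by linarith⟩

theorem const_of_int {X : Type*} [TopologicalSpace X] {S : Set X} (hS : IsPreconnected S)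
    (φ : X → ℝ) (hφ : ContinuousOn φ S) (h : ∀ x ∈ S, ∃ k : ℤ, φ x = k * (2 * Real.pi)) :
    ∀ x ∈ S, ∀ y ∈ S, φ x = φ y := by
  have hpi := Real.two_pi_pos
  have hpre : IsPreconnected (φ '' S) := hS.image φ hφ
  have key : ∀ x ∈ S, ∀ y ∈ S, ¬ φ x < φ y := by
    intro x hx y hy hlt
    obtain ⟨k, hk⟩ := h x hx
    obtain ⟨m, hm⟩ := h y hy
    have h1 : k < m := by
      rw [hk, hm] at hlt
      have := lt_of_mul_lt_mul_right hlt hpi.le
      exact_mod_cast this
    have h2 : (k : ℝ) + 1 ≤ m := by exact_mod_cast h1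
    have h3 : ((k : ℝ) + 1 / 2) * (2 * Real.pi) ∈ φ '' S := by
      apply hpre.Icc_subset ⟨x, hx, rfl⟩ ⟨y, hy, rfl⟩
      rw [hk, hm]
      constructor
      · exact mul_le_mul_of_nonneg_right (by linarith) hpi.le
      · exact mul_le_mul_of_nonneg_right (by linarith) hpi.le
    obtain ⟨w, hw, hwe⟩ := h3
    obtain ⟨j, hj⟩ := h w hw
    rw [hj] at hwe
    have h4 := mul_right_cancel₀ hpi.ne' hwe
    have h5 : (2 : ℝ) * j = 2 * k + 1 := by linarith
    have h6 : (2 : ℤ) * j = 2 * k + 1 := by exact_mod_cast h5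
    omega
  intro x hx y hy
  exact le_antisymm (not_lt.1 (key y hy x hx)) (not_lt.1 (key x hx y hy))

theorem vec_inj {F F' : XX} {θ : ℝ} (hf : F.f θ = F'.f θ) (h : vec F θ = vec F' θ) :
    F.ev θ = F'.ev θ := by
  unfold vec at h
  obtain ⟨h1, -⟩ := smul_dir_inj (F.pos θ) (F'.pos θ) h
  exact Prod.ext hf h1

private theorem V_norm (F : XX) (s : ℝ) : ‖V F.f F.r s‖ = F.r s := by
  unfold V
  rw [norm_smul, Complex.norm_exp_ofReal_mul_I, mul_one, Real.norm_eq_abs, abs_of_pos (F.pos s)]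

private theorem r_cont (F : XX) : Continuous F.r := by
  rw [continuous_iff_continuousAt]
  intro t
  obtain ⟨e, he, ⟨p, q, h1⟩, ⟨p', q', h2⟩⟩ := F.pl t
  have hc : ∀ a b : ℂ, Continuous (fun s : ℝ => ‖Real.cos s • a + Real.sin s • b‖) := by
    intro a b
    fun_prop
  rw [continuousAt_iff_continuous_left_right]
  constructor
  · have h3 : ContinuousWithinAt F.r (Set.Icc (t - e) t) t := by
      refine ((hc p' q').continuousWithinAt).congr ?_ ?_
      · intro s hs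
        rw [← h2 s hs, V_norm]
      · rw [← h2 t ⟨by linarith, le_rfl⟩, V_norm]
    exact h3.mono_of_mem_nhdsWithin (Icc_mem_nhdsLE (by linarith))
  · have h3 : ContinuousWithinAt F.r (Set.Icc t (t + e)) t := by
      refine ((hc p q).continuousWithinAt).congr ?_ ?_
      · intro s hs
        rw [← h1 s hs, V_norm]
      · rw [← h1 t ⟨le_rfl, by linarith⟩, V_norm]
    exact h3.mono_of_mem_nhdsWithin (Icc_mem_nhdsGE (by linarith))

theorem vec_bdd (F : XX) (hF : F ∈ Ft) : ∃ M : ℝ, 0 < M ∧ ∀ θ, F.r θ ≤ M ∧ ‖vec F θ‖ ≤ M := by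
  have hper : Function.Periodic F.r (2 * Real.pi) := fun s =>
    congrArg Prod.snd (mem_Ft.1 hF s)
  obtain ⟨M, hM⟩ := (isCompact_Icc.image_of_continuousOn
    ((r_cont F).continuousOn (s := Set.Icc 0 (2 * Real.pi)))).bddAbove
  have hb : ∀ θ, F.r θ ≤ M := by
    intro θ
    obtain ⟨y, hy, hxy⟩ := hper.exists_mem_Ico₀ Real.two_pi_pos θ
    rw [hxy]
    exact hM ⟨y, ⟨hy.1, hy.2.le⟩, rfl⟩
  refine ⟨M, (F.pos 0).trans_le (hb 0), fun θ => ⟨hb θ, ?_⟩⟩
  unfold vec
  rw [norm_smul, Real.norm_eq_abs, abs_of_pos (F.pos θ)]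
  calc F.r θ * ‖dir (F.f θ)‖ ≤ F.r θ * 1 :=
        mul_le_mul_of_nonneg_left (dir_norm_le _) (F.pos θ).le
    _ ≤ M := by rw [mul_one]; exact hb θ

theorem vec_cont (F : XX) : Continuous (vec F) := by
  unfold vec
  exact (r_cont F).smul (dir_cont.comp F.continuous_f)

end C715
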