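import Pool.Agent.Work.MP_c71557_gt.G.Rt

set_option autoImplicit false
set_option linter.unusedVariables false

/-!
# MP_c71557_gt, module G/Bh: the homogeneous extension of `F ∈ Ft` (M-L)

Let `bf F x = 0` if `x = 0`, and `t • vec F θ` if `x = t • dir θ`, `t > 0` (e.g. with `z = x.1 + x.2 i`, `t = |z|`,
`θ = arg z`).  Since `vec F (θ + 2πk) = vec F θ` (`mem_Ft`, `dir_per`), `bf F (t • dir θ) = t • vec F θ` for all `θ` and
`t ≥ 0` (`smul_dir_inj`).
* `bf F⁻¹ (bf F x) = x`: `vec F θ = F.r θ • dir (F.f θ)`, `F⁻¹.f (F.f θ) = θ`, `F⁻¹.r (F.f θ) = (F.r θ)⁻¹`.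
* `IsPL (bf F)` for every `F ∈ Ft`.  Continuity at `0`: `‖bf F x‖ ≤ t M ≤ 2 M ‖x‖` (`vec_bdd`, `dir_norm_ge`); at
  `x0 = t0 • dir θ0`: for `x` near `x0` let `z = (x.1 + x.2 i) * exp (- i θ0)`, `z` near the positive real `t0`,
  `x = |z| • dir (θ0 + arg z)`, so `bf F x = |z| • vec F (θ0 + arg z)`, continuous (`Complex.continuousAt_arg`,
  `vec_cont`).  Finitely many pieces: for every `θ ∈ [0, 2π]` (compact) there is `e > 0` such that on
  `(θ - e, θ + e)` `V F.f F.r s` is one of the two functions `cos s • p + sin s • q` from `F.pl θ`; take a finite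
  subcover; then for every `x = t • dir θ`, `θ ∈ [0, 2π)`, the first coordinate of `bf F x` is
  `p.re * x.1 + q.re * x.2` and the second `p.im * x.1 + q.im * x.2` for one of the finitely many pairs.
* `b` = the permutation with these two inverse maps (`F` and `F⁻¹`, both in `Ft`); `b ∈ PLH`.
-/

namespace C715

open Ang

/-- complex number of a point -/
private noncomputable def zz (x : P2) : ℂ := ⟨x.1, x.2⟩

private theorem zz_cont : Continuous zz := by
  have : zz = fun x : P2 => (x.1 : ℂ) + (x.2 : ℂ) * Complex.I := by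
    funext x
    refine Complex.ext ?_ ?_ <;> simp [zz]
  rw [this]
  fun_prop

private theorem zz_eq (x : P2) : x = ‖zz x‖ • dir (Complex.arg (zz x)) := by
  refine Prod.ext ?_ ?_
  · change x.1 = ‖zz x‖ * Real.cos (Complex.arg (zz x))
    exact (Complex.norm_mul_cos_arg (zz x)).symm
  · change x.2 = ‖zz x‖ * Real.sin (Complex.arg (zz x))
    exact (Complex.norm_mul_sin_arg (zz x)).symm

private theorem zz_ne {x : P2} (hx : x ≠ 0) : zz x ≠ 0 := by
  intro h
  apply hx
  rw [zz_eq x, h]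
  simp

private theorem vec_per {F : XX} (hF : F ∈ Ft) : Function.Periodic (vec F) (2 * Real.pi) := by
  intro s
  have h := mem_Ft.1 hF s
  have h1 : F.f (s + 2 * Real.pi) = F.f s + 2 * Real.pi := congrArg Prod.fst h
  have h2 : F.r (s + 2 * Real.pi) = F.r s := congrArg Prod.snd h
  unfold vec
  rw [h1, h2]
  have h3 := dir_per (F.f s) 1
  rw [Int.cast_one, one_mul] at h3
  rw [h3]

/-- the homogeneous extension -/
private noncomputable def bf (F : XX) (x : P2) : P2 := ‖zz x‖ • vec F (Complex.arg (zz x))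

private theorem bf_dir {F : XX} (hF : F ∈ Ft) (θ t : ℝ) (ht : 0 ≤ t) :
    bf F (t • dir θ) = t • vec F θ := by
  rcases ht.eq_or_lt with rfl | ht
  · have h0 : zz ((0 : ℝ) • dir θ) = 0 := by
      rw [zero_smul]
      rfl
    unfold bf
    rw [h0, norm_zero, zero_smul, zero_smul]
  · have hne : t • dir θ ≠ 0 := smul_ne_zero ht.ne' (dir_ne θ)
    have h1 := zz_eq (t • dir θ)
    obtain ⟨h2, k, h3⟩ := smul_dir_inj ht (norm_pos_iff.2 (zz_ne hne)) h1
    have e := (vec_per hF).int_mul k (Complex.arg (zz (t • dir θ)))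
    rw [← h3] at e
    unfold bf
    rw [← h2, e]

private theorem bf_zero (F : XX) : bf F 0 = 0 := by
  have h0 : zz (0 : P2) = 0 := rfl
  unfold bf
  rw [h0, norm_zero, zero_smul]

private theorem norm_zz_le (x : P2) : ‖zz x‖ ≤ 2 * ‖x‖ := by
  have h1 : ‖zz x‖ ≤ |(zz x).re| + |(zz x).im| := Complex.norm_le_abs_re_add_abs_im _
  have h2 : |x.1| ≤ ‖x‖ := norm_fst_le x
  have h3 : |x.2| ≤ ‖x‖ := norm_snd_le x
  have h4 : (zz x).re = x.1 := rfl
  have h5 : (zz x).im = x.2 := rfl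
  rw [h4, h5] at h1
  linarith

private theorem bf_cont {F : XX} (hF : F ∈ Ft) : Continuous (bf F) := by
  rw [continuous_iff_continuousAt]
  intro x
  by_cases hx : x = 0
  · subst hx
    obtain ⟨M, hM, hb⟩ := vec_bdd F hF
    unfold ContinuousAt
    rw [bf_zero]
    refine squeeze_zero_norm (a := fun x : P2 => 2 * ‖x‖ * M) (fun y => ?_) ?_
    · unfold bf
      rw [norm_smul, norm_norm]
      exact mul_le_mul (norm_zz_le y) (hb _).2 (norm_nonneg _) (by positivity)
    · have h1 : Continuous (fun x : P2 => 2 * ‖x‖ * M) := by fun_prop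
      have h2 := h1.tendsto 0
      simpa using h2
  · have hz := zz_ne hx
    by_cases hs : zz x ∈ Complex.slitPlane
    · have h1 : ContinuousAt (fun y => Complex.arg (zz y)) x :=
        ContinuousAt.comp (g := Complex.arg) (Complex.continuousAt_arg hs) zz_cont.continuousAt
      have h2 : ContinuousAt (fun y => vec F (Complex.arg (zz y))) x :=
        ContinuousAt.comp (g := vec F) (vec_cont F).continuousAt h1
      exact (zz_cont.norm.continuousAt).smul h2
    · have hs' : -zz x ∈ Complex.slitPlane := by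
        rw [Complex.mem_slitPlane_iff] at hs ⊢
        push Not at hs
        left
        rw [Complex.neg_re]
        have h3 : (zz x).re ≠ 0 := fun h => hz (Complex.ext h hs.2)
        have h4 := lt_of_le_of_ne hs.1 h3
        linarith
      have h1 : ContinuousAt (fun y => Complex.arg (-zz y)) x :=
        ContinuousAt.comp (g := Complex.arg) (Complex.continuousAt_arg hs') zz_cont.neg.continuousAt
      have h2 : ContinuousAt (fun y => vec F (Complex.arg (-zz y) + Real.pi)) x :=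
        ContinuousAt.comp (g := vec F) (vec_cont F).continuousAt (h1.add continuousAt_const)
      have h3 : bf F = fun y => ‖zz y‖ • vec F (Complex.arg (-zz y) + Real.pi) := by
        funext y
        have e1 : y = ‖zz y‖ • dir (Complex.arg (-zz y) + Real.pi) := by
          rw [dir_pi]
          have e2 := zz_eq (-y)
          have e3 : zz (-y) = -zz y := rfl
          rw [e3, norm_neg] at e2
          rw [smul_neg, ← e2, neg_neg]
        conv_lhs => rw [e1]
        exact bf_dir hF _ _ (norm_nonneg _)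
      rw [h3]
      exact (zz_cont.norm.continuousAt).smul h2

private theorem fin_pieces {F : XX} (hF : F ∈ Ft) : ∃ T : Set (ℂ × ℂ), T.Finite ∧
    ∀ θ, ∃ pq ∈ T, V F.f F.r θ = Real.cos θ • pq.1 + Real.sin θ • pq.2 := by
  have key : ∃ T : Set (ℂ × ℂ), T.Finite ∧
      ∀ θ ∈ Set.Icc (0 : ℝ) (2 * Real.pi), ∃ pq ∈ T,
        V F.f F.r θ = Real.cos θ • pq.1 + Real.sin θ • pq.2 := by
    refine IsCompact.induction_on (isCompact_Icc (a := (0 : ℝ)) (b := 2 * Real.pi))
      (p := fun A => ∃ T : Set (ℂ × ℂ), T.Finite ∧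
        ∀ θ ∈ A, ∃ pq ∈ T, V F.f F.r θ = Real.cos θ • pq.1 + Real.sin θ • pq.2) ?_ ?_ ?_ ?_
    · exact ⟨∅, Set.finite_empty, fun θ hθ => absurd hθ (Set.notMem_empty θ)⟩
    · rintro A B hAB ⟨T, hT, h⟩
      exact ⟨T, hT, fun θ hθ => h θ (hAB hθ)⟩
    · rintro A B ⟨T, hT, h⟩ ⟨T', hT', h'⟩
      refine ⟨T ∪ T', hT.union hT', fun θ hθ => ?_⟩
      rcases hθ with hθ | hθ
      · obtain ⟨pq, h1, h2⟩ := h θ hθ
        exact ⟨pq, Or.inl h1, h2⟩
      · obtain ⟨pq, h1, h2⟩ := h' θ hθ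
        exact ⟨pq, Or.inr h1, h2⟩
    · intro t _
      obtain ⟨e, he, ⟨p, q, h1⟩, ⟨p', q', h2⟩⟩ := F.pl t
      refine ⟨Set.Ioo (t - e) (t + e), mem_nhdsWithin_of_mem_nhds
        (Ioo_mem_nhds (by linarith) (by linarith)), {(p, q), (p', q')}, Set.toFinite _,
        fun θ hθ => ?_⟩
      rcases le_total t θ with h | h
      · exact ⟨(p, q), Or.inl rfl, h1 θ ⟨h, hθ.2.le⟩⟩
      · exact ⟨(p', q'), Or.inr rfl, h2 θ ⟨hθ.1.le, h⟩⟩
  obtain ⟨T, hT, h⟩ := key
  refine ⟨T, hT, fun θ => ?_⟩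
  have hpi := Real.two_pi_pos
  have hm := toIcoMod_mem_Ico' hpi θ
  obtain ⟨pq, h1, h2⟩ := h (toIcoMod hpi 0 θ) ⟨hm.1, hm.2.le⟩
  refine ⟨pq, h1, ?_⟩
  have h3 : toIcoMod hpi 0 θ = θ - toIcoDiv hpi 0 θ • (2 * Real.pi) := rfl
  have h4 : θ = toIcoMod hpi 0 θ + (toIcoDiv hpi 0 θ : ℝ) * (2 * Real.pi) := by
    rw [h3, zsmul_eq_mul]
    ring
  have h5 : vec F θ = vec F (toIcoMod hpi 0 θ) := by
    conv_lhs => rw [h4]
    exact (vec_per hF).int_mul _ _
  have h6 : V F.f F.r θ = V F.f F.r (toIcoMod hpi 0 θ) := by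
    refine Complex.ext ?_ ?_
    · rw [V_re, V_re]
      exact congrArg Prod.fst h5
    · rw [V_im, V_im]
      exact congrArg Prod.snd h5
  have h7 : Real.cos (toIcoMod hpi 0 θ) = Real.cos θ := by
    conv_rhs => rw [h4]
    rw [Real.cos_add_int_mul_two_pi]
  have h8 : Real.sin (toIcoMod hpi 0 θ) = Real.sin θ := by
    conv_rhs => rw [h4]
    rw [Real.sin_add_int_mul_two_pi]
  rw [h6, h2, h7, h8]

private theorem bf_pl {F : XX} (hF : F ∈ Ft) : IsPL (bf F) := by
  obtain ⟨T, hT, h⟩ := fin_pieces hF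
  have hc := bf_cont hF
  constructor
  · refine ⟨continuous_fst.comp hc, (fun pq : ℂ × ℂ => (⟨pq.1.re, pq.2.re, 0⟩ : L3)) '' T,
      hT.image _, fun x => ?_⟩
    obtain ⟨pq, h1, h2⟩ := h (Complex.arg (zz x))
    refine ⟨_, ⟨pq, h1, rfl⟩, ?_⟩
    have h3 := zz_eq x
    have e1 : x.1 = ‖zz x‖ * Real.cos (Complex.arg (zz x)) := congrArg Prod.fst h3
    have e2 : x.2 = ‖zz x‖ * Real.sin (Complex.arg (zz x)) := congrArg Prod.snd h3
    have e3 : F.r (Complex.arg (zz x)) * Real.cos (F.f (Complex.arg (zz x))) =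
        Real.cos (Complex.arg (zz x)) * pq.1.re + Real.sin (Complex.arg (zz x)) * pq.2.re := by
      rw [← V_re F.f F.r, h2]
      simp only [Complex.add_re, Complex.smul_re, smul_eq_mul]
    change ‖zz x‖ * (F.r (Complex.arg (zz x)) * Real.cos (F.f (Complex.arg (zz x)))) =
      pq.1.re * x.1 + pq.2.re * x.2 + 0
    rw [e3]
    conv_rhs => rw [e1, e2]
    ring
  · refine ⟨continuous_snd.comp hc, (fun pq : ℂ × ℂ => (⟨pq.1.im, pq.2.im, 0⟩ : L3)) '' T,
      hT.image _, fun x => ?_⟩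
    obtain ⟨pq, h1, h2⟩ := h (Complex.arg (zz x))
    refine ⟨_, ⟨pq, h1, rfl⟩, ?_⟩
    have h3 := zz_eq x
    have e1 : x.1 = ‖zz x‖ * Real.cos (Complex.arg (zz x)) := congrArg Prod.fst h3
    have e2 : x.2 = ‖zz x‖ * Real.sin (Complex.arg (zz x)) := congrArg Prod.snd h3
    have e3 : F.r (Complex.arg (zz x)) * Real.sin (F.f (Complex.arg (zz x))) =
        Real.cos (Complex.arg (zz x)) * pq.1.im + Real.sin (Complex.arg (zz x)) * pq.2.im := by
      rw [← V_im F.f F.r, h2]
      simp only [Complex.add_im, Complex.smul_im, smul_eq_mul]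
    change ‖zz x‖ * (F.r (Complex.arg (zz x)) * Real.sin (F.f (Complex.arg (zz x)))) =
      pq.1.im * x.1 + pq.2.im * x.2 + 0
    rw [e3]
    conv_rhs => rw [e1, e2]
    ring

private theorem bf_inv {F : XX} (hF : F ∈ Ft) (x : P2) : bf F⁻¹ (bf F x) = x := by
  have h1 := zz_eq x
  have h2 : bf F x = (‖zz x‖ * F.r (Complex.arg (zz x))) • dir (F.f (Complex.arg (zz x))) := by
    unfold bf vec
    rw [smul_smul]
  have hp := F.pos (Complex.arg (zz x))
  rw [h2, bf_dir (Ft.inv_mem hF) _ _ (mul_nonneg (norm_nonneg _) hp.le)]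
  have h3 : vec F⁻¹ (F.f (Complex.arg (zz x))) =
      (F.r (Complex.arg (zz x)))⁻¹ • dir (Complex.arg (zz x)) := by
    change (F.r (F.f.symm (F.f (Complex.arg (zz x)))))⁻¹ •
      dir (F.f.symm (F.f (Complex.arg (zz x)))) = _
    rw [OrderIso.symm_apply_apply]
  rw [h3, smul_smul, mul_assoc, mul_inv_cancel₀ hp.ne', mul_one]
  exact h1.symm

theorem exists_bh (F : XX) (hF : F ∈ Ft) :
    ∃ b ∈ PLH, ∀ θ t : ℝ, 0 ≤ t → b (t • dir θ) = t • vec F θ := by
  let b : Equiv.Perm P2 :=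
    { toFun := bf F
      invFun := bf F⁻¹
      left_inv := fun x => bf_inv hF x
      right_inv := fun x => by
        have h := bf_inv (Ft.inv_mem hF) x
        rw [inv_inv] at h
        exact h }
  exact ⟨b, ⟨bf_pl hF, bf_pl (Ft.inv_mem hF)⟩, fun θ t ht => bf_dir hF θ t ht⟩

end C715
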