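import Pool.Agent.Work.MP_c71557_gt.G.Rt

set_option autoImplicit false
set_option linter.unusedVariables false

/-!
# MP_c71557_gt, module G/Cen: germs of homotheties are central (S)

`vec G θ = μ • dir θ`: `smul_dir_inj` gives `G.r θ = μ` and `G.f θ - θ ∈ 2πℤ`, continuous, so constant
(`const_of_int` on `univ`).
Commutation with `F ∈ Ft`: `F.f (θ + 2πk) = F.f θ + 2πk`, `F.r (θ + 2πk) = F.r θ` (`mem_Ft`, induction on `k`; or write
`θ + 2πk = (tau ^ k).f θ` and use `tau_zpow_comm`).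
`vec (G⁻¹ * F) = vec F` if `μ = 1`.
-/

namespace C715

open Ang XX

theorem cen_eq {G : XX} {μ : ℝ} (hμ : 0 < μ) (h : ∀ θ, vec G θ = μ • dir θ) :
    ∃ k : ℤ, ∀ θ, G.ev θ = (θ + k * (2 * Real.pi), μ) := by
  have h1 : ∀ θ, G.r θ = μ ∧ ∃ k : ℤ, G.f θ = θ + k * (2 * Real.pi) := fun θ =>
    smul_dir_inj (G.pos θ) hμ (h θ)
  have h2 := const_of_int (S := (Set.univ : Set ℝ)) isPreconnected_univ (fun θ => G.f θ - θ)
    (G.continuous_f.sub continuous_id).continuousOn (fun θ _ => by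
      obtain ⟨k, hk⟩ := (h1 θ).2
      exact ⟨k, by rw [hk]; ring⟩)
  obtain ⟨k, hk⟩ := (h1 0).2
  refine ⟨k, fun θ => ?_⟩
  have h3 := h2 θ trivial 0 trivial
  have h4 : G.f θ = θ + k * (2 * Real.pi) := by
    have h5 : G.f θ - θ = G.f 0 - 0 := h3
    linarith
  rw [ev_def, h4, (h1 θ).1]

private theorem rot_int (k : ℤ) : tau ^ k = rot (k * (2 * Real.pi)) := by
  have hn : ∀ n : ℕ, tau ^ n = rot (n * (2 * Real.pi)) := fun n => by
    induction n with
    | zero => simp [rot_zero]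
    | succ n ih =>
      rw [pow_succ, ih]
      change rot _ * rot _ = _
      rw [← rot_add]
      congr 1
      push_cast
      ring
  rcases Int.eq_nat_or_neg k with ⟨n, rfl | rfl⟩
  · rw [zpow_natCast, hn]
    simp
  · rw [zpow_neg, zpow_natCast, hn, rot_inv]
    congr 1
    push_cast
    ring

private theorem per_int {F : XX} (hF : F ∈ Ft) (k : ℤ) (θ : ℝ) :
    F.ev (θ + k * (2 * Real.pi)) = (F.f θ + k * (2 * Real.pi), F.r θ) := by
  have h1 := tau_zpow_comm hF k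
  rw [rot_int] at h1
  have h2 : (rot (k * (2 * Real.pi)) * F).ev θ = (F * rot (k * (2 * Real.pi))).ev θ := by rw [h1]
  rw [mul_ev, mul_ev, rot_f, rot_f, rot_r, rot_r, one_mul, mul_one] at h2
  exact h2.symm

theorem cen_comm {G : XX} {μ : ℝ} (hμ : 0 < μ) (h : ∀ θ, vec G θ = μ • dir θ) {F : XX}
    (hF : F ∈ Ft) : G * F = F * G := by
  obtain ⟨k, hk⟩ := cen_eq hμ h
  have hf : ∀ θ, G.f θ = θ + k * (2 * Real.pi) := fun θ => congrArg Prod.fst (hk θ)
  have hr : ∀ θ, G.r θ = μ := fun θ => congrArg Prod.snd (hk θ)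
  refine ext_ev fun θ => ?_
  have h1 : F.f (θ + k * (2 * Real.pi)) = F.f θ + k * (2 * Real.pi) :=
    congrArg Prod.fst (per_int hF k θ)
  have h2 : F.r (θ + k * (2 * Real.pi)) = F.r θ := congrArg Prod.snd (per_int hF k θ)
  rw [mul_ev, mul_ev, hf, hf, hr, hr, h1, h2, mul_comm μ]

theorem cen_vec {G : XX} (h : ∀ θ, vec G θ = dir θ) (F : XX) (θ : ℝ) :
    vec (G⁻¹ * F) θ = vec F θ := by
  obtain ⟨k, hk⟩ := cen_eq (G := G) one_pos (fun θ => by rw [one_smul]; exact h θ)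
  have h1 : (G⁻¹).ev (F.f θ) = (F.f θ - k * (2 * Real.pi), (1 : ℝ)⁻¹) := by
    refine inv_ev ?_
    rw [hk]
    exact Prod.ext (by simp) rfl
  have h2 : (G⁻¹).f (F.f θ) = F.f θ - k * (2 * Real.pi) := congrArg Prod.fst h1
  have h3 : (G⁻¹).r (F.f θ) = 1 := (congrArg Prod.snd h1).trans inv_one
  unfold vec
  rw [mul_f, mul_r, h2, h3, one_mul]
  congr 1
  have h4 := dir_per (F.f θ - k * (2 * Real.pi)) k
  rw [← h4]
  congr 1
  ring

end C715
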