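import Pool.Agent.Work.MP_c71557_gt.G.Exg

set_option autoImplicit false
set_option linter.unusedVariables false

/-!
# MP_c71557_gt, module G/Cong: the framed germ where `g` is the identity (M)

* `isg_id`: `g = id` near `c`, `F` the framed germ at `c`: for small `t`, `vec F s = dir s`, so by `smul_dir_inj`
  `F.r s = 1` and `F.f s - s ∈ 2πℤ`; `s ↦ F.f s - s` is continuous, so constant (`const_of_int`).
* `isg_far`: let `R` be from `IsFr.far` and `R'` with `g x = x` for `‖x‖ ≥ R'`; take `max R R' + 2`.  For `‖w‖` at least this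
  and `t ≤ 1`, `‖w + t • dir θ‖ ≥ ‖w‖ - 1`, so `F.f θ = θ` and `vec F θ = dir θ`: `F.ev θ = (θ, 1)`.
* `isg_conn`.  For `x ∈ C` choose `F_x ∈ Ft`, `IsG g W x F_x` (`exists_isg`), and `m x = F_x.f 0` (`∈ 2πℤ` by `isg_id`).
  CLAIM: `m` is locally constant on `C`.  Let `c0 ∈ C`, `g = id` on the ball of radius `3ρ` about `c0`.  For
  `‖c - c0‖ < ρ`, `c ∈ C`: `m c = W c (c + t • dir 0)` for small `t > 0`; for `t ∈ (0, ρ]` the function
  `t ↦ W c (c + t • dir 0)` is continuous with values in `2πℤ` (`dirn`: both points are fixed, `r • rt W u = u`,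
  `rt_inj` with `rt_zero`), so `m c = W c (c + ρ • dir 0)`; as a function of `c` in the ball (convex, so
  preconnected) this is continuous with values in `2πℤ`, so constant.
  By `const_of_int` for `m` on `C` (continuous on `C` because locally constant) `m v = m w`, and `F = F_v`,
  `F' = F_w` (`IsG.unique`); by `isg_id` both are determined by the value of `f` at `0`: `XX.ext_ev`.
-/

namespace C715

open Ang
open scoped Topology

theorem isg_id {g : Equiv.Perm P2} {W : P2 → P2 → ℝ} {c : P2} (h : ∀ᶠ x in 𝓝 c, g x = x)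
    {F : XX} (hF : IsG g W c F) :
    ∃ k : ℤ, ∀ s, F.ev s = (s + k * (2 * Real.pi), 1) := by
  obtain ⟨ε, hε, hF⟩ := hF
  obtain ⟨δ, hδ, hg⟩ := Metric.eventually_nhds_iff.1 h
  have key : ∀ θ, F.r θ = 1 ∧ ∃ k : ℤ, F.f θ = θ + k * (2 * Real.pi) := by
    intro θ
    have ht : 0 < min ε (δ / 2) := lt_min hε (half_pos hδ)
    obtain ⟨h1, -⟩ := hF θ (min ε (δ / 2)) ht (min_le_left _ _)
    have h2 : g (c + min ε (δ / 2) • dir θ) = c + min ε (δ / 2) • dir θ := by
      refine hg ?_
      rw [dist_self_add_left, norm_smul, Real.norm_eq_abs, abs_of_pos ht]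
      have h3 := dir_norm_le θ
      have h4 : min ε (δ / 2) ≤ δ / 2 := min_le_right _ _
      nlinarith [norm_nonneg (dir θ)]
    have h3 : g c = c := hg (by rw [dist_self]; exact hδ)
    rw [h2, h3] at h1
    have h4 : vec F θ = dir θ := (smul_right_injective P2 ht.ne' (add_left_cancel h1)).symm
    have h5 : F.r θ • dir (F.f θ) = (1 : ℝ) • dir θ := by
      rw [one_smul]
      exact h4
    exact smul_dir_inj (F.pos θ) one_pos h5
  have hc : ∀ x y : ℝ, F.f x - x = F.f y - y := by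
    intro x y
    refine const_of_int (S := (Set.univ : Set ℝ)) isPreconnected_univ (fun s => F.f s - s) ?_ ?_ x
      (Set.mem_univ _) y (Set.mem_univ _)
    · exact (F.continuous_f.sub continuous_id).continuousOn
    · intro s _
      obtain ⟨k, hk⟩ := (key s).2
      exact ⟨k, by rw [hk]; ring⟩
  obtain ⟨k, hk⟩ := (key 0).2
  refine ⟨k, fun s => ?_⟩
  rw [XX.ev_def]
  refine Prod.ext ?_ (key s).1
  change F.f s = s + k * (2 * Real.pi)
  have := hc s 0
  rw [hk] at this
  linarith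

theorem isg_far {g : Equiv.Perm P2} (hg : g ∈ Gc) {W : P2 → P2 → ℝ} (hW : IsFr g W) :
    ∃ R : ℝ, ∀ w : P2, R ≤ ‖w‖ → ∀ F : XX, IsG g W w F → F = 1 := by
  obtain ⟨R, hR⟩ := hW.far
  obtain ⟨R', hR'⟩ := hg.2
  refine ⟨max R R' + 2, fun w hw F hF => ?_⟩
  obtain ⟨ε, hε, hF⟩ := hF
  refine XX.ext_ev fun θ => ?_
  have ht : 0 < min ε 1 := lt_min hε one_pos
  obtain ⟨h1, h2⟩ := hF θ (min ε 1) ht (min_le_left _ _)
  have hm1 := le_max_left R R'
  have hm2 := le_max_right R R'
  have hn : ‖w‖ - 1 ≤ ‖w + min ε 1 • dir θ‖ := by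
    have h3 : ‖min ε 1 • dir θ‖ ≤ 1 := by
      rw [norm_smul, Real.norm_eq_abs, abs_of_pos ht]
      have h3 := dir_norm_le θ
      have h4 : min ε 1 ≤ 1 := min_le_right _ _
      nlinarith [norm_nonneg (dir θ)]
    have h4 := norm_sub_norm_le w (-(min ε 1 • dir θ))
    rw [sub_neg_eq_add, norm_neg] at h4
    linarith
  have hne : w ≠ w + min ε 1 • dir θ := by
    intro h3
    have h4 : min ε 1 • dir θ = 0 := by
      have := add_eq_left.1 h3.symm
      exact this
    rcases smul_eq_zero.1 h4 with h5 | h5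
    · exact ht.ne' h5
    · exact dir_ne θ h5
  rw [hR w _ hne (by linarith) (by linarith), add_zero] at h2
  rw [hR' w (by linarith), hR' _ (by linarith)] at h1
  have h4 : vec F θ = dir θ := (smul_right_injective P2 ht.ne' (add_left_cancel h1)).symm
  have h5 : F.r θ • dir (F.f θ) = (1 : ℝ) • dir θ := by
    rw [one_smul]
    exact h4
  have h6 := (smul_dir_inj (F.pos θ) one_pos h5).1
  rw [XX.ev_def, XX.one_ev, h2, h6]

theorem isg_conn {g : Equiv.Perm P2} (hg : g ∈ Gc) {W : P2 → P2 → ℝ} (hW : IsFr g W)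
    (C : Set P2) (hC : IsPreconnected C) (h : ∀ᶠ x in 𝓝ˢ C, g x = x) {v w : P2} (hv : v ∈ C)
    (hw : w ∈ C) {F F' : XX} (h1 : IsG g W v F) (h2 : IsG g W w F') : F = F' := by
  choose Fx hFt hFx using fun x => exists_isg hg hW x
  have hnh : ∀ c ∈ C, ∀ᶠ x in 𝓝 c, g x = x := fun c hc => h.filter_mono (nhds_le_nhdsSet hc)
  have hint : ∀ x ∈ C, ∃ k : ℤ, (Fx x).f 0 = k * (2 * Real.pi) := by
    intro x hx
    obtain ⟨k, hk⟩ := isg_id (hnh x hx) (hFx x)
    refine ⟨k, ?_⟩
    have h3 := congrArg Prod.fst (hk 0)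
    rw [XX.ev_def] at h3
    simpa using h3
  have hcont : ContinuousOn (fun x => (Fx x).f 0) C := by
    intro c0 hc0
    obtain ⟨δ, hδ, hgid⟩ := Metric.eventually_nhds_iff.1 (hnh c0 hc0)
    set ρ : ℝ := δ / 3 with hρ
    have hρ0 : 0 < ρ := by positivity
    have hd1 : ‖dir 0‖ ≤ 1 := dir_norm_le 0
    -- values at pairs of fixed points
    have hval : ∀ c : P2, dist c c0 < ρ → ∀ t : ℝ, 0 < t → t ≤ ρ →
        c ≠ c + t • dir 0 ∧ ∃ k : ℤ, W c (c + t • dir 0) = k * (2 * Real.pi) := by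
      intro c hc t ht htρ
      have hne : c ≠ c + t • dir 0 := by
        intro h3
        rcases smul_eq_zero.1 (add_eq_left.1 h3.symm) with h5 | h5
        · exact ht.ne' h5
        · exact dir_ne 0 h5
      refine ⟨hne, ?_⟩
      have hz : dist (c + t • dir 0) c0 < δ := by
        have h3 : dist (c + t • dir 0) c ≤ ρ := by
          rw [dist_self_add_left, norm_smul, Real.norm_eq_abs, abs_of_pos ht]
          nlinarith [norm_nonneg (dir 0)]
        have h4 := dist_triangle (c + t • dir 0) c c0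
        have h5 : 3 * ρ = δ := by rw [hρ]; ring
        linarith
      have hcd : dist c c0 < δ := by
        have h5 : 3 * ρ = δ := by rw [hρ]; ring
        linarith
      obtain ⟨r, hr, h3⟩ := hW.dirn c (c + t • dir 0) hne
      rw [hgid hz, hgid hcd] at h3
      have h4 : r • rt (W c (c + t • dir 0)) (c + t • dir 0 - c) =
          (1 : ℝ) • rt 0 (c + t • dir 0 - c) := by
        rw [← h3, rt_zero, one_smul]
      obtain ⟨-, k, hk⟩ := rt_inj (sub_ne_zero.2 hne.symm) hr one_pos h4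
      exact ⟨k, by rw [hk, zero_add]⟩
    have hA : ∀ c : P2, dist c c0 < ρ → (Fx c).f 0 = W c (c + ρ • dir 0) := by
      intro c hc
      obtain ⟨ε, hε, hF⟩ := hFx c
      have ht : 0 < min ε ρ := lt_min hε hρ0
      obtain ⟨-, h3⟩ := hF 0 (min ε ρ) ht (min_le_left _ _)
      rw [zero_add] at h3
      rw [h3]
      refine const_of_int (S := Set.Ioc (0 : ℝ) ρ) isPreconnected_Ioc
        (fun t => W c (c + t • dir 0)) ?_ ?_ (min ε ρ) ⟨ht, min_le_right _ _⟩ ρ ⟨hρ0, le_rfl⟩
      · have h4 : Continuous (fun t : ℝ => ((c, c + t • dir 0) : P2 × P2)) := by fun_prop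
        exact hW.cont.comp h4.continuousOn fun t ht => (hval c hc t ht.1 ht.2).1
      · intro t ht
        exact (hval c hc t ht.1 ht.2).2
    have hB : ∀ c : P2, dist c c0 < ρ → W c (c + ρ • dir 0) = W c0 (c0 + ρ • dir 0) := by
      intro c hc
      refine const_of_int (S := Metric.ball c0 ρ) (convex_ball c0 ρ).isPreconnected
        (fun c => W c (c + ρ • dir 0)) ?_ ?_ c hc c0 (Metric.mem_ball_self hρ0)
      · have h4 : Continuous (fun c : P2 => ((c, c + ρ • dir 0) : P2 × P2)) := by fun_prop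
        exact hW.cont.comp h4.continuousOn fun c hc => (hval c hc ρ hρ0 le_rfl).1
      · intro c hc
        exact (hval c hc ρ hρ0 le_rfl).2
    have hev : (fun x => (Fx x).f 0) =ᶠ[𝓝[C] c0] fun _ => (Fx c0).f 0 := by
      have h3 : ∀ᶠ x in 𝓝 c0, dist x c0 < ρ := Metric.ball_mem_nhds c0 hρ0
      filter_upwards [nhdsWithin_le_nhds h3] with x hx
      rw [hA x hx, hB x hx, hA c0 (by rw [dist_self]; exact hρ0)]
    exact continuousWithinAt_const.congr_of_eventuallyEq hev rfl
  have hm := const_of_int hC (fun x => (Fx x).f 0) hcont hint v hv w hw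
  have e1 : F = Fx v := h1.unique (hFx v)
  have e2 : F' = Fx w := h2.unique (hFx w)
  rw [e1, e2]
  obtain ⟨k, hk⟩ := isg_id (hnh v hv) (hFx v)
  obtain ⟨k', hk'⟩ := isg_id (hnh w hw) (hFx w)
  have f1 : (Fx v).f 0 = k * (2 * Real.pi) := by
    have h3 := congrArg Prod.fst (hk 0)
    rw [XX.ev_def] at h3
    simpa using h3
  have f2 : (Fx w).f 0 = k' * (2 * Real.pi) := by
    have h3 := congrArg Prod.fst (hk' 0)
    rw [XX.ev_def] at h3
    simpa using h3
  refine XX.ext_ev fun s => ?_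
  rw [hk, hk']
  have h5 : (k : ℝ) * (2 * Real.pi) = k' * (2 * Real.pi) := by
    rw [← f1, ← f2]
    exact hm
  rw [h5]

end C715
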