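import Pool.Agent.Work.MP_c71557_gt.G.GDefs

set_option autoImplicit false
set_option linter.unusedVariables false

/-!
# MP_c71557_gt, module G/PlR: a piecewise affine function is affine on short rays (M)

`φ` continuous, `φ x ∈ {l.ev x : l ∈ S}`, `S` finite, `v` a point.  Let `S' = {l ∈ S : l.ev v = φ v}`.  For `l ∈ S \ S'`
the continuous function `|l.ev x - φ x|` is positive at `v`, so there is `ε > 0` with `l.ev x ≠ φ x` for all
`‖x - v‖ ≤ ε` and `l ∈ S \ S'`; so `φ x ∈ {l.ev x : l ∈ S'}` there.  For `‖u‖ ≤ ε`, `0 < s ≤ 1`: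
`φ (v + s u) = l.ev (v + s u) = φ v + s * l.lin u` for some `l ∈ S'` (depending on `s`).  So
`q(s) = (φ (v + s u) - φ v) / s` is continuous on `(0, 1]` with values in the finite set `{l.lin u : l ∈ S'}`, hence
constant (`IsPreconnected.constant_of_mapsTo`, or the intermediate value theorem), so
`φ (v + s u) - φ v = s (φ (v + u) - φ v)`.
Put `H θ = (φ (v + ε • dir θ) - φ v) / ε` (`‖ε • dir θ‖ ≤ ε` in the sup norm).
-/

namespace C715

private theorem ev_add (l : L3) (x u : P2) : l.ev (x + u) = l.ev x + l.lin u := by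
  unfold L3.ev L3.lin
  simp only [Prod.fst_add, Prod.snd_add]
  ring

private theorem lin_smul (l : L3) (t : ℝ) (u : P2) : l.lin (t • u) = t * l.lin u := by
  unfold L3.lin
  simp only [Prod.smul_fst, Prod.smul_snd, smul_eq_mul]
  ring

private theorem ev_cont (l : L3) : Continuous l.ev := by
  unfold L3.ev
  fun_prop

private theorem dir_norm_le1 (θ : ℝ) : ‖dir θ‖ ≤ 1 := by
  unfold dir
  rw [Prod.norm_mk, Real.norm_eq_abs, Real.norm_eq_abs]
  exact max_le (Real.abs_cos_le_one θ) (Real.abs_sin_le_one θ)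

private theorem pre_const {q : ℝ → ℝ} {A : Set ℝ} (hA : IsPreconnected A) (hq : ContinuousOn q A)
    {T : Set ℝ} (hT : T.Finite) (h : ∀ s ∈ A, q s ∈ T) : ∀ s ∈ A, ∀ s' ∈ A, q s = q s' := by
  have hpre := hA.image q hq
  have hfin : (q '' A).Finite := hT.subset (by rintro _ ⟨s, hs, rfl⟩; exact h s hs)
  have key : ∀ s ∈ A, ∀ s' ∈ A, ¬ q s < q s' := by
    intro s hs s' hs' hlt
    exact (Set.Icc_infinite hlt) (hfin.subset (hpre.Icc_subset ⟨s, hs, rfl⟩ ⟨s', hs', rfl⟩))
  intro s hs s' hs'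
  exact le_antisymm (not_lt.1 (key s' hs' s hs)) (not_lt.1 (key s hs s' hs'))

theorem pl_ray (φ : P2 → ℝ) (hφ : IsPLf φ) (v : P2) :
    ∃ (H : ℝ → ℝ) (ε : ℝ), 0 < ε ∧ Continuous H ∧
      (∀ θ t : ℝ, 0 ≤ t → t ≤ ε → φ (v + t • dir θ) = φ v + t * H θ) ∧
      ∃ S : Set L3, S.Finite ∧ ∀ θ, ∃ l ∈ S, H θ = l.lin (dir θ) := by
  obtain ⟨hc, S, hS, hφS⟩ := hφ
  have hev : ∀ᶠ x in nhds v, ∀ l ∈ S, l.ev v ≠ φ v → l.ev x ≠ φ x := by
    rw [Filter.eventually_all_finite hS]
    intro l _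
    by_cases hl : l.ev v = φ v
    · exact Filter.Eventually.of_forall fun x hx => absurd hl hx
    · have h1 := (((ev_cont l).continuousAt (x := v)).ne_iff_eventually_ne hc.continuousAt).1 hl
      filter_upwards [h1] with x hx _
      exact hx
  obtain ⟨ε', hε', hball⟩ := Metric.eventually_nhds_iff_ball.1 hev
  set ε := ε' / 2 with hε
  have hε0 : 0 < ε := by rw [hε]; linarith
  have key : ∀ x : P2, ‖x - v‖ ≤ ε → ∃ l ∈ S, φ x = l.ev x ∧ l.ev v = φ v := by
    intro x hx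
    obtain ⟨l, hl, h1⟩ := hφS x
    refine ⟨l, hl, h1, ?_⟩
    by_contra h2
    refine hball x ?_ l hl h2 h1.symm
    rw [Metric.mem_ball, dist_eq_norm]
    linarith
  have hu : ∀ θ, ‖ε • dir θ‖ ≤ ε := by
    intro θ
    rw [norm_smul, Real.norm_eq_abs, abs_of_pos hε0]
    exact mul_le_of_le_one_right hε0.le (dir_norm_le1 θ)
  have hray : ∀ θ s : ℝ, 0 < s → s ≤ 1 → ∃ l ∈ S,
      φ (v + s • (ε • dir θ)) = φ v + s * l.lin (ε • dir θ) := by
    intro θ s hs hs1
    obtain ⟨l, hl, h1, h2⟩ := key (v + s • (ε • dir θ)) (by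
      rw [add_sub_cancel_left, norm_smul, Real.norm_eq_abs, abs_of_pos hs]
      calc s * ‖ε • dir θ‖ ≤ 1 * ε := mul_le_mul hs1 (hu θ) (norm_nonneg _) zero_le_one
        _ = ε := one_mul _)
    refine ⟨l, hl, ?_⟩
    rw [h1, ev_add, lin_smul, h2]
  have hlin : ∀ θ s : ℝ, 0 < s → s ≤ 1 →
      φ (v + s • (ε • dir θ)) - φ v = s * (φ (v + ε • dir θ) - φ v) := by
    intro θ s hs hs1
    have h1 := pre_const (q := fun s => (φ (v + s • (ε • dir θ)) - φ v) / s)
      (A := Set.Ioc (0 : ℝ) 1) isPreconnected_Ioc (by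
        refine ContinuousOn.div ?_ continuousOn_id (fun s hs => hs.1.ne')
        refine Continuous.continuousOn ?_
        exact (hc.comp (by fun_prop)).sub continuous_const)
      (T := (fun l : L3 => l.lin (ε • dir θ)) '' S) (hS.image _) (by
        intro s hs
        obtain ⟨l, hl, h2⟩ := hray θ s hs.1 hs.2
        refine ⟨l, hl, ?_⟩
        dsimp only
        rw [h2, add_sub_cancel_left, mul_div_cancel_left₀ _ hs.1.ne'])
      s ⟨hs, hs1⟩ 1 ⟨one_pos, le_rfl⟩
    rw [one_smul, div_one, div_eq_iff hs.ne'] at h1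
    rw [h1, mul_comm]
  refine ⟨fun θ => (φ (v + ε • dir θ) - φ v) / ε, ε, hε0, ?_, ?_, S, hS, ?_⟩
  · have hd : Continuous dir := by
      unfold dir
      fun_prop
    exact ((hc.comp (continuous_const.add (hd.const_smul ε))).sub continuous_const).div_const ε
  · intro θ t ht0 ht
    rcases eq_or_lt_of_le ht0 with h0 | h0
    · rw [← h0, zero_smul, add_zero, zero_mul, add_zero]
    · have h1 := hlin θ (t / ε) (div_pos h0 hε0) ((div_le_one hε0).2 ht)
      rw [smul_smul, div_mul_cancel₀ _ hε0.ne'] at h1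
      have h2 : φ (v + t • dir θ) = φ v + t / ε * (φ (v + ε • dir θ) - φ v) := by linarith
      rw [h2]
      ring
  · intro θ
    obtain ⟨l, hl, h1⟩ := hray θ 1 one_pos le_rfl
    refine ⟨l, hl, ?_⟩
    dsimp only
    rw [one_smul, one_mul, lin_smul] at h1
    rw [h1, add_sub_cancel_left, mul_div_cancel_left₀ _ hε0.ne']

end C715
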