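import Pool.Agent.Work.MP_c71557_gt.G.GDefs

set_option autoImplicit false
set_option linter.unusedVariables false

/-!
# MP_c71557_gt, module G/PlS: one sided linear pieces of a homogeneous selection (S-M)

`H` continuous, `H θ ∈ {l.lin (dir θ) : l ∈ S}`, `S` finite.  (`l.lin (dir s) = l.a cos s + l.b sin s`.)
* `pl_side`: for `l, m ∈ S` the function `s ↦ (l.a - m.a) cos s + (l.b - m.b) sin s` is either identically zero
  or has no zero in `(θ, θ + e(l,m)]` for some `e(l,m) > 0` (and similarly on the left): if it is not identically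
  zero, two zeros `s ≠ s'` with `|s - s'| < π` are impossible (`sin (s - s') ≠ 0`, determinant), so at most
  one zero in an interval of length `< π`.  Let `e > 0` be smaller than all `e(l, m)`.  On `(θ, θ + e]` the sets
  `E_l = {s : H s = l.lin (dir s)}` are relatively closed, they cover, and `E_l ∩ E_m ≠ ∅` implies that the two
  functions are identical; so by connectedness of `(θ, θ + e]` one `l` works on the whole interval
  (alternative: `H` is continuous; fix `s0` in the interval, `l` with `H s0 = l.lin (dir s0)`; the set of `s` with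
  `H s = l.lin (dir s)` is closed, and open: near `s1` in it the other candidates are different at `s1`, hence
  excluded near `s1` by continuity); at `θ` itself by continuity.
-/

namespace C715

private theorem lin_dir (l : L3) (s : ℝ) : l.lin (dir s) = l.a * Real.cos s + l.b * Real.sin s :=
  rfl

private theorem lin_cont (l : L3) : Continuous (fun s => l.lin (dir s)) := by
  unfold L3.lin dir
  fun_prop

private theorem ev_ne (a b θ : ℝ) : (∀ x, a * Real.cos x + b * Real.sin x = 0) ∨
    ∀ᶠ s in nhdsWithin θ (Set.Ioi θ), a * Real.cos s + b * Real.sin s ≠ 0 := by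
  by_cases h0 : a * Real.cos θ + b * Real.sin θ = 0
  · by_cases hz : a = 0 ∧ b = 0
    · left
      intro x
      rw [hz.1, hz.2]
      ring
    · right
      have hpi := Real.pi_pos
      have hmem : Set.Ioo θ (θ + Real.pi) ∈ nhdsWithin θ (Set.Ioi θ) :=
        Ioo_mem_nhdsGT (by linarith)
      filter_upwards [hmem] with s hs h1
      apply hz
      have hsin : 0 < Real.sin (s - θ) :=
        Real.sin_pos_of_pos_of_lt_pi (by linarith [hs.1]) (by linarith [hs.2])
      rw [Real.sin_sub] at hsin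
      constructor
      · have : a * (Real.sin s * Real.cos θ - Real.cos s * Real.sin θ) = 0 := by
          linear_combination Real.sin s * h0 - Real.sin θ * h1
        exact (mul_eq_zero.1 this).resolve_right hsin.ne'
      · have : b * (Real.sin s * Real.cos θ - Real.cos s * Real.sin θ) = 0 := by
          linear_combination Real.cos θ * h1 - Real.cos s * h0
        exact (mul_eq_zero.1 this).resolve_right hsin.ne'
  · right
    have hc : ContinuousAt (fun s => a * Real.cos s + b * Real.sin s) θ := by fun_prop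
    exact (hc.eventually_ne h0).filter_mono nhdsWithin_le_nhds

private theorem pl_right (H : ℝ → ℝ) (hH : Continuous H) (S : Set L3) (hS : S.Finite)
    (h : ∀ θ, ∃ l ∈ S, H θ = l.lin (dir θ)) (θ : ℝ) :
    ∃ e : ℝ, 0 < e ∧ ∃ l : L3, ∀ s ∈ Set.Icc θ (θ + e), H s = l.lin (dir s) := by
  have hev : ∀ᶠ s in nhdsWithin θ (Set.Ioi θ), ∀ l ∈ S, ∀ m ∈ S,
      (∀ x, l.lin (dir x) = m.lin (dir x)) ∨ l.lin (dir s) ≠ m.lin (dir s) := by
    rw [Filter.eventually_all_finite hS]
    intro l _
    rw [Filter.eventually_all_finite hS]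
    intro m _
    rcases ev_ne (l.a - m.a) (l.b - m.b) θ with h1 | h1
    · refine Filter.Eventually.of_forall fun s => Or.inl fun x => ?_
      have := h1 x
      rw [lin_dir, lin_dir]
      linarith
    · filter_upwards [h1] with s hs
      right
      intro h2
      apply hs
      rw [lin_dir, lin_dir] at h2
      linarith
  obtain ⟨u, hu, hsub⟩ := mem_nhdsGT_iff_exists_Ioc_subset.1 hev
  have hu' : θ < u := hu
  obtain ⟨l0, hl0, h0⟩ := h u
  have hclA : IsClosed {s | H s = l0.lin (dir s)} := isClosed_eq hH (lin_cont l0)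
  set S' : Set L3 := {m | m ∈ S ∧ ¬ ∀ x, l0.lin (dir x) = m.lin (dir x)} with hS'
  have hS'f : S'.Finite := hS.subset fun m hm => hm.1
  have hclB : IsClosed (⋃ m ∈ S', {s | H s = m.lin (dir s)}) :=
    hS'f.isClosed_biUnion fun m _ => isClosed_eq hH (lin_cont m)
  have hdis : ∀ s ∈ Set.Ioc θ u, H s = l0.lin (dir s) →
      s ∉ ⋃ m ∈ S', {s | H s = m.lin (dir s)} := by
    intro s hs h1 h2
    rw [Set.mem_iUnion₂] at h2
    obtain ⟨m, hm, h3⟩ := h2
    rcases hsub hs l0 hl0 m hm.1 with h4 | h4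
    · exact hm.2 h4
    · exact h4 (h1.symm.trans h3)
  have hpre : IsPreconnected (Set.Ioc θ u) := isPreconnected_Ioc
  rw [isPreconnected_iff_subset_of_disjoint_closed] at hpre
  have hT : Set.Ioc θ u ⊆ {s | H s = l0.lin (dir s)} := by
    have hcov : Set.Ioc θ u ⊆ {s | H s = l0.lin (dir s)} ∪
        ⋃ m ∈ S', {s | H s = m.lin (dir s)} := by
      intro s hs
      obtain ⟨m, hm, h1⟩ := h s
      by_cases h2 : ∀ x, l0.lin (dir x) = m.lin (dir x)
      · left
        change H s = l0.lin (dir s)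
        rw [h2, h1]
      · right
        rw [Set.mem_iUnion₂]
        exact ⟨m, ⟨hm, h2⟩, h1⟩
    have hemp : Set.Ioc θ u ∩ ({s | H s = l0.lin (dir s)} ∩
        ⋃ m ∈ S', {s | H s = m.lin (dir s)}) = ∅ := by
      rw [Set.eq_empty_iff_forall_notMem]
      rintro s ⟨hs, h1, h2⟩
      exact hdis s hs h1 h2
    rcases hpre _ _ hclA hclB hcov hemp with h1 | h1
    · exact h1
    · exact absurd (h1 ⟨hu', le_rfl⟩) (hdis u ⟨hu', le_rfl⟩ h0)
  refine ⟨u - θ, by linarith, l0, fun s hs => ?_⟩
  have h5 : Set.Icc θ u ⊆ {s | H s = l0.lin (dir s)} := by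
    rw [← closure_Ioc hu'.ne]
    exact closure_minimal hT hclA
  exact h5 ⟨hs.1, by linarith [hs.2]⟩

theorem pl_side (H : ℝ → ℝ) (hH : Continuous H) (S : Set L3) (hS : S.Finite)
    (h : ∀ θ, ∃ l ∈ S, H θ = l.lin (dir θ)) (θ : ℝ) :
    ∃ e : ℝ, 0 < e ∧ (∃ l : L3, ∀ s ∈ Set.Icc θ (θ + e), H s = l.lin (dir s)) ∧
      ∃ l : L3, ∀ s ∈ Set.Icc (θ - e) θ, H s = l.lin (dir s) := by
  obtain ⟨e1, he1, l1, h1⟩ := pl_right H hH S hS h θ
  have hneg : ∀ (l : L3) (s : ℝ), (⟨l.a, -l.b, l.c⟩ : L3).lin (dir s) = l.lin (dir (-s)) := by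
    intro l s
    rw [lin_dir, lin_dir, Real.cos_neg, Real.sin_neg]
    ring
  obtain ⟨e2, he2, l2, h2⟩ := pl_right (fun s => H (-s)) (hH.comp continuous_neg)
    ((fun l : L3 => (⟨l.a, -l.b, l.c⟩ : L3)) '' S) (hS.image _) (by
      intro s
      obtain ⟨l, hl, h3⟩ := h (-s)
      refine ⟨⟨l.a, -l.b, l.c⟩, ⟨l, hl, rfl⟩, ?_⟩
      rw [hneg]
      exact h3) (-θ)
  refine ⟨min e1 e2, lt_min he1 he2, ⟨l1, fun s hs => h1 s ⟨hs.1, hs.2.trans ?_⟩⟩,
    ⟨⟨l2.a, -l2.b, l2.c⟩, fun s hs => ?_⟩⟩
  · linarith [min_le_left e1 e2]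
  · have h4 := h2 (-s) ⟨by linarith [hs.2], by linarith [hs.1, min_le_right e1 e2]⟩
    rw [neg_neg] at h4
    rw [h4, hneg]

end C715
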