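import Pool.Agent.Work.MP_c71557_gt.G.Rt
import Pool.Agent.Work.MP_c71557_gt.G.PlS
import Pool.Agent.Work.MP_c71557_gt.G.PlR

set_option autoImplicit false
set_option linter.unusedVariables false

/-!
# MP_c71557_gt, module G/Exg: existence and uniqueness of the framed germ (M-L)

* `pl_germ`: `pl_ray` and `pl_side` for the two coordinates; take the minimum of the radii; with
  `l` for the first, `m` for the second coordinate, `p = (l.a, m.a)`, `q = (l.b, m.b)`.
* `exists_isg`.  Let `H, ε` be as in `pl_germ` for `g, v`.  `H θ ≠ 0` (`g` injective, `dir θ ≠ 0`).  Put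
  `f θ = θ + W v (v + ε • dir θ)`.  By `dirn`, `rt_dir`: `ε • H θ = r • (ε • dir (f θ))`, `r > 0`; so `H θ = r θ • dir (f θ)`
  with `r θ > 0` (choose `r : ℝ → ℝ`).
  For `0 < t ≤ ε`: `W v (v + t • dir θ) = W v (v + ε • dir θ)`: as a function of `t ∈ (0, ε]` it is continuous
  (`IsFr.cont`), and `t • H θ = r' • t • dir (θ + W v (v + t • dir θ))`, so by `smul_dir_inj` the difference with its
  value at `ε` is in `2πℤ`; `const_of_int`.
  `f` is continuous, `f (θ + 2π) = f θ + 2π` (`dir_per`), injective: if `f θ = f θ'` then `H θ`, `H θ'` are positive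
  multiples of the same vector, `r θ' • H θ = r θ • H θ'`; with small `t, t' ≤ ε`, `t / t' = r θ' / r θ`:
  `g (v + t • dir θ) = g (v + t' • dir θ')`, so `t • dir θ = t' • dir θ'`, `θ = θ' + 2πk`, `f θ = f θ' + 2πk`, `k = 0`.
  So `f` is strictly monotone (`Continuous.strictMono_of_inj`; strictly antitone is excluded by
  `f (θ + 2π) = f θ + 2π`) and surjective (unbounded in both directions, intermediate values):
  `StrictMono.orderIsoOfSurjective`.  `r (θ + 2π) = r θ`.  `pl`: `V f r s` has real and imaginary parts the two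
  coordinates of `H s = cos s • p + sin s • q` (`V_re`, `V_im`).  Membership in `Ft`: `mem_Ft`.
* `IsG.unique`: take `t > 0` below both radii: `F.f θ = θ + W … = F'.f θ`, `t • vec F θ = t • vec F' θ`, `vec_inj`,
  `XX.ext_ev`.
-/

namespace C715

open Ang

theorem pl_germ (g : P2 → P2) (hg : IsPL g) (v : P2) :
    ∃ (H : ℝ → P2) (ε : ℝ), 0 < ε ∧ Continuous H ∧
      (∀ θ t : ℝ, 0 ≤ t → t ≤ ε → g (v + t • dir θ) = g v + t • H θ) ∧
      ∀ θ, ∃ e : ℝ, 0 < e ∧
        (∃ p q : P2, ∀ s ∈ Set.Icc θ (θ + e), H s = Real.cos s • p + Real.sin s • q) ∧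
        ∃ p q : P2, ∀ s ∈ Set.Icc (θ - e) θ, H s = Real.cos s • p + Real.sin s • q := by
  obtain ⟨H1, ε1, hε1, hc1, hr1, S1, hS1, hs1⟩ := pl_ray _ hg.1 v
  obtain ⟨H2, ε2, hε2, hc2, hr2, S2, hS2, hs2⟩ := pl_ray _ hg.2 v
  refine ⟨fun θ => (H1 θ, H2 θ), min ε1 ε2, lt_min hε1 hε2, hc1.prodMk hc2, ?_, ?_⟩
  · intro θ t h0 h1
    refine Prod.ext ?_ ?_
    · exact hr1 θ t h0 (h1.trans (min_le_left _ _))
    · exact hr2 θ t h0 (h1.trans (min_le_right _ _))
  · intro θ
    obtain ⟨e1, he1, ⟨l1, hl1⟩, ⟨l1', hl1'⟩⟩ := pl_side H1 hc1 S1 hS1 hs1 θ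
    obtain ⟨e2, he2, ⟨l2, hl2⟩, ⟨l2', hl2'⟩⟩ := pl_side H2 hc2 S2 hS2 hs2 θ
    have hm1 := min_le_left e1 e2
    have hm2 := min_le_right e1 e2
    refine ⟨min e1 e2, lt_min he1 he2, ⟨(l1.a, l2.a), (l1.b, l2.b), fun s hs => ?_⟩,
      ⟨(l1'.a, l2'.a), (l1'.b, l2'.b), fun s hs => ?_⟩⟩
    · have h1 := hl1 s ⟨hs.1, by linarith [hs.2]⟩
      have h2 := hl2 s ⟨hs.1, by linarith [hs.2]⟩
      refine Prod.ext ?_ ?_
      · change H1 s = Real.cos s * l1.a + Real.sin s * l1.b
        rw [h1]
        simp only [L3.lin, dir]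
        ring
      · change H2 s = Real.cos s * l2.a + Real.sin s * l2.b
        rw [h2]
        simp only [L3.lin, dir]
        ring
    · have h1 := hl1' s ⟨by linarith [hs.1], hs.2⟩
      have h2 := hl2' s ⟨by linarith [hs.1], hs.2⟩
      refine Prod.ext ?_ ?_
      · change H1 s = Real.cos s * l1'.a + Real.sin s * l1'.b
        rw [h1]
        simp only [L3.lin, dir]
        ring
      · change H2 s = Real.cos s * l2'.a + Real.sin s * l2'.b
        rw [h2]
        simp only [L3.lin, dir]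
        ring

private theorem ne_add (v : P2) {t : ℝ} (ht : 0 < t) (θ : ℝ) : v ≠ v + t • dir θ := by
  intro h
  have h1 : t • dir θ = 0 := by
    have := h.symm
    rwa [add_eq_left] at this
  exact smul_ne_zero ht.ne' (dir_ne θ) h1

private theorem fr_dir {g : P2 → P2} {W : P2 → P2 → ℝ} (hW : IsFr g W) (v : P2) {t : ℝ}
    (ht : 0 < t) (θ : ℝ) :
    ∃ r : ℝ, 0 < r ∧ g (v + t • dir θ) - g v = (r * t) • dir (θ + W v (v + t • dir θ)) := by
  obtain ⟨r, hr, h⟩ := hW.dirn v (v + t • dir θ) (ne_add v ht θ)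
  refine ⟨r, hr, ?_⟩
  rw [h, add_sub_cancel_left, rt_dir, smul_smul]

theorem exists_isg {g : Equiv.Perm P2} (hg : g ∈ Gc) {W : P2 → P2 → ℝ} (hW : IsFr g W) (v : P2) :
    ∃ F ∈ Ft, IsG g W v F := by
  obtain ⟨H, ε, hε, hHc, hray, hside⟩ := pl_germ g hg.1.1 v
  have hpi := Real.two_pi_pos
  -- the radius
  have hex : ∀ θ : ℝ, ∃ r : ℝ, 0 < r ∧ H θ = r • dir (θ + W v (v + ε • dir θ)) := by
    intro θ
    obtain ⟨r, hr, h⟩ := fr_dir hW v hε θ
    refine ⟨r, hr, ?_⟩
    rw [hray θ ε hε.le le_rfl, add_sub_cancel_left, mul_comm, mul_smul] at h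
    exact smul_right_injective P2 hε.ne' h
  choose r hr hH using hex
  -- constancy along rays
  have hconst : ∀ θ t : ℝ, 0 < t → t ≤ ε → W v (v + t • dir θ) = W v (v + ε • dir θ) := by
    intro θ t ht htε
    have hS : IsPreconnected (Set.Ioc (0 : ℝ) ε) := isPreconnected_Ioc
    have hcont : ContinuousOn (fun t : ℝ => W v (v + t • dir θ) - W v (v + ε • dir θ))
        (Set.Ioc (0 : ℝ) ε) := by
      refine ContinuousOn.sub ?_ continuousOn_const
      have h1 : ContinuousOn (fun t : ℝ => ((v, v + t • dir θ) : P2 × P2)) (Set.Ioc (0 : ℝ) ε) := by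
        refine Continuous.continuousOn ?_
        fun_prop
      exact hW.cont.comp h1 (fun s hs => ne_add v hs.1 θ)
    have hint : ∀ s ∈ Set.Ioc (0 : ℝ) ε,
        ∃ k : ℤ, W v (v + s • dir θ) - W v (v + ε • dir θ) = k * (2 * Real.pi) := by
      intro s hs
      obtain ⟨r', hr', h⟩ := fr_dir hW v hs.1 θ
      rw [hray θ s hs.1.le hs.2, add_sub_cancel_left, hH θ, smul_smul] at h
      obtain ⟨_, k, hk⟩ := smul_dir_inj (mul_pos hs.1 (hr θ)) (mul_pos hr' hs.1) h
      refine ⟨-k, ?_⟩
      push_cast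
      linarith
    have h := const_of_int hS _ hcont hint t ⟨ht, htε⟩ ε ⟨hε, le_rfl⟩
    linarith
  -- the lift
  set f : ℝ → ℝ := fun θ => θ + W v (v + ε • dir θ) with hf
  have hfc : Continuous f := by
    refine continuous_id.add ?_
    have h1 : Continuous (fun θ : ℝ => ((v, v + ε • dir θ) : P2 × P2)) := by
      have := dir_cont
      fun_prop
    have h2 := hW.cont.comp_continuous h1 (fun s => ne_add v hε s)
    exact h2
  have hfp : ∀ (θ : ℝ) (k : ℤ), f (θ + k * (2 * Real.pi)) = f θ + k * (2 * Real.pi) := by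
    intro θ k
    simp only [hf, dir_per]
    ring
  have hfi : Function.Injective f := by
    intro θ θ' h
    have hs : 0 < r θ + r θ' := add_pos (hr θ) (hr θ')
    have ht : 0 < ε * r θ' / (r θ + r θ') := div_pos (mul_pos hε (hr θ')) hs
    have ht' : 0 < ε * r θ / (r θ + r θ') := div_pos (mul_pos hε (hr θ)) hs
    have ht1 : ε * r θ' / (r θ + r θ') ≤ ε := by
      rw [div_le_iff₀ hs]
      nlinarith [mul_pos hε (hr θ)]
    have ht1' : ε * r θ / (r θ + r θ') ≤ ε := by
      rw [div_le_iff₀ hs]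
      nlinarith [mul_pos hε (hr θ')]
    have e1 : (ε * r θ' / (r θ + r θ')) • H θ = (ε * r θ / (r θ + r θ')) • H θ' := by
      rw [hH θ, hH θ', smul_smul, smul_smul]
      have h' : θ + W v (v + ε • dir θ) = θ' + W v (v + ε • dir θ') := h
      rw [h']
      congr 1
      ring
    have e2 : g (v + (ε * r θ' / (r θ + r θ')) • dir θ) =
        g (v + (ε * r θ / (r θ + r θ')) • dir θ') := by
      rw [hray θ _ ht.le ht1, hray θ' _ ht'.le ht1', e1]
    have e3 := add_left_cancel (g.injective e2)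
    obtain ⟨_, k, hk⟩ := smul_dir_inj ht ht' e3
    rw [hk, hfp] at h
    have h5 : (k : ℝ) * (2 * Real.pi) = 0 := by linarith
    rw [hk, h5, add_zero]
  have hmono : StrictMono f := by
    rcases hfc.strictMono_of_inj hfi with h | h
    · exact h
    · exfalso
      have h1 : f (2 * Real.pi) < f 0 := h hpi
      have h2 := hfp 0 1
      rw [Int.cast_one, one_mul, zero_add] at h2
      linarith
  have hsurj : Function.Surjective f := by
    intro y
    have h1 : y ∈ Set.range f := by
      refine mem_range_of_exists_le_of_exists_ge hfc ?_ ?_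
      · refine ⟨0 + (⌊(y - f 0) / (2 * Real.pi)⌋ : ℤ) * (2 * Real.pi), ?_⟩
        rw [hfp]
        have h2 := Int.floor_le ((y - f 0) / (2 * Real.pi))
        rw [le_div_iff₀ hpi] at h2
        linarith
      · refine ⟨0 + (⌈(y - f 0) / (2 * Real.pi)⌉ : ℤ) * (2 * Real.pi), ?_⟩
        rw [hfp]
        have h2 := Int.le_ceil ((y - f 0) / (2 * Real.pi))
        rw [div_le_iff₀ hpi] at h2
        linarith
    exact h1
  have hHV : ∀ s, H s = ((r s * Real.cos (f s), r s * Real.sin (f s)) : P2) := fun s => hH s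
  let F : XX :=
    { f := StrictMono.orderIsoOfSurjective f hmono hsurj
      r := r
      pos := hr
      pl := by
        intro t
        obtain ⟨e, he, ⟨p, q, h1⟩, ⟨p', q', h2⟩⟩ := hside t
        refine ⟨e, he, ⟨⟨p.1, p.2⟩, ⟨q.1, q.2⟩, fun s hs => ?_⟩,
          ⟨⟨p'.1, p'.2⟩, ⟨q'.1, q'.2⟩, fun s hs => ?_⟩⟩
        · have h3 := h1 s hs
          rw [hHV] at h3
          refine Complex.ext ?_ ?_
          · rw [V_re]
            simp only [Complex.add_re, Complex.smul_re, smul_eq_mul]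
            exact congrArg Prod.fst h3
          · rw [V_im]
            simp only [Complex.add_im, Complex.smul_im, smul_eq_mul]
            exact congrArg Prod.snd h3
        · have h3 := h2 s hs
          rw [hHV] at h3
          refine Complex.ext ?_ ?_
          · rw [V_re]
            simp only [Complex.add_re, Complex.smul_re, smul_eq_mul]
            exact congrArg Prod.fst h3
          · rw [V_im]
            simp only [Complex.add_im, Complex.smul_im, smul_eq_mul]
            exact congrArg Prod.snd h3 }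
  have hFf : ∀ s, F.f s = f s := fun s => rfl
  have hFr : ∀ s, F.r s = r s := fun s => rfl
  refine ⟨F, ?_, ε, hε, fun θ t ht htε => ⟨?_, ?_⟩⟩
  · rw [mem_Ft]
    intro s
    refine Prod.ext ?_ ?_
    · change f (s + 2 * Real.pi) = f s + 2 * Real.pi
      have h := hfp s 1
      rwa [Int.cast_one, one_mul] at h
    · change r (s + 2 * Real.pi) = r s
      have h1 : dir (s + 2 * Real.pi) = dir s := by
        have h := dir_per s 1
        rwa [Int.cast_one, one_mul] at h
      have h2 : H (s + 2 * Real.pi) = H s := by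
        have e1 := hray (s + 2 * Real.pi) ε hε.le le_rfl
        have e2 := hray s ε hε.le le_rfl
        rw [h1, e2] at e1
        exact (smul_right_injective P2 hε.ne' (add_left_cancel e1)).symm
      rw [hH, hH] at h2
      exact (smul_dir_inj (hr _) (hr _) h2).1
  · rw [hray θ t ht.le htε, hH θ]
    rfl
  · rw [hconst θ t ht htε]
    rfl

theorem IsG.unique {g : P2 → P2} {W : P2 → P2 → ℝ} {v : P2} {F F' : XX} (h : IsG g W v F)
    (h' : IsG g W v F') : F = F' := by
  obtain ⟨ε, hε, h⟩ := h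
  obtain ⟨ε', hε', h'⟩ := h'
  have ht : 0 < min ε ε' := lt_min hε hε'
  refine XX.ext_ev fun θ => ?_
  obtain ⟨h1, h2⟩ := h θ _ ht (min_le_left _ _)
  obtain ⟨h3, h4⟩ := h' θ _ ht (min_le_right _ _)
  refine vec_inj (h2.trans h4.symm) ?_
  rw [h1] at h3
  exact smul_right_injective P2 ht.ne' (add_left_cancel h3)

end C715
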