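import Pool.Agent.Work.MP_c71557_gt.G.Rt

set_option autoImplicit false
set_option linter.unusedVariables false

/-!
# MP_c71557_gt, module G/FrU: uniqueness and cocycle of the framing (S-M)

* `ne_conn`: the complement of the diagonal (a linear subspace of codimension 2) in `P2 × P2`:
  `isConnected_compl_of_one_lt_codim` (or `isPathConnected_compl_of_…`), or by the homeomorphism
  `(c, z) ↦ (c, z - c)` from `univ ×ˢ {0}ᶜ` (`isPreconnected_univ.prod`,
  `isConnected_compl_singleton_of_one_lt_rank`).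
* `unique`: `W - W'` is continuous on the set of pairs of distinct points, with values in `2πℤ` (`dirn`
  and `rt_inj`, `u = z - c`), so it is constant (`const_of_int`); both are `0` at a pair of distinct points of
  large norm, e.g. `(ρ, 0)`, `(-ρ, 0)`, `ρ` at least both radii and `1`.
* `mul`: `cont`: composition (`g` injective and continuous: pairs of distinct points go to pairs of distinct
  points); `dirn`: `h (g z) - h (g c) = r' • rt (W' (g c) (g z)) (r • rt (W c z) (z - c))`, `rt_smul`, `rt_add`;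
  `far`: `g x = x` for `‖x‖ ≥ R₀`; take the maximum of the three radii.
-/

namespace C715

theorem ne_conn : IsPreconnected {p : P2 × P2 | p.1 ≠ p.2} := by
  have hrank : 1 < Module.rank ℝ P2 := by
    rw [rank_prod', Module.rank_self]
    norm_num
  have h1 : IsPreconnected ({0}ᶜ : Set P2) :=
    (isConnected_compl_singleton_of_one_lt_rank hrank 0).isPreconnected
  have h2 : IsPreconnected ((Set.univ : Set P2) ×ˢ ({0}ᶜ : Set P2)) := isPreconnected_univ.prod h1
  have h3 : Continuous (fun q : P2 × P2 => (q.1, q.1 + q.2)) := by fun_prop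
  have h4 : {p : P2 × P2 | p.1 ≠ p.2} =
      (fun q : P2 × P2 => (q.1, q.1 + q.2)) '' ((Set.univ : Set P2) ×ˢ ({0}ᶜ : Set P2)) := by
    ext p
    constructor
    · intro hp
      refine ⟨(p.1, p.2 - p.1), ⟨trivial, ?_⟩, ?_⟩
      · intro h0
        exact hp (sub_eq_zero.1 h0).symm
      · ext1
        · rfl
        · change p.1 + (p.2 - p.1) = p.2
          abel
    · rintro ⟨q, ⟨-, hq⟩, rfl⟩ h0
      apply hq
      change q.1 = q.1 + q.2 at h0
      exact (left_eq_add.1 h0)
  rw [h4]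
  exact h2.image _ h3.continuousOn

theorem IsFr.unique {g : P2 → P2} {W W' : P2 → P2 → ℝ} (h : IsFr g W) (h' : IsFr g W') :
    ∀ c z : P2, c ≠ z → W c z = W' c z := by
  obtain ⟨R, hR⟩ := h.far
  obtain ⟨R', hR'⟩ := h'.far
  have hc := const_of_int ne_conn (fun p : P2 × P2 => W p.1 p.2 - W' p.1 p.2)
    (h.cont.sub h'.cont) (by
      rintro ⟨c, z⟩ hp
      have hcz : c ≠ z := hp
      obtain ⟨r, hr, h1⟩ := h.dirn c z hcz
      obtain ⟨r', hr', h2⟩ := h'.dirn c z hcz
      have h3 : z - c ≠ 0 := sub_ne_zero.2 hcz.symm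
      obtain ⟨-, k, hk⟩ := rt_inj h3 hr hr' (h1.symm.trans h2)
      refine ⟨k, ?_⟩
      dsimp only
      rw [hk]
      ring)
  intro c z hcz
  set ρ : ℝ := max (max R R') 1 with hρ
  have hρ1 : 1 ≤ ρ := le_max_right _ _
  have hρR : R ≤ ρ := (le_max_left _ _).trans (le_max_left _ _)
  have hρR' : R' ≤ ρ := (le_max_right _ _).trans (le_max_left _ _)
  have hn1 : ‖((ρ, 0) : P2)‖ = ρ := by
    rw [Prod.norm_mk, norm_zero, Real.norm_eq_abs, abs_of_pos (by linarith)]
    exact max_eq_left (by linarith)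
  have hn2 : ‖((-ρ, 0) : P2)‖ = ρ := by
    rw [Prod.norm_mk, norm_zero, Real.norm_eq_abs, abs_neg, abs_of_pos (by linarith)]
    exact max_eq_left (by linarith)
  have hne : ((ρ, 0) : P2) ≠ (-ρ, 0) := by
    intro h0
    have : ρ = -ρ := congrArg Prod.fst h0
    linarith
  have e1 := hc (c, z) hcz ((ρ, 0), (-ρ, 0)) hne
  dsimp only at e1
  rw [hR (ρ, 0) (-ρ, 0) hne (by rw [hn1]; exact hρR) (by rw [hn2]; exact hρR),
    hR' (ρ, 0) (-ρ, 0) hne (by rw [hn1]; exact hρR') (by rw [hn2]; exact hρR')] at e1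
  linarith

theorem IsFr.mul {g h : Equiv.Perm P2} (hg : g ∈ Gc) (hh : h ∈ Gc) {W W' : P2 → P2 → ℝ}
    (h1 : IsFr g W) (h2 : IsFr h W') :
    IsFr (h * g : Equiv.Perm P2) (fun c z => W' (g c) (g z) + W c z) := by
  have hgc := Gc_cont hg
  refine ⟨?_, ?_, ?_⟩
  · have h3 : ContinuousOn (fun p : P2 × P2 => W' (g p.1) (g p.2)) {p | p.1 ≠ p.2} := by
      refine h2.cont.comp (g := fun p : P2 × P2 => W' p.1 p.2)
        (f := fun p : P2 × P2 => (g p.1, g p.2)) ?_ ?_
      · exact ((hgc.comp continuous_fst).prodMk (hgc.comp continuous_snd)).continuousOn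
      · intro p hp h0
        exact hp (g.injective h0)
    exact h3.add h1.cont
  · intro c z hcz
    obtain ⟨r, hr, e1⟩ := h1.dirn c z hcz
    obtain ⟨r', hr', e2⟩ := h2.dirn (g c) (g z) (fun h0 => hcz (g.injective h0))
    refine ⟨r' * r, mul_pos hr' hr, ?_⟩
    change h (g z) - h (g c) = _
    rw [e2, e1, rt_smul, rt_add, smul_smul]
  · obtain ⟨R0, h0⟩ := hg.2
    obtain ⟨R1, e1⟩ := h1.far
    obtain ⟨R2, e2⟩ := h2.far
    refine ⟨max R0 (max R1 R2), fun c z hcz hc hz => ?_⟩
    have a0 : R0 ≤ max R0 (max R1 R2) := le_max_left _ _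
    have a1 : R1 ≤ max R0 (max R1 R2) := (le_max_left _ _).trans (le_max_right _ _)
    have a2 : R2 ≤ max R0 (max R1 R2) := (le_max_right _ _).trans (le_max_right _ _)
    rw [h0 c (a0.trans hc), h0 z (a0.trans hz), e1 c z hcz (a1.trans hc) (a1.trans hz),
      e2 c z hcz (a2.trans hc) (a2.trans hz), add_zero]

end C715
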