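import Pool.Agent.Work.MP_c71557_gt.G.Rt

set_option autoImplicit false
set_option linter.unusedVariables false

/-!
# MP_c71557_gt, module G/Locg: framed germs at neighbouring points (M-L)

Let `ε₀` be the radius of `h : IsG g W v F`; take `ε = ε₀ / 2`, `0 < t ≤ ε`, `v' = v + t • dir θ`, `h' : IsG g W v' F'` with
radius `ε'`, and `0 < s ≤ min ε' ε`, so `t + s ≤ ε₀`.
(1) `F'.ev θ = F.ev θ`.  `g (v' + s • dir θ) = g v + (t + s) • vec F θ`, `g v' = g v + t • vec F θ`, so
`s • vec F' θ = s • vec F θ`.  For the angles: `z = v + (t + s) • dir θ`, `c τ = v + τ • dir θ`, `τ ∈ [0, t]`.  `W (c τ) z` is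
continuous in `τ` (`IsFr.cont`, `c τ ≠ z`).  `g z - g (c τ) = (t + s - τ) • vec F θ = ((t+s-τ) F.r θ) • dir (F.f θ)` and by
`dirn`, `rt_dir` it is `r (t + s - τ) • dir (θ + W (c τ) z)`; so `W (c τ) z - (F.f θ - θ) ∈ 2πℤ` (`smul_dir_inj`), it is
constant in `τ` (`const_of_int`) and `0` at `τ = 0` (`h`); at `τ = t` this is `F'.f θ = F.f θ` (`h'`).  Then `vec_inj`.
(2) Let `LinA F [θ, θ + e] p q`, `A x = x.1 • p + x.2 • q` (linear).  Let `φ = θ + β`, `0 ≤ β ≤ π`.  For small `s > 0`,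
`u = t • dir θ + s • dir φ = ρ • dir ψ` with `θ ≤ ψ ≤ θ + e` and `0 < ρ ≤ ε₀`: in the frame `dir θ, dir (θ + π/2)`
(`dir_add`) the coordinates of `u` are `(t + s cos β, s sin β)`, `t + s cos β ≥ t - s > 0`, `s sin β ≥ 0`; take `ψ` from
`exists_dir u _ (θ - π)`; `ρ cos (ψ - θ) = t + s cos β > 0`, `ρ sin (ψ - θ) = s sin β ≥ 0`, so `0 ≤ ψ - θ < π/2` and
`sin (ψ - θ) ≤ s / ρ ≤ s / (t - s)`, which is `≤ sin (min e (π/2))` for small `s`; `ρ ≤ t + s ≤ ε₀`.
So `g (v' + s • dir φ) = g (v + ρ • dir ψ) = g v + ρ • vec F ψ = g v + A (ρ • dir ψ) = g v + t • A (dir θ) + s • A (dir φ)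
= g v' + s • A (dir φ)`, and `= g v' + s • vec F' φ`.  So `vec F' φ = A (dir φ) = cos φ • p + sin φ • q`.
(3) The same on the left (`ψ ∈ [θ - e, θ]`, `β ∈ [-π, 0]`).
-/

namespace C715

open Ang

private theorem frame_inj {a b a' b' θ : ℝ}
    (h : a • dir θ + b • dir (θ + Real.pi / 2) = a' • dir θ + b' • dir (θ + Real.pi / 2)) :
    a = a' ∧ b = b' := by
  have h1 : a * Real.cos θ + b * (-Real.sin θ) = a' * Real.cos θ + b' * (-Real.sin θ) := by
    have := congrArg Prod.fst h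
    simpa [dir, Real.cos_add_pi_div_two, Real.sin_add_pi_div_two] using this
  have h2 : a * Real.sin θ + b * Real.cos θ = a' * Real.sin θ + b' * Real.cos θ := by
    have := congrArg Prod.snd h
    simpa [dir, Real.cos_add_pi_div_two, Real.sin_add_pi_div_two] using this
  have h3 := Real.sin_sq_add_cos_sq θ
  constructor
  · linear_combination Real.cos θ * h1 + Real.sin θ * h2 - (a - a') * h3
  · linear_combination -Real.sin θ * h1 + Real.cos θ * h2 - (b - b') * h3

private theorem polar_near {θ β t s e : ℝ} (ht : 0 < t) (hs : 0 < s) (h1 : s ≤ t / 2)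
    (h2 : s ≤ e * t / 4) : ∃ ρ ψ : ℝ, 0 < ρ ∧ ρ ≤ t + s ∧ |ψ - θ| ≤ e ∧
      (0 ≤ Real.sin β → θ ≤ ψ) ∧ (Real.sin β ≤ 0 → ψ ≤ θ) ∧
      t • dir θ + s • dir (θ + β) = ρ • dir ψ := by
  have hπ := Real.pi_pos
  have hu : t • dir θ + s • dir (θ + β) ≠ 0 := by
    intro h0
    have h3 : t • dir θ = s • dir (θ + β + Real.pi) := by
      rw [dir_pi, smul_neg]
      exact eq_neg_of_add_eq_zero_left h0
    have h4 := (smul_dir_inj ht hs h3).1
    linarith
  obtain ⟨ρ, ψ, hρ, hψ1, hψ2, hu'⟩ := exists_dir _ hu (θ - Real.pi)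
  have h3 : (t + s * Real.cos β) • dir θ + (s * Real.sin β) • dir (θ + Real.pi / 2) =
      (ρ * Real.cos (ψ - θ)) • dir θ + (ρ * Real.sin (ψ - θ)) • dir (θ + Real.pi / 2) := by
    have h4 := dir_add θ β
    have h5 := dir_add θ (ψ - θ)
    rw [add_sub_cancel] at h5
    rw [h4, h5] at hu'
    rw [mul_smul, mul_smul, mul_smul, add_smul, mul_smul, ← smul_add ρ, ← hu', smul_add]
    abel
  obtain ⟨e1, e2⟩ := frame_inj h3
  have hcb := Real.neg_one_le_cos β
  have hcb' := Real.cos_le_one β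
  have h4 : t / 2 ≤ ρ * Real.cos (ψ - θ) := by
    rw [← e1]
    nlinarith
  have h5 : 0 < Real.cos (ψ - θ) := by
    by_contra hc
    push Not at hc
    have : ρ * Real.cos (ψ - θ) ≤ 0 := mul_nonpos_of_nonneg_of_nonpos hρ.le hc
    linarith
  have h6 : |ψ - θ| ≤ Real.pi / 2 := by
    rw [abs_le]
    constructor
    · by_contra hc
      push Not at hc
      have h7 : Real.cos (-(ψ - θ)) ≤ 0 :=
        Real.cos_nonpos_of_pi_div_two_le_of_le (by linarith) (by linarith)
      rw [Real.cos_neg] at h7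
      linarith
    · by_contra hc
      push Not at hc
      have h7 : Real.cos (ψ - θ) ≤ 0 :=
        Real.cos_nonpos_of_pi_div_two_le_of_le (by linarith) (by linarith)
      linarith
  have h7 := Real.mul_abs_le_abs_sin h6
  have hρt : t / 2 ≤ ρ := by
    have := Real.cos_le_one (ψ - θ)
    nlinarith
  have h8 : ρ * |Real.sin (ψ - θ)| ≤ s := by
    rw [← abs_of_pos hρ, ← abs_mul, ← e2, abs_mul, abs_of_pos hs]
    have := Real.abs_sin_le_one β
    nlinarith
  have h9 : t * |ψ - θ| ≤ Real.pi * s := by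
    have h10 : t / 2 * (2 / Real.pi * |ψ - θ|) ≤ ρ * |Real.sin (ψ - θ)| :=
      mul_le_mul hρt h7 (by positivity) hρ.le
    have h11 : t / 2 * (2 / Real.pi * |ψ - θ|) = t * |ψ - θ| / Real.pi := by
      field_simp
    rw [h11] at h10
    have h12 := h10.trans h8
    rw [div_le_iff₀ hπ] at h12
    linarith
  have h10 : |ψ - θ| ≤ e := by
    have h11 : Real.pi * s ≤ 4 * s := by
      have := Real.pi_le_four
      nlinarith
    have h12 : t * |ψ - θ| ≤ t * e := by linarith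
    exact le_of_mul_le_mul_left h12 ht
  refine ⟨ρ, ψ, hρ, ?_, h10, ?_, ?_, hu'⟩
  · have h11 : ρ = (t + s * Real.cos β) * Real.cos (ψ - θ) + s * Real.sin β * Real.sin (ψ - θ) := by
      rw [e1, e2]
      have := Real.sin_sq_add_cos_sq (ψ - θ)
      linear_combination -ρ * this
    have h12 : ρ = t * Real.cos (ψ - θ) + s * Real.cos (ψ - θ - β) := by
      rw [Real.cos_sub (ψ - θ) β]
      linear_combination h11
    have h13 := Real.cos_le_one (ψ - θ)
    have h14 := Real.cos_le_one (ψ - θ - β)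
    nlinarith
  · intro h
    by_contra hc
    push Not at hc
    have h11 : Real.sin (ψ - θ) < 0 :=
      Real.sin_neg_of_neg_of_neg_pi_lt (by linarith) (by
        have := (abs_le.1 h6).1
        linarith)
    have h12 : ρ * Real.sin (ψ - θ) < 0 := mul_neg_of_pos_of_neg hρ h11
    rw [← e2] at h12
    have := mul_nonneg hs.le h
    linarith
  · intro h
    by_contra hc
    push Not at hc
    have h11 : 0 < Real.sin (ψ - θ) :=
      Real.sin_pos_of_pos_of_lt_pi (by linarith) (by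
        have := (abs_le.1 h6).2
        linarith)
    have h12 : 0 < ρ * Real.sin (ψ - θ) := mul_pos hρ h11
    rw [← e2] at h12
    have := mul_nonpos_of_nonneg_of_nonpos hs.le h
    linarith

/-- the linear piece at the nearby point -/
private theorem loc_lin {g : P2 → P2} {v gv gv' p q : P2} {F' : XX} {θ φ ψ t s ρ : ℝ}
    (hs : 0 < s)
    (h1 : g (v + ρ • dir ψ) = gv + ρ • (Real.cos ψ • p + Real.sin ψ • q))
    (h2 : gv' = gv + t • (Real.cos θ • p + Real.sin θ • q))
    (h3 : g (v + t • dir θ + s • dir φ) = gv' + s • vec F' φ)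
    (h4 : t • dir θ + s • dir φ = ρ • dir ψ) :
    vec F' φ = Real.cos φ • p + Real.sin φ • q := by
  have e1 : t * Real.cos θ + s * Real.cos φ = ρ * Real.cos ψ := congrArg Prod.fst h4
  have e2 : t * Real.sin θ + s * Real.sin φ = ρ * Real.sin ψ := congrArg Prod.snd h4
  rw [add_assoc, h4, h1, h2] at h3
  have h5 : s • vec F' φ = s • (Real.cos φ • p + Real.sin φ • q) := by
    have h6 : s • vec F' φ = (ρ * Real.cos ψ - t * Real.cos θ) • p +
        (ρ * Real.sin ψ - t * Real.sin θ) • q := by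
      have h7 : s • vec F' φ = (gv + ρ • (Real.cos ψ • p + Real.sin ψ • q)) -
          (gv + t • (Real.cos θ • p + Real.sin θ • q)) := by
        rw [h3]
        abel
      rw [h7]
      module
    rw [h6, ← e1, ← e2]
    module
  exact smul_right_injective _ hs.ne' h5

theorem isg_loc {g : Equiv.Perm P2} (hg : g ∈ Gc) {W : P2 → P2 → ℝ} (hW : IsFr g W) {v : P2}
    {F : XX} (h : IsG g W v F) (θ : ℝ) :
    ∃ ε : ℝ, 0 < ε ∧ ∀ t : ℝ, 0 < t → t ≤ ε → ∀ F' : XX, IsG g W (v + t • dir θ) F' →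
      F'.ev θ = F.ev θ ∧
      (∀ (p q : P2) (e : ℝ), 0 < e → LinA F (Set.Icc θ (θ + e)) p q →
        LinA F' (Set.Icc θ (θ + Real.pi)) p q) ∧
      (∀ (p q : P2) (e : ℝ), 0 < e → LinA F (Set.Icc (θ - e) θ) p q →
        LinA F' (Set.Icc (θ - Real.pi) θ) p q) := by
  obtain ⟨ε₀, hε₀, h⟩ := h
  refine ⟨ε₀ / 2, half_pos hε₀, fun t ht htε F' h' => ?_⟩
  obtain ⟨ε', hε', h'⟩ := h'
  have hgv' : g (v + t • dir θ) = g v + t • vec F θ := (h θ t ht (by linarith)).1
  refine ⟨?_, ?_, ?_⟩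
  · -- the values at `θ`
    obtain ⟨s, hs, hs1, hs2⟩ : ∃ s : ℝ, 0 < s ∧ s ≤ ε' ∧ s ≤ ε₀ / 2 :=
      ⟨min ε' (ε₀ / 2), lt_min hε' (half_pos hε₀), min_le_left _ _, min_le_right _ _⟩
    have hz : v + t • dir θ + s • dir θ = v + (t + s) • dir θ := by
      rw [add_smul, add_assoc]
    obtain ⟨a1, a2⟩ := h θ (t + s) (by linarith) (by linarith)
    obtain ⟨b1, b2⟩ := h' θ s hs hs1
    rw [hz] at b1 b2
    have hvec : vec F' θ = vec F θ := by
      have h1 : s • vec F' θ = s • vec F θ := by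
        rw [a1, hgv'] at b1
        have h2 : s • vec F' θ = (g v + (t + s) • vec F θ) - (g v + t • vec F θ) := by
          rw [b1]
          abel
        rw [h2]
        module
      exact smul_right_injective _ hs.ne' h1
    have hne : ∀ τ ∈ Set.Icc 0 t, v + τ • dir θ ≠ v + (t + s) • dir θ := by
      intro τ hτ h0
      have h1 : τ • dir θ = (t + s) • dir θ := add_left_cancel h0
      have h2 : (t + s - τ) • dir θ = 0 := by
        rw [sub_smul, ← h1, sub_self]
      rcases smul_eq_zero.1 h2 with h3 | h3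
      · have := hτ.2
        linarith
      · exact dir_ne θ h3
    have hval : ∀ τ ∈ Set.Icc 0 t, g (v + τ • dir θ) = g v + τ • vec F θ := by
      intro τ hτ
      rcases hτ.1.eq_or_lt with h0 | h0
      · rw [← h0, zero_smul, zero_smul, add_zero, add_zero]
      · exact (h θ τ h0 (by linarith [hτ.2])).1
    have hint : ∀ τ ∈ Set.Icc 0 t, ∃ k : ℤ,
        W (v + τ • dir θ) (v + (t + s) • dir θ) - (F.f θ - θ) = k * (2 * Real.pi) := by
      intro τ hτ
      obtain ⟨r, hr, hr'⟩ := hW.dirn _ _ (hne τ hτ)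
      have hpos : 0 < t + s - τ := by linarith [hτ.2]
      have h1 : v + (t + s) • dir θ - (v + τ • dir θ) = (t + s - τ) • dir θ := by
        rw [sub_smul]
        abel
      rw [h1, rt_dir, smul_smul, a1, hval τ hτ] at hr'
      have h2 : g v + (t + s) • vec F θ - (g v + τ • vec F θ) =
          ((t + s - τ) * F.r θ) • dir (F.f θ) := by
        rw [mul_smul]
        change _ = (t + s - τ) • vec F θ
        rw [sub_smul]
        abel
      rw [h2] at hr'
      obtain ⟨_, k, hk⟩ := smul_dir_inj (mul_pos hpos (F.pos θ)) (mul_pos hr hpos) hr'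
      refine ⟨-k, ?_⟩
      push_cast
      linarith
    have hcont : ContinuousOn
        (fun τ : ℝ => W (v + τ • dir θ) (v + (t + s) • dir θ) - (F.f θ - θ)) (Set.Icc 0 t) := by
      refine ContinuousOn.sub ?_ continuousOn_const
      refine hW.cont.comp (f := fun τ : ℝ => (v + τ • dir θ, v + (t + s) • dir θ)) ?_ hne
      fun_prop
    have hc := const_of_int isPreconnected_Icc _ hcont hint 0 ⟨le_rfl, ht.le⟩ t ⟨ht.le, le_rfl⟩
    simp only [zero_smul, add_zero] at hc
    refine vec_inj ?_ hvec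
    linarith
  · intro p q e he hL φ hφ
    obtain ⟨s, hs, hs1, hs2, hs3, hs4⟩ : ∃ s : ℝ, 0 < s ∧ s ≤ ε' ∧ s ≤ ε₀ / 2 ∧ s ≤ t / 2 ∧
        s ≤ e * t / 4 :=
      ⟨min (min ε' (ε₀ / 2)) (min (t / 2) (e * t / 4)), by positivity,
        (min_le_left _ _).trans (min_le_left _ _), (min_le_left _ _).trans (min_le_right _ _),
        (min_le_right _ _).trans (min_le_left _ _), (min_le_right _ _).trans (min_le_right _ _)⟩
    obtain ⟨ρ, ψ, hρ, hρ', hψ, hψ1, hψ2, hu⟩ := polar_near (θ := θ) (β := φ - θ) ht hs hs3 hs4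
    rw [add_sub_cancel] at hu
    have hψ3 := hψ1 (Real.sin_nonneg_of_nonneg_of_le_pi (by linarith [hφ.1]) (by linarith [hφ.2]))
    have hψ4 := (abs_le.1 hψ).2
    refine loc_lin (g := g) (v := v) (gv := g v) (t := t) (θ := θ) (ρ := ρ) (ψ := ψ) hs ?_ ?_
      (h' φ s hs hs1).1 hu
    · rw [(h ψ ρ hρ (by linarith)).1, hL ψ ⟨hψ3, by linarith⟩]
    · rw [hgv', hL θ ⟨le_rfl, by linarith⟩]
  · intro p q e he hL φ hφ
    obtain ⟨s, hs, hs1, hs2, hs3, hs4⟩ : ∃ s : ℝ, 0 < s ∧ s ≤ ε' ∧ s ≤ ε₀ / 2 ∧ s ≤ t / 2 ∧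
        s ≤ e * t / 4 :=
      ⟨min (min ε' (ε₀ / 2)) (min (t / 2) (e * t / 4)), by positivity,
        (min_le_left _ _).trans (min_le_left _ _), (min_le_left _ _).trans (min_le_right _ _),
        (min_le_right _ _).trans (min_le_left _ _), (min_le_right _ _).trans (min_le_right _ _)⟩
    obtain ⟨ρ, ψ, hρ, hρ', hψ, hψ1, hψ2, hu⟩ := polar_near (θ := θ) (β := φ - θ) ht hs hs3 hs4
    rw [add_sub_cancel] at hu
    have hψ3 := hψ2 (Real.sin_nonpos_of_nonpos_of_neg_pi_le (by linarith [hφ.2])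
      (by linarith [hφ.1]))
    have hψ4 := (abs_le.1 hψ).1
    refine loc_lin (g := g) (v := v) (gv := g v) (t := t) (θ := θ) (ρ := ρ) (ψ := ψ) hs ?_ ?_
      (h' φ s hs hs1).1 hu
    · rw [(h ψ ρ hρ (by linarith)).1, hL ψ ⟨by linarith, hψ3⟩]
    · rw [hgv', hL θ ⟨by linarith, le_rfl⟩]

end C715
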