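import Pool.Agent.Work.MP_c71557_gt.G.Rt

set_option autoImplicit false
set_option linter.unusedVariables false

/-!
# MP_c71557_gt, module G/Mulg: product of framed germs (S-M)

Let `ε, ε'` be the radii of `h1, h2`.  Since `g` is continuous at `v` there is `δ > 0` with
`‖g x - g v‖ ≤ ε' / 2` for `‖x - v‖ ≤ δ`.  Let `0 < t ≤ min ε δ`.  `g (v + t • dir θ) = g v + (t * F.r θ) • dir (F.f θ)`,
`0 < t * F.r θ`, and `t * F.r θ * (1/2) ≤ ‖g (v + t • dir θ) - g v‖ ≤ ε' / 2` (`dir_norm_ge`, `‖t • dir θ‖ ≤ t ≤ δ`), so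
`t * F.r θ ≤ ε'` and `h2` applies with the angle `F.f θ` and the radius `t * F.r θ`:
`h (g (v + t • dir θ)) = h (g v) + (t * F.r θ) • vec F' (F.f θ) = h (g v) + t • vec (F' * F) θ` (`XX.mul_r`, `XX.mul_f`),
`F'.f (F.f θ) = F.f θ + W' (g v) (g (v + t • dir θ)) = θ + W v (v + t • dir θ) + W' …`.
-/

namespace C715

open Ang

theorem isg_mul {g h : Equiv.Perm P2} (hg : g ∈ Gc) (hh : h ∈ Gc) {W W' : P2 → P2 → ℝ} {v : P2}
    {F F' : XX} (h1 : IsG g W v F) (h2 : IsG h W' (g v) F') :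
    IsG (h * g : Equiv.Perm P2) (fun c z => W' (g c) (g z) + W c z) v (F' * F) := by
  obtain ⟨ε, hε, h1⟩ := h1
  obtain ⟨ε', hε', h2⟩ := h2
  obtain ⟨δ, hδ, hc⟩ := Metric.continuousAt_iff.1 (Gc_cont hg).continuousAt (ε' / 2)
    (half_pos hε')
  refine ⟨min ε (δ / 2), lt_min hε (half_pos hδ), fun θ t ht0 ht => ?_⟩
  have m1 := min_le_left ε (δ / 2)
  have m2 := min_le_right ε (δ / 2)
  obtain ⟨e1, e2⟩ := h1 θ t ht0 (by linarith)
  have hr := F.pos θ
  have e3 : t • vec F θ = (t * F.r θ) • dir (F.f θ) := by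
    unfold vec
    rw [smul_smul]
  have e4 : dist (v + t • dir θ) v < δ := by
    rw [dist_eq_norm, add_sub_cancel_left, norm_smul, Real.norm_of_nonneg ht0.le]
    have h3 := dir_norm_le θ
    have h4 : t * ‖dir θ‖ ≤ t * 1 := mul_le_mul_of_nonneg_left h3 ht0.le
    linarith
  have e5 := hc e4
  rw [e1, dist_eq_norm, add_sub_cancel_left, e3, norm_smul,
    Real.norm_of_nonneg (mul_pos ht0 hr).le] at e5
  have e6 : t * F.r θ ≤ ε' := by
    have h3 := dir_norm_ge (F.f θ)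
    have h4 : t * F.r θ * (1 / 2) ≤ t * F.r θ * ‖dir (F.f θ)‖ :=
      mul_le_mul_of_nonneg_left h3 (mul_pos ht0 hr).le
    linarith
  obtain ⟨e7, e8⟩ := h2 (F.f θ) (t * F.r θ) (mul_pos ht0 hr) e6
  have e9 : g (v + t • dir θ) = g v + (t * F.r θ) • dir (F.f θ) := by rw [e1, e3]
  constructor
  · change h (g (v + t • dir θ)) = h (g v) + t • vec (F' * F) θ
    rw [e9, e7]
    congr 1
    unfold vec
    rw [smul_smul, smul_smul, XX.mul_r, XX.mul_f]
    congr 1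
    ring
  · change F'.f (F.f θ) = θ + (W' (g v) (g (v + t • dir θ)) + W v (v + t • dir θ))
    rw [e8, e9]
    linarith

end C715
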