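import Pool.Agent.Work.MP_c71557_gt.G.Fr
import Pool.Agent.Work.MP_c71557_gt.G.FrU
import Pool.Agent.Work.MP_c71557_gt.G.Exg
import Pool.Agent.Work.MP_c71557_gt.G.Mulg
import Pool.Agent.Work.MP_c71557_gt.G.Locg
import Pool.Agent.Work.MP_c71557_gt.G.Cong

set_option autoImplicit false
set_option linter.unusedVariables false

/-!
# MP_c71557_gt, module G/Base: the framed germ map satisfies `IsGerm0` (S-M)

Choose a framing `W g` of every `g ∈ Gc` (`exists_fr`) and the framed germ `gm g v ∈ Ft`, `IsG g (W g) v (gm g v)`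
(`exists_isg`).
* `mul`: `isg_mul` gives `IsG (h g) (W h (g ·) (g ·) + W g) v (gm h (g v) * gm g v)`; by `IsFr.mul` and `IsFr.unique` this
  framing agrees with `W (h g)` on pairs of distinct points (`v ≠ v + t • dir θ` for `t > 0`), so it is also an
  `IsG (h g) (W (h g)) v _`; `IsG.unique`.
* `exp`: from `IsG` (`t = 0` trivial).  `loc`, `conn`, `far`: `isg_loc`, `isg_conn`, `isg_far`.
-/

namespace C715

open Ang

private theorem isg_congr {g : P2 → P2} {W W' : P2 → P2 → ℝ} {v : P2} {F : XX}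
    (h : IsG g W v F) (hW : ∀ c z : P2, c ≠ z → W c z = W' c z) : IsG g W' v F := by
  obtain ⟨ε, hε, h⟩ := h
  refine ⟨ε, hε, fun θ t h0 h1 => ?_⟩
  obtain ⟨h2, h3⟩ := h θ t h0 h1
  refine ⟨h2, ?_⟩
  rw [h3, hW]
  intro hc
  have h4 : t • dir θ = 0 := by
    have h5 : v + t • dir θ = v + 0 := by rw [add_zero]; exact hc.symm
    exact add_left_cancel h5
  rcases smul_eq_zero.1 h4 with h5 | h5
  · exact h0.ne' h5
  · exact dir_ne θ h5

theorem exists_germ0 : ∃ gm : ↥Gc → P2 → ↥Ft, IsGerm0 gm := by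
  have hW : ∀ g : ↥Gc, ∃ W : P2 → P2 → ℝ, IsFr g.1 W := fun g => exists_fr g.1 g.2
  choose W hW using hW
  have hF : ∀ (g : ↥Gc) (v : P2), ∃ F : ↥Ft, IsG g.1 (W g) v F.1 := fun g v => by
    obtain ⟨F, hF, h⟩ := exists_isg g.2 (hW g) v
    exact ⟨⟨F, hF⟩, h⟩
  choose gm hgm using hF
  refine ⟨gm, ⟨fun h g v => ?_, fun g v => ?_, fun g v θ => ?_, fun g C hC hg v hv w hw => ?_,
    fun g => ?_⟩⟩
  · have h1 := isg_mul g.2 h.2 (hgm g v) (hgm h (g.1 v))
    have h2 := IsFr.unique (IsFr.mul g.2 h.2 (hW g) (hW h)) (hW (h * g))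
    have h3 : IsG (h * g : ↥Gc).1 (W (h * g)) v ((gm h (g.1 v)).1 * (gm g v).1) := isg_congr h1 h2
    exact Subtype.ext ((hgm (h * g) v).unique h3)
  · obtain ⟨ε, hε, h⟩ := hgm g v
    refine ⟨ε, hε, fun θ t h0 h1 => ?_⟩
    rcases h0.eq_or_lt with rfl | h0
    · simp
    · exact (h θ t h0 h1).1
  · obtain ⟨ε, hε, h⟩ := isg_loc g.2 (hW g) (hgm g v) θ
    exact ⟨ε, hε, fun t h0 h1 => h t h0 h1 _ (hgm g _)⟩
  · exact Subtype.ext (isg_conn g.2 (hW g) C hC hg hv hw (hgm g v) (hgm g w))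
  · obtain ⟨R, hR⟩ := isg_far g.2 (hW g)
    exact ⟨R, fun w hw => Subtype.ext (hR w hw _ (hgm g w))⟩

end C715
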