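import Pool.Agent.Work.MP_c71557_gt.A.Lin
import Pool.Agent.Work.MP_c71557_gt.A.LinU
import Pool.Agent.Work.MP_c71557_gt.A.Ext

set_option autoImplicit false
set_option linter.unusedVariables false

/-!
# MP_c71557_gt, module G/LinG: one-sided linear germs of elements of `XX` (M)

* `exists_linR`: `F.pl θ` gives `e > 0` (take `e < π`) with `F` linear on `[θ, θ+e]`;
  `F.f (θ+e) < F.f θ + π` after shrinking `e` (continuity), and `exists_lin` (`A/Lin`) gives a linear
  `L` with `L.ev θ = F.ev θ`, `L.ev (θ+e) = F.ev (θ+e)`; `ev_eq_of_lin` (`A/LinU`) gives equality on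
  `[θ, θ+e]`.
* `lin_unique`: two linear elements which agree on a nondegenerate interval are equal: the vectors
  `p, q` are determined by two values, so `V L = V L'` everywhere, and the lifts agree at one angle,
  hence everywhere (continuity, `LinU`), and `r = ‖V‖`.
* `lin_pi`: a linear element satisfies `L.ev (s + π) = (L.f s + π, L.r s)`: `V (s+π) = -V s`, so
  `L.f (s+π) - L.f s ∈ π + 2πℤ`, constant in `s` by continuity; it is `π`: for `L` replaced by
  ... use `LinOn.cross`: `sin (f t - f s)` has the sign of `sin (t - s)` (`LinOn.det_pos`), so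
  `f t - f s ∈ (0, π)` for `t - s ∈ (0, π)` small, and by continuity `f t - f s` cannot reach `π`
  before `t - s = π`; at `t = s + π` it is in `(0, π] ∩ (π + 2πℤ) = {π}`.
* the multiplication rules follow from uniqueness.
-/

namespace C715
namespace Ang

open XX

private theorem lg_norm (F : XX) (s : ℝ) : ‖V F.f F.r s‖ = F.r s := by
  unfold V
  rw [norm_smul, Complex.norm_exp_ofReal_mul_I, mul_one, Real.norm_of_nonneg (F.pos s).le]

/-- equal vectors -/
private theorem lg_eq {r r' x y : ℝ} (hr : 0 < r) (hr' : 0 < r')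
    (h : r • Complex.exp (x * Complex.I) = r' • Complex.exp (y * Complex.I)) :
    r = r' ∧ ∃ n : ℤ, x = y + n * (2 * Real.pi) := by
  have h1 : r = r' := by
    have h2 := congrArg norm h
    rw [norm_smul, norm_smul, Complex.norm_exp_ofReal_mul_I, Complex.norm_exp_ofReal_mul_I,
      mul_one, mul_one, Real.norm_of_nonneg hr.le, Real.norm_of_nonneg hr'.le] at h2
    exact h2
  refine ⟨h1, ?_⟩
  rw [h1] at h
  have h2 : Complex.exp (x * Complex.I) = Complex.exp (y * Complex.I) :=
    smul_right_injective ℂ hr'.ne' h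
  obtain ⟨n, hn⟩ := Complex.exp_eq_exp_iff_exists_int.1 h2
  refine ⟨n, ?_⟩
  have h4 : (x : ℂ) = y + n * (2 * Real.pi) := by
    have h5 : (x : ℂ) * Complex.I = (y + n * (2 * Real.pi)) * Complex.I := by
      rw [hn]
      ring
    exact mul_right_cancel₀ Complex.I_ne_zero h5
  exact_mod_cast h4

/-- a continuous function with values in `2πℤ` is constant -/
private theorem lg_const (φ : ℝ → ℝ) (hφ : Continuous φ)
    (h : ∀ s, ∃ n : ℤ, φ s = n * (2 * Real.pi)) (a s : ℝ) : φ s = φ a := by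
  choose n hn using h
  have hpi := Real.pi_pos
  have h1 : Continuous fun s => (n s : ℝ) := by
    have h2 : (fun s => (n s : ℝ)) = fun s => φ s / (2 * Real.pi) := by
      funext s
      rw [hn s, mul_div_cancel_right₀ _ (by positivity)]
    rw [h2]
    exact hφ.div_const _
  have h3 : Continuous n := Int.isClosedEmbedding_coe_real.isEmbedding.continuous_iff.2 h1
  have h4 : n s = n a := PreconnectedSpace.constant inferInstance h3
  rw [hn s, hn a, h4]

theorem exists_linR (F : XX) (θ : ℝ) : ∃ L : XX, IsLin L ∧ ∃ e : ℝ, 0 < e ∧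
    ∀ s, θ ≤ s → s ≤ θ + e → L.ev s = F.ev s := by
  obtain ⟨e, he, h1, -⟩ := F.pl θ
  have hpi := Real.pi_gt_three
  set x := F.f.symm (F.f θ + Real.pi) with hx
  have hx1 : θ < x := by
    rw [hx, F.f.lt_symm_apply]
    linarith
  set e' := min (min e 1) ((x - θ) / 2) with he'
  have a1 : e' ≤ e := (min_le_left _ _).trans (min_le_left _ _)
  have a2 : e' ≤ 1 := (min_le_left _ _).trans (min_le_right _ _)
  have a3 : e' ≤ (x - θ) / 2 := min_le_right _ _
  have a4 : 0 < e' := lt_min (lt_min he one_pos) (by linarith)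
  have h2 : F.f (θ + e') < F.f θ + Real.pi := by
    rw [← F.f.lt_symm_apply]
    change θ + e' < x
    linarith
  obtain ⟨L, hL, h3, h4⟩ := exists_lin (a := θ) (b := θ + e') (c := F.f θ) (d := F.f (θ + e'))
    (ρ := F.r θ) (σ := F.r (θ + e')) (by linarith) (by linarith)
    (F.f.strictMono (by linarith)) h2 (F.pos _) (F.pos _)
  refine ⟨L, hL, e', a4, ?_⟩
  exact ev_eq_of_lin (by linarith) (by linarith) (hL.mono (Set.subset_univ _))
    (h1.mono (Set.Icc_subset_Icc le_rfl (by linarith))) h3 h4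

theorem exists_linL (F : XX) (θ : ℝ) : ∃ L : XX, IsLin L ∧ ∃ e : ℝ, 0 < e ∧
    ∀ s, θ - e ≤ s → s ≤ θ → L.ev s = F.ev s := by
  obtain ⟨e, he, -, h1⟩ := F.pl θ
  have hpi := Real.pi_gt_three
  set x := F.f.symm (F.f θ - Real.pi) with hx
  have hx1 : x < θ := by
    rw [hx, F.f.symm_apply_lt]
    linarith
  set e' := min (min e 1) ((θ - x) / 2) with he'
  have a1 : e' ≤ e := (min_le_left _ _).trans (min_le_left _ _)
  have a2 : e' ≤ 1 := (min_le_left _ _).trans (min_le_right _ _)
  have a3 : e' ≤ (θ - x) / 2 := min_le_right _ _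
  have a4 : 0 < e' := lt_min (lt_min he one_pos) (by linarith)
  have h2 : F.f θ < F.f (θ - e') + Real.pi := by
    have h3 : F.f θ - Real.pi < F.f (θ - e') := by
      rw [← F.f.symm_apply_lt]
      change x < θ - e'
      linarith
    linarith
  obtain ⟨L, hL, h3, h4⟩ := exists_lin (a := θ - e') (b := θ) (c := F.f (θ - e')) (d := F.f θ)
    (ρ := F.r (θ - e')) (σ := F.r θ) (by linarith) (by linarith)
    (F.f.strictMono (by linarith)) h2 (F.pos _) (F.pos _)
  refine ⟨L, hL, e', a4, ?_⟩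
  exact ev_eq_of_lin (by linarith) (by linarith) (hL.mono (Set.subset_univ _))
    (h1.mono (Set.Icc_subset_Icc (by linarith) le_rfl)) h3 h4

theorem lin_unique {L L' : XX} (hL : IsLin L) (hL' : IsLin L') {a b : ℝ} (hab : a < b)
    (h : ∀ s, a ≤ s → s ≤ b → L.ev s = L'.ev s) : L = L' := by
  obtain ⟨p, q, hF⟩ := hL
  obtain ⟨p', q', hG⟩ := hL'
  have hpi := Real.pi_gt_three
  set c := min b (a + 1) with hc
  have hc1 : a < c := lt_min hab (by linarith)
  have hc2 : c ≤ b := min_le_left _ _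
  have hc3 : c ≤ a + 1 := min_le_right _ _
  have hV : ∀ s, a ≤ s → s ≤ b → V L.f L.r s = V L'.f L'.r s := by
    intro s h1 h2
    obtain ⟨h3, h4⟩ := ev_eq_iff.1 (h s h1 h2)
    unfold V
    rw [h3, h4]
  have hVa := hV a le_rfl hab.le
  have hVb := hV c hc1.le hc2
  rw [hF a trivial, hG a trivial] at hVa
  rw [hF c trivial, hG c trivial] at hVb
  have hs : Real.sin (c - a) ≠ 0 :=
    (Real.sin_pos_of_pos_of_lt_pi (sub_pos.2 hc1) (by linarith)).ne'
  have hp : p = p' := by
    have e : Real.sin (c - a) • (p - p') = 0 := by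
      have : Real.sin (c - a) • (p - p') =
          Real.sin c • ((Real.cos a • p + Real.sin a • q) - (Real.cos a • p' + Real.sin a • q')) -
          Real.sin a • ((Real.cos c • p + Real.sin c • q) -
            (Real.cos c • p' + Real.sin c • q')) := by
        rw [Real.sin_sub]
        module
      rw [this, hVa, hVb, sub_self, sub_self, smul_zero, smul_zero, sub_zero]
    exact sub_eq_zero.1 ((smul_eq_zero.1 e).resolve_left hs)
  have hq : q = q' := by
    have e : Real.sin (c - a) • (q - q') = 0 := by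
      have : Real.sin (c - a) • (q - q') =
          Real.cos a • ((Real.cos c • p + Real.sin c • q) - (Real.cos c • p' + Real.sin c • q')) -
          Real.cos c • ((Real.cos a • p + Real.sin a • q) -
            (Real.cos a • p' + Real.sin a • q')) := by
        rw [Real.sin_sub]
        module
      rw [this, hVa, hVb, sub_self, sub_self, smul_zero, smul_zero, sub_zero]
    exact sub_eq_zero.1 ((smul_eq_zero.1 e).resolve_left hs)
  have key : ∀ s, L.r s = L'.r s ∧ ∃ n : ℤ, L.f s = L'.f s + n * (2 * Real.pi) := by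
    intro s
    have h1 : V L.f L.r s = V L'.f L'.r s := by
      rw [hF s trivial, hG s trivial, hp, hq]
    exact lg_eq (L.pos s) (L'.pos s) h1
  refine ext_ev fun s => ev_eq_iff.2 ⟨?_, (key s).1⟩
  have h2 := lg_const (fun s => L.f s - L'.f s) (L.continuous_f.sub L'.continuous_f)
    (fun s => by
      obtain ⟨-, n, hn⟩ := key s
      exact ⟨n, by rw [hn]; ring⟩) a s
  have h3 := (ev_eq_iff.1 (h a le_rfl hab.le)).1
  simp only [h3, sub_self] at h2
  linarith

/-- right linear germ -/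
noncomputable def linR (F : XX) (θ : ℝ) : XX := (exists_linR F θ).choose

/-- left linear germ -/
noncomputable def linL (F : XX) (θ : ℝ) : XX := (exists_linL F θ).choose

theorem linR_isLin (F : XX) (θ : ℝ) : IsLin (linR F θ) := (exists_linR F θ).choose_spec.1

theorem linL_isLin (F : XX) (θ : ℝ) : IsLin (linL F θ) := (exists_linL F θ).choose_spec.1

theorem linR_ev (F : XX) (θ : ℝ) : ∃ e : ℝ, 0 < e ∧
    ∀ s, θ ≤ s → s ≤ θ + e → (linR F θ).ev s = F.ev s := (exists_linR F θ).choose_spec.2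

theorem linL_ev (F : XX) (θ : ℝ) : ∃ e : ℝ, 0 < e ∧
    ∀ s, θ - e ≤ s → s ≤ θ → (linL F θ).ev s = F.ev s := (exists_linL F θ).choose_spec.2

theorem linR_at (F : XX) (θ : ℝ) : (linR F θ).ev θ = F.ev θ := by
  obtain ⟨e, he, h⟩ := linR_ev F θ
  exact h θ le_rfl (by linarith)

theorem linL_at (F : XX) (θ : ℝ) : (linL F θ).ev θ = F.ev θ := by
  obtain ⟨e, he, h⟩ := linL_ev F θ
  exact h θ (by linarith) le_rfl

theorem isLin_one : IsLin 1 := by
  rw [← XX.rot_zero]
  exact isLin_rot 0

theorem linR_eq {F L : XX} (hL : IsLin L) {θ e : ℝ} (he : 0 < e)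
    (h : ∀ s, θ ≤ s → s ≤ θ + e → L.ev s = F.ev s) : linR F θ = L := by
  obtain ⟨d, hd, h1⟩ := linR_ev F θ
  have m1 := min_le_left d e
  have m2 := min_le_right d e
  have m3 : 0 < min d e := lt_min hd he
  refine lin_unique (linR_isLin F θ) hL (a := θ) (b := θ + min d e) (by linarith)
    fun s h2 h3 => ?_
  rw [h1 s h2 (by linarith), h s h2 (by linarith)]

theorem linL_eq {F L : XX} (hL : IsLin L) {θ e : ℝ} (he : 0 < e)
    (h : ∀ s, θ - e ≤ s → s ≤ θ → L.ev s = F.ev s) : linL F θ = L := by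
  obtain ⟨d, hd, h1⟩ := linL_ev F θ
  have m1 := min_le_left d e
  have m2 := min_le_right d e
  have m3 : 0 < min d e := lt_min hd he
  refine lin_unique (linL_isLin F θ) hL (a := θ - min d e) (b := θ) (by linarith)
    fun s h2 h3 => ?_
  rw [h1 s (by linarith) h3, h s (by linarith) h3]

theorem linR_mul (F G : XX) (θ : ℝ) : linR (F * G) θ = linR F (G.f θ) * linR G θ := by
  obtain ⟨e, he, h1⟩ := linR_ev F (G.f θ)
  obtain ⟨d, hd, h2⟩ := linR_ev G θ
  set x := G.f.symm (G.f θ + e) with hx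
  have hx1 : θ < x := by
    rw [hx, G.f.lt_symm_apply]
    linarith
  have m1 := min_le_left d (x - θ)
  have m2 := min_le_right d (x - θ)
  have m3 : 0 < min d (x - θ) := lt_min hd (by linarith)
  refine linR_eq ((linR_isLin F _).mul (linR_isLin G _)) m3 fun s h3 h4 => ?_
  have h5 := h2 s h3 (by linarith)
  refine mul_ev_congr h5 (h1 _ ?_ ?_)
  · rw [(ev_eq_iff.1 h5).1]
    exact G.f.monotone h3
  · rw [(ev_eq_iff.1 h5).1, ← G.f.le_symm_apply]
    change s ≤ x
    linarith

theorem linL_mul (F G : XX) (θ : ℝ) : linL (F * G) θ = linL F (G.f θ) * linL G θ := by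
  obtain ⟨e, he, h1⟩ := linL_ev F (G.f θ)
  obtain ⟨d, hd, h2⟩ := linL_ev G θ
  set x := G.f.symm (G.f θ - e) with hx
  have hx1 : x < θ := by
    rw [hx, G.f.symm_apply_lt]
    linarith
  have m1 := min_le_left d (θ - x)
  have m2 := min_le_right d (θ - x)
  have m3 : 0 < min d (θ - x) := lt_min hd (by linarith)
  refine linL_eq ((linL_isLin F _).mul (linL_isLin G _)) m3 fun s h3 h4 => ?_
  have h5 := h2 s (by linarith) h4
  refine mul_ev_congr h5 (h1 _ ?_ ?_)
  · rw [(ev_eq_iff.1 h5).1, ← G.f.symm_apply_le]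
    change x ≤ s
    linarith
  · rw [(ev_eq_iff.1 h5).1]
    exact G.f.monotone h4

theorem linR_one (θ : ℝ) : linR 1 θ = 1 := linR_eq isLin_one one_pos fun _ _ _ => rfl

theorem linL_one (θ : ℝ) : linL 1 θ = 1 := linL_eq isLin_one one_pos fun _ _ _ => rfl

theorem lin_pi {L : XX} (hL : IsLin L) (s : ℝ) :
    L.ev (s + Real.pi) = (L.f s + Real.pi, L.r s) := by
  obtain ⟨p, q, h⟩ := hL
  have hpi := Real.pi_pos
  have h1 : V L.f L.r (s + Real.pi) = V (fun t => L.f t + Real.pi) L.r s := by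
    have h2 : V (fun t => L.f t + Real.pi) L.r s = - V L.f L.r s := by
      unfold V
      have h3 : Complex.exp (((L.f s + Real.pi : ℝ) : ℂ) * Complex.I) =
          - Complex.exp ((L.f s : ℂ) * Complex.I) := by
        rw [Complex.ofReal_add, add_mul, Complex.exp_add, Complex.exp_pi_mul_I, mul_neg_one]
      rw [h3, smul_neg]
    rw [h2, h _ trivial, h _ trivial, Real.cos_add_pi, Real.sin_add_pi]
    module
  obtain ⟨hr, n, hn⟩ := lg_eq (L.pos (s + Real.pi)) (L.pos s) h1
  refine Prod.ext ?_ hr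
  change L.f (s + Real.pi) = L.f s + Real.pi
  have hd : 0 < p.re * q.im - p.im * q.re :=
    LinOn.det_pos L.pos (zero_lt_one : (0 : ℝ) < 1) (fun s _ => h s trivial)
  have hsin : ∀ t, s < t → t < s + Real.pi → 0 < Real.sin (L.f t - L.f s) := by
    intro t h3 h4
    have h5 := LinOn.cross h (s := s) (t := t) trivial trivial
    have h6 : 0 < Real.sin (t - s) :=
      Real.sin_pos_of_pos_of_lt_pi (by linarith) (by linarith)
    have h7 : 0 < L.r s * L.r t * Real.sin (L.f t - L.f s) := by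
      rw [h5]
      exact mul_pos hd h6
    exact (mul_pos_iff_of_pos_left (mul_pos (L.pos s) (L.pos t))).1 h7
  have hle : L.f (s + Real.pi) ≤ L.f s + Real.pi := by
    by_contra hc
    rw [not_le] at hc
    obtain ⟨t, ht⟩ := L.f.surjective (L.f s + Real.pi)
    have h3 : s < t := by
      rw [← L.f.lt_iff_lt, ht]
      linarith
    have h4 : t < s + Real.pi := by
      rw [← L.f.lt_iff_lt, ht]
      exact hc
    have h5 := hsin t h3 h4
    rw [ht, add_sub_cancel_left, Real.sin_pi] at h5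
    exact lt_irrefl _ h5
  have hgt : L.f s < L.f (s + Real.pi) := L.f.strictMono (by linarith)
  have hn' : L.f (s + Real.pi) = L.f s + Real.pi + n * (2 * Real.pi) := hn
  have hn0 : n = 0 := by
    have h3 : (n : ℝ) * (2 * Real.pi) ≤ 0 := by linarith
    have h4 : -Real.pi < (n : ℝ) * (2 * Real.pi) := by linarith
    have h5 : (n : ℝ) ≤ 0 := by
      by_contra hc
      rw [not_le] at hc
      have : 0 < (n : ℝ) * (2 * Real.pi) := by positivity
      linarith
    have h6 : (-1 : ℝ) < n := by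
      by_contra hc
      rw [not_lt] at hc
      have : (n : ℝ) * (2 * Real.pi) ≤ (-1) * (2 * Real.pi) :=
        mul_le_mul_of_nonneg_right hc (by positivity)
      linarith
    have h7 : n ≤ 0 := by exact_mod_cast h5
    have h8 : -1 < n := by exact_mod_cast h6
    omega
  rw [hn', hn0, Int.cast_zero, zero_mul, add_zero]

theorem lin_mem_Ft {L : XX} (hL : IsLin L) : L ∈ Ft := by
  rw [mem_Ft]
  intro s
  have h1 := lin_pi hL s
  have h2 := lin_pi hL (s + Real.pi)
  have h3 : L.f (s + Real.pi) = L.f s + Real.pi := congrArg Prod.fst h1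
  have h4 : L.r (s + Real.pi) = L.r s := congrArg Prod.snd h1
  have h5 : s + 2 * Real.pi = s + Real.pi + Real.pi := by ring
  rw [h5, h2, h3, h4]
  refine Prod.ext ?_ rfl
  change L.f s + Real.pi + Real.pi = L.f s + 2 * Real.pi
  ring

private theorem ft_zper {F : XX} (hF : F ∈ Ft) (s : ℝ) (k : ℤ) :
    F.ev (s + k * (2 * Real.pi)) = (F.f s + k * (2 * Real.pi), F.r s) := by
  have hF' := mem_Ft.1 hF
  induction k using Int.induction_on with
  | zero =>
    simp only [Int.cast_zero, zero_mul, add_zero]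
    rfl
  | succ i ih =>
    have h1 := hF' (s + ((i : ℤ) : ℝ) * (2 * Real.pi))
    have h2 : F.f (s + ((i : ℤ) : ℝ) * (2 * Real.pi)) = F.f s + ((i : ℤ) : ℝ) * (2 * Real.pi) :=
      congrArg Prod.fst ih
    have h3 : F.r (s + ((i : ℤ) : ℝ) * (2 * Real.pi)) = F.r s := congrArg Prod.snd ih
    have h4 : s + (((i : ℤ) + 1 : ℤ) : ℝ) * (2 * Real.pi) =
        s + ((i : ℤ) : ℝ) * (2 * Real.pi) + 2 * Real.pi := by
      push_cast
      ring
    rw [h4, h1, h2, h3]
    refine Prod.ext ?_ rfl
    change F.f s + ((i : ℤ) : ℝ) * (2 * Real.pi) + 2 * Real.pi =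
      F.f s + (((i : ℤ) + 1 : ℤ) : ℝ) * (2 * Real.pi)
    push_cast
    ring
  | pred i ih =>
    have h1 := hF' (s + ((-(i : ℤ) - 1 : ℤ) : ℝ) * (2 * Real.pi))
    have h4 : s + ((-(i : ℤ) - 1 : ℤ) : ℝ) * (2 * Real.pi) + 2 * Real.pi =
        s + ((-(i : ℤ) : ℤ) : ℝ) * (2 * Real.pi) := by
      push_cast
      ring
    rw [h4, ih] at h1
    have h2 : F.f s + ((-(i : ℤ) : ℤ) : ℝ) * (2 * Real.pi) =
        F.f (s + ((-(i : ℤ) - 1 : ℤ) : ℝ) * (2 * Real.pi)) + 2 * Real.pi := congrArg Prod.fst h1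
    have h3 : F.r s = F.r (s + ((-(i : ℤ) - 1 : ℤ) : ℝ) * (2 * Real.pi)) := congrArg Prod.snd h1
    refine Prod.ext ?_ h3.symm
    change F.f (s + ((-(i : ℤ) - 1 : ℤ) : ℝ) * (2 * Real.pi)) =
      F.f s + ((-(i : ℤ) - 1 : ℤ) : ℝ) * (2 * Real.pi)
    push_cast at h2 ⊢
    linarith

theorem linR_per {F : XX} (hF : F ∈ Ft) (θ : ℝ) (k : ℤ) :
    linR F (θ + k * (2 * Real.pi)) = linR F θ := by
  obtain ⟨e, he, h1⟩ := linR_ev F θ
  refine linR_eq (linR_isLin F θ) he fun s h2 h3 => ?_
  have h4 : s = (s - k * (2 * Real.pi)) + k * (2 * Real.pi) := by ring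
  have h5 := h1 (s - k * (2 * Real.pi)) (by linarith) (by linarith)
  rw [h4, ft_zper hF, ft_zper (lin_mem_Ft (linR_isLin F θ)), (ev_eq_iff.1 h5).1,
    (ev_eq_iff.1 h5).2]

theorem linL_per {F : XX} (hF : F ∈ Ft) (θ : ℝ) (k : ℤ) :
    linL F (θ + k * (2 * Real.pi)) = linL F θ := by
  obtain ⟨e, he, h1⟩ := linL_ev F θ
  refine linL_eq (linL_isLin F θ) he fun s h2 h3 => ?_
  have h4 : s = (s - k * (2 * Real.pi)) + k * (2 * Real.pi) := by ring
  have h5 := h1 (s - k * (2 * Real.pi)) (by linarith) (by linarith)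
  rw [h4, ft_zper hF, ft_zper (lin_mem_Ft (linL_isLin F θ)), (ev_eq_iff.1 h5).1,
    (ev_eq_iff.1 h5).2]

/-- both one-sided germs trivial iff `F` is the identity near `θ` -/
theorem lin_one_iff (F : XX) (θ : ℝ) : (linR F θ = 1 ∧ linL F θ = 1) ↔ F ∈ nb θ θ := by
  constructor
  · rintro ⟨h1, h2⟩
    obtain ⟨e, he, h3⟩ := linR_ev F θ
    obtain ⟨d, hd, h4⟩ := linL_ev F θ
    rw [h1] at h3
    rw [h2] at h4
    have m1 := min_le_left e d
    have m2 := min_le_right e d
    refine ⟨min e d, lt_min he hd, fun s h5 h6 => ?_⟩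
    rcases le_total θ s with h7 | h7
    · exact (h3 s h7 (by linarith)).symm
    · exact (h4 s (by linarith) h7).symm
  · rintro ⟨e, he, h⟩
    exact ⟨linR_eq isLin_one he fun s h1 h2 => (h s (by linarith) h2).symm,
      linL_eq isLin_one he fun s h1 h2 => (h s h1 (by linarith)).symm⟩

end Ang
end C715
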