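import Pool.Agent.Work.MP_c71557_gt.G.Germ
import Pool.Agent.Work.MP_c71557_gt.G.LinG
import Pool.Agent.Work.MP_c71557_gt.P.Th

set_option autoImplicit false
set_option linter.unusedVariables false

/-!
# MP_c71557_gt, block G: flags of the plane, the flag systems (definitions)

`F0` points, `F1` rays `(v, θ)`, `F2` rays with a side (`s = true`: the left side, increasing
angles).  `θ` is a real number; all functions considered are `2π`-periodic in `θ`.
-/

noncomputable section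

namespace C715

open Ang CategoryTheory

/-- points -/
@[ext] structure F0 where
  v : P2

/-- rays -/
@[ext] structure F1 where
  v : P2
  θ : ℝ

/-- rays with a side -/
@[ext] structure F2 where
  v : P2
  θ : ℝ
  s : Bool

/-- the left normal of `dir θ` -/
def dir' (θ : ℝ) : P2 := (-Real.sin θ, Real.cos θ)

/-- `true ↦ 1`, `false ↦ -1` -/
def sg (s : Bool) : ℝ := if s then 1 else -1

/-! ## actions of `Gc` -/

instance : MulAction ↥Gc F0 where
  smul g φ := ⟨g.1 φ.v⟩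
  one_smul φ := rfl
  mul_smul g h φ := rfl

instance : MulAction ↥Gc F1 where
  smul g φ := ⟨g.1 φ.v, (gm g φ.v).1.f φ.θ⟩
  one_smul φ := by
    refine F1.ext rfl ?_
    change (gm 1 φ.v).1.f φ.θ = φ.θ
    rw [gm_one]
    rfl
  mul_smul g h φ := by
    refine F1.ext rfl ?_
    change (gm (g * h) φ.v).1.f φ.θ = (gm g (h.1 φ.v)).1.f ((gm h φ.v).1.f φ.θ)
    rw [gm_mul]
    rfl

instance : MulAction ↥Gc F2 where
  smul g φ := ⟨g.1 φ.v, (gm g φ.v).1.f φ.θ, φ.s⟩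
  one_smul φ := by
    refine F2.ext rfl ?_ rfl
    change (gm 1 φ.v).1.f φ.θ = φ.θ
    rw [gm_one]
    rfl
  mul_smul g h φ := by
    refine F2.ext rfl ?_ rfl
    change (gm (g * h) φ.v).1.f φ.θ = (gm g (h.1 φ.v)).1.f ((gm h φ.v).1.f φ.θ)
    rw [gm_mul]
    rfl

/-! ## the groups of germs and their actions -/

/-- germs at a point -/
abbrev LP : Type := Multiplicative P2 × ↥Ft

/-- germs near a ray (translation part, right and left linear germ) -/
abbrev LQ : Type := Multiplicative P2 × XX × XX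

instance : MulAction LP F0 where
  smul g φ := ⟨φ.v + g.1.toAdd⟩
  one_smul φ := F0.ext (add_zero φ.v)
  mul_smul g h φ := F0.ext (by
    change φ.v + (g.1.toAdd + h.1.toAdd) = φ.v + h.1.toAdd + g.1.toAdd
    abel)

instance : MulAction LP F1 where
  smul g φ := ⟨φ.v + g.1.toAdd, g.2.1.f φ.θ⟩
  one_smul φ := F1.ext (add_zero φ.v) rfl
  mul_smul g h φ := F1.ext (by
    change φ.v + (g.1.toAdd + h.1.toAdd) = φ.v + h.1.toAdd + g.1.toAdd
    abel) rfl

instance : MulAction LP F2 where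
  smul g φ := ⟨φ.v + g.1.toAdd, g.2.1.f φ.θ, φ.s⟩
  one_smul φ := F2.ext (add_zero φ.v) rfl rfl
  mul_smul g h φ := F2.ext (by
    change φ.v + (g.1.toAdd + h.1.toAdd) = φ.v + h.1.toAdd + g.1.toAdd
    abel) rfl rfl

instance : MulAction LQ F1 where
  smul g φ := ⟨φ.v + g.1.toAdd, g.2.1.f φ.θ⟩
  one_smul φ := F1.ext (add_zero φ.v) rfl
  mul_smul g h φ := F1.ext (by
    change φ.v + (g.1.toAdd + h.1.toAdd) = φ.v + h.1.toAdd + g.1.toAdd
    abel) rfl

instance : MulAction LQ F2 where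
  smul g φ := ⟨φ.v + g.1.toAdd, g.2.1.f φ.θ, φ.s⟩
  one_smul φ := F2.ext (add_zero φ.v) rfl rfl
  mul_smul g h φ := F2.ext (by
    change φ.v + (g.1.toAdd + h.1.toAdd) = φ.v + h.1.toAdd + g.1.toAdd
    abel) rfl rfl

/-- the germ at a point -/
def gP (g : ↥Gc) (v : P2) : LP := (Multiplicative.ofAdd (g.1 v - v), gm g v)

/-- the germ near a ray -/
def gQ (g : ↥Gc) (v : P2) (θ : ℝ) : LQ :=
  (Multiplicative.ofAdd (g.1 v - v), linR (gm g v).1 θ, linL (gm g v).1 θ)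

theorem gP_mul (h g : ↥Gc) (v : P2) : gP (h * g) v = gP h (g.1 v) * gP g v := by
  refine Prod.ext ?_ (gm_mul h g v)
  change Multiplicative.ofAdd (h.1 (g.1 v) - v) =
    Multiplicative.ofAdd (h.1 (g.1 v) - g.1 v) * Multiplicative.ofAdd (g.1 v - v)
  rw [← ofAdd_add, sub_add_sub_cancel]

theorem gQ_mul (h g : ↥Gc) (v : P2) (θ : ℝ) :
    gQ (h * g) v θ = gQ h (g.1 v) ((gm g v).1.f θ) * gQ g v θ := by
  refine Prod.ext ?_ (Prod.ext ?_ ?_)
  · change Multiplicative.ofAdd (h.1 (g.1 v) - v) =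
      Multiplicative.ofAdd (h.1 (g.1 v) - g.1 v) * Multiplicative.ofAdd (g.1 v - v)
    rw [← ofAdd_add, sub_add_sub_cancel]
  · change linR (gm (h * g) v).1 θ = _
    rw [gm_mul]
    exact linR_mul _ _ _
  · change linL (gm (h * g) v).1 θ = _
    rw [gm_mul]
    exact linL_mul _ _ _

/-! ## lines and flags -/

/-- positive side of a line, for flags with a side -/
def Ln.pos2 (l : Ln) (φ : F2) : Prop :=
  0 < l.ev φ.v ∨ (l.ev φ.v = 0 ∧ (0 < l.lin (dir φ.θ) ∨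
    (l.lin (dir φ.θ) = 0 ∧ 0 < sg φ.s * l.lin (dir' φ.θ))))

/-- positive side of a line, for rays -/
def Ln.pos1 (l : Ln) (φ : F1) : Prop := 0 < l.ev φ.v ∨ (l.ev φ.v = 0 ∧ 0 < l.lin (dir φ.θ))

/-- rays on the line -/
def Ln.on1 (l : Ln) (φ : F1) : Prop := l.ev φ.v = 0 ∧ l.lin (dir φ.θ) = 0

/-- the closed convex set cut out by lines -/
def poly (S : Finset Ln) : Set P2 := {x | ∀ l ∈ S, 0 ≤ l.ev x}

open Classical in
/-- indicator function of the `2`-flags in `poly S` -/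
def pg2 (S : Finset Ln) (φ : F2) : ℚ := if ∀ l ∈ S, l.pos2 φ then 1 else 0

open Classical in
/-- oriented segment: rays on `l0` in `poly S`, with the sign of their direction -/
def pg1 (l0 : Ln) (S : Finset Ln) (φ : F1) : ℚ :=
  if l0.on1 φ ∧ ∀ l ∈ S, l.pos1 φ then (if 0 < l0.lin (dir' φ.θ) then 1 else -1) else 0

open Classical in
/-- indicator function of a point -/
def pg0 (v : P2) (φ : F0) : ℚ := if φ.v = v then 1 else 0

/-- constant `2`-chains -/
def M2 : Submodule ℚ (F2 → ℚ) :=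
  Submodule.span ℚ {m | ∃ S : Finset Ln, Bornology.IsBounded (poly S) ∧ m = pg2 S}

/-- constant `1`-chains -/
def M1 : Submodule ℚ (F1 → ℚ) :=
  Submodule.span ℚ {m | ∃ (l0 : Ln) (S : Finset Ln),
    Bornology.IsBounded {x | l0.ev x = 0 ∧ x ∈ poly S} ∧ m = pg1 l0 S}

/-- constant `0`-chains -/
def M0 : Submodule ℚ (F0 → ℚ) := Submodule.span ℚ (Set.range pg0)

open Classical in
/-- constant `2`-chains concentrated at points -/
def MT2 : Submodule ℚ (F2 → ℚ) :=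
  Submodule.span ℚ {m | ∃ (v : P2) (S : Finset Ln), m = fun φ => if φ.v = v then pg2 S φ else 0}

open Classical in
/-- constant `1`-chains concentrated at points -/
def MT1 : Submodule ℚ (F1 → ℚ) :=
  Submodule.span ℚ {m | ∃ (v : P2) (θ : ℝ),
    m = fun φ => if φ.v = v ∧ ∃ k : ℤ, φ.θ = θ + k * (2 * Real.pi) then 1 else 0}

/-! ## the flag systems -/

/-- point germs, `2`-flags -/
def SP2 (M : Submodule ℚ (F2 → ℚ)) (hM : ∀ (g : ↥Gc), ∀ m ∈ M, tl g m ∈ M) :
    FlagSys ↥Gc LP F2 where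
  γ g φ := gP g φ.v
  act g φ := F2.ext (by
    change φ.v + (g.1 φ.v - φ.v) = g.1 φ.v
    abel) rfl rfl
  mul h g φ := gP_mul h g φ.v
  M := M
  smul_mem := hM

/-- point germs, `1`-flags -/
def SP1 (M : Submodule ℚ (F1 → ℚ)) (hM : ∀ (g : ↥Gc), ∀ m ∈ M, tl g m ∈ M) :
    FlagSys ↥Gc LP F1 where
  γ g φ := gP g φ.v
  act g φ := F1.ext (by
    change φ.v + (g.1 φ.v - φ.v) = g.1 φ.v
    abel) rfl
  mul h g φ := gP_mul h g φ.v
  M := M
  smul_mem := hM

/-- point germs, `0`-flags -/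
def SP0 (M : Submodule ℚ (F0 → ℚ)) (hM : ∀ (g : ↥Gc), ∀ m ∈ M, tl g m ∈ M) :
    FlagSys ↥Gc LP F0 where
  γ g φ := gP g φ.v
  act g φ := F0.ext (by
    change φ.v + (g.1 φ.v - φ.v) = g.1 φ.v
    abel)
  mul h g φ := gP_mul h g φ.v
  M := M
  smul_mem := hM

/-- ray germs, `2`-flags -/
def SQ2 (M : Submodule ℚ (F2 → ℚ)) (hM : ∀ (g : ↥Gc), ∀ m ∈ M, tl g m ∈ M) :
    FlagSys ↥Gc LQ F2 where
  γ g φ := gQ g φ.v φ.θ
  act g φ := F2.ext (by
    change φ.v + (g.1 φ.v - φ.v) = g.1 φ.v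
    abel) (congrArg Prod.fst (linR_at (gm g φ.v).1 φ.θ)) rfl
  mul h g φ := gQ_mul h g φ.v φ.θ
  M := M
  smul_mem := hM

/-- ray germs, `1`-flags -/
def SQ1 (M : Submodule ℚ (F1 → ℚ)) (hM : ∀ (g : ↥Gc), ∀ m ∈ M, tl g m ∈ M) :
    FlagSys ↥Gc LQ F1 where
  γ g φ := gQ g φ.v φ.θ
  act g φ := F1.ext (by
    change φ.v + (g.1 φ.v - φ.v) = g.1 φ.v
    abel) (congrArg Prod.fst (linR_at (gm g φ.v).1 φ.θ))
  mul h g φ := gQ_mul h g φ.v φ.θ
  M := M
  smul_mem := hM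

end C715
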