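import Pool.Agent.Work.MP_c71557_gt.G.GDefs
import Mathlib.Analysis.Complex.CoveringMap

set_option autoImplicit false
set_option linter.unusedVariables false

/-!
# MP_c71557_gt, module G/Fr: existence of the framing (M)

Let `g x = x` for `R ≤ ‖x‖`, `R > 0`.  Put `G (t, x) = t • g (t⁻¹ • x)` for `0 < t ≤ 1` and `G (0, x) = x` (Alexander
isotopy).  `G` is continuous on `[0,1] × P2`: for `t > 0` clear; at `(0, x0)`: `‖G (t, x) - x‖ = t ‖g y - y‖ ≤ t B`,
`y = t⁻¹ x`, where `B` bounds `‖g y - y‖` (continuous, zero off the compact ball of radius `R`).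
For fixed `t` the map `G (t, ·)` is injective.  Let `A = {p : P2 × P2 // p.1 ≠ p.2}` and, with
`cx u = u.1 + u.2 * I`, `Φ (t, (c, z)) = (cx (G (t, z)) - cx (G (t, c))) / (cx z - cx c) ≠ 0`: a continuous map
`I × A → {z : ℂ // z ≠ 0}`, `Φ (0, a) = 1`.
`Complex.isCoveringMap_exp.liftHomotopy` (`Mathlib.Topology.Homotopy.Lifting`) with initial value the
constant `0` gives a continuous `L : I × A → ℂ` with `exp (L (t, a)) = Φ (t, a)`, `L (0, a) = 0`.
Put `W c z = (L (1, (c, z))).im` (and `0` if `c = z`).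
* `cont`: `continuousOn_iff_continuous_restrict` (in this Mathlib: `…_domRestrict`, see module D/Lift).
* `dirn`: `cx (g z) - cx (g c) = exp (re) * (cos W + i sin W) * (cx z - cx c)`, `r = exp (re)`.
* `far`: if `R ≤ ‖c‖, ‖z‖` then `G (t, c) = c`, `G (t, z) = z` for all `t ∈ [0,1]` (`‖t⁻¹ • z‖ ≥ ‖z‖ ≥ R`), so `Φ = 1`
  along the path and the lift is `0`: uniqueness (`eq_liftPath_iff`, `liftPath_const`), or: `t ↦ L (t, a)` is
  continuous with values in `2πiℤ`, hence constant.
-/

namespace C715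

/-- the Alexander isotopy -/
private noncomputable def AG (g : P2 → P2) (t : ℝ) (x : P2) : P2 := x + t • (g (t⁻¹ • x) - t⁻¹ • x)

private theorem AG_zero (g : P2 → P2) (x : P2) : AG g 0 x = x := by
  simp [AG]

private theorem AG_one (g : P2 → P2) (x : P2) : AG g 1 x = g x := by
  simp [AG]

private theorem AG_pos (g : P2 → P2) (t : ℝ) (ht : t ≠ 0) (x : P2) : AG g t x = t • g (t⁻¹ • x) := by
  unfold AG
  rw [smul_sub, smul_smul, mul_inv_cancel₀ ht, one_smul]
  abel

private theorem AG_inj (g : P2 → P2) (hg : Function.Injective g) (t : ℝ) (x y : P2)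
    (h : AG g t x = AG g t y) : x = y := by
  by_cases ht : t = 0
  · subst ht
    rwa [AG_zero, AG_zero] at h
  · rw [AG_pos g t ht, AG_pos g t ht] at h
    have h1 := hg (smul_right_injective P2 ht h)
    exact smul_right_injective P2 (inv_ne_zero ht) h1

private theorem AG_far (g : P2 → P2) (R : ℝ) (hR : ∀ x, R ≤ ‖x‖ → g x = x) (t : ℝ) (h0 : 0 ≤ t) (h1 : t ≤ 1)
    (x : P2) (hx : R ≤ ‖x‖) : AG g t x = x := by
  by_cases ht : t = 0
  · subst ht
    exact AG_zero g x
  · have hp : 0 < t := lt_of_le_of_ne h0 (Ne.symm ht)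
    have h2 : R ≤ ‖t⁻¹ • x‖ := by
      rw [norm_smul, norm_inv, Real.norm_of_nonneg h0]
      have h3 : 1 ≤ t⁻¹ := (one_le_inv₀ hp).mpr h1
      nlinarith [norm_nonneg x]
    unfold AG
    rw [hR _ h2, sub_self, smul_zero, add_zero]

private theorem AG_cont (g : P2 → P2) (hg : Continuous g) (R : ℝ) (hR : ∀ x, R ≤ ‖x‖ → g x = x) :
    Continuous (fun q : ℝ × P2 => AG g q.1 q.2) := by
  have hd : Continuous (fun x => g x - x) := hg.sub continuous_id
  obtain ⟨B, hB⟩ : ∃ B, ∀ x, ‖g x - x‖ ≤ B := by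
    refine hd.bounded_above_of_compact_support ?_
    refine HasCompactSupport.intro (isCompact_closedBall (0:P2) R) (fun x hx => ?_)
    rw [Metric.mem_closedBall, dist_zero_right, not_le] at hx
    rw [hR x hx.le, sub_self]
  rw [continuous_iff_continuousAt]
  rintro ⟨t, x⟩
  unfold AG
  refine continuous_snd.continuousAt.add ?_
  by_cases ht : t = 0
  · subst ht
    rw [ContinuousAt]
    simp only [zero_smul]
    refine squeeze_zero_norm (a := fun q : ℝ × P2 => |q.1| * B) (fun q => ?_) ?_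
    · rw [norm_smul, Real.norm_eq_abs]
      exact mul_le_mul_of_nonneg_left (hB _) (abs_nonneg _)
    · have h1 : Continuous (fun q : ℝ × P2 => |q.1| * B) := by fun_prop
      have h2 := h1.tendsto ((0:ℝ), x)
      simpa using h2
  · have h1 : ContinuousAt (fun q : ℝ × P2 => q.1⁻¹ • q.2) (t, x) :=
      (continuous_fst.continuousAt.inv₀ ht).smul continuous_snd.continuousAt
    exact continuous_fst.continuousAt.smul
      (ContinuousAt.comp (g := fun x => g x - x) hd.continuousAt h1)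

private def cx (u : P2) : ℂ := ⟨u.1, u.2⟩

private theorem cx_cont : Continuous cx := by
  have h : cx = fun u : P2 => ((u.1 : ℝ) : ℂ) + ((u.2 : ℝ) : ℂ) * Complex.I := by
    funext u
    apply Complex.ext <;> simp [cx]
  rw [h]
  fun_prop

private theorem cx_sub_ne {u v : P2} (h : u ≠ v) : cx v - cx u ≠ 0 := by
  intro h1
  apply h
  have h2 := sub_eq_zero.mp h1
  exact Prod.ext (congrArg Complex.re h2).symm (congrArg Complex.im h2).symm

private abbrev AA := {p : P2 × P2 // p.1 ≠ p.2}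

theorem exists_fr (g : Equiv.Perm P2) (hg : g ∈ Gc) : ∃ W : P2 → P2 → ℝ, IsFr g W := by
  classical
  obtain ⟨hgp, R, hR⟩ := id hg
  have hgc : Continuous g := Gc_cont hg
  have hAc := AG_cont g hgc R hR
  have hne : ∀ (t : ℝ) (a : AA), cx (AG g t a.1.2) - cx (AG g t a.1.1) ≠ 0 := fun t a =>
    cx_sub_ne (fun h => a.2 (AG_inj g g.injective t _ _ h))
  have hne' : ∀ a : AA, cx a.1.2 - cx a.1.1 ≠ 0 := fun a => cx_sub_ne a.2
  let Φ0 : unitInterval × AA → {z : ℂ // z ≠ 0} := fun q =>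
    ⟨(cx (AG g q.1 q.2.1.2) - cx (AG g q.1 q.2.1.1)) / (cx q.2.1.2 - cx q.2.1.1),
      div_ne_zero (hne _ _) (hne' _)⟩
  have hΦ0 : Continuous Φ0 := by
    refine Continuous.subtype_mk ?_ _
    have h1 : Continuous (fun q : unitInterval × AA => AG g q.1 q.2.1.2) :=
      hAc.comp (by fun_prop : Continuous (fun q : unitInterval × AA => ((q.1 : ℝ), q.2.1.2)))
    have h2 : Continuous (fun q : unitInterval × AA => AG g q.1 q.2.1.1) :=
      hAc.comp (by fun_prop : Continuous (fun q : unitInterval × AA => ((q.1 : ℝ), q.2.1.1)))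
    have h3 : Continuous (fun q : unitInterval × AA => cx q.2.1.2) := cx_cont.comp (by fun_prop)
    have h4 : Continuous (fun q : unitInterval × AA => cx q.2.1.1) := cx_cont.comp (by fun_prop)
    exact ((cx_cont.comp h1).sub (cx_cont.comp h2)).div (h3.sub h4) (fun q => hne' q.2)
  let Φ : C(unitInterval × AA, {z : ℂ // z ≠ 0}) := ⟨Φ0, hΦ0⟩
  let f : C(AA, ℂ) := ⟨fun _ => 0, continuous_const⟩
  have H0 : ∀ a : AA, Φ (0, a) = (⟨_, (f a).exp_ne_zero⟩ : {z : ℂ // z ≠ 0}) := by
    intro a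
    apply Subtype.ext
    show (cx (AG g ((0 : unitInterval) : ℝ) a.1.2) - cx (AG g ((0 : unitInterval) : ℝ) a.1.1)) /
      (cx a.1.2 - cx a.1.1) = Complex.exp 0
    rw [Set.Icc.coe_zero, AG_zero, AG_zero, Complex.exp_zero, div_self (hne' a)]
  let L : C(unitInterval × AA, ℂ) := Complex.isCoveringMap_exp.liftHomotopy Φ f H0
  have hL : ∀ q, Complex.exp (L q) = (Φ0 q).1 := by
    intro q
    exact congrArg Subtype.val (congrFun (Complex.isCoveringMap_exp.liftHomotopy_lifts Φ f H0) q)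
  refine ⟨fun c z => if h : c ≠ z then (L (1, ⟨(c, z), h⟩)).im else 0, ?_, ?_, ?_⟩
  · rw [continuousOn_iff_continuous_domRestrict]
    have h3 : Set.domRestrict {p : P2 × P2 | p.1 ≠ p.2}
        (fun p : P2 × P2 => if h : p.1 ≠ p.2 then (L (1, ⟨(p.1, p.2), h⟩)).im else 0) =
        fun a => (L (1, (⟨a.1, a.2⟩ : AA))).im := by
      funext a
      rw [Set.domRestrict_apply]
      exact dif_pos a.2
    rw [h3]
    exact Complex.continuous_im.comp (L.continuous.comp (by fun_prop))
  · intro c z hcz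
    have h1 := hL (1, ⟨(c, z), hcz⟩)
    have h2 : (Φ0 (1, ⟨(c, z), hcz⟩)).1 = (cx (g z) - cx (g c)) / (cx z - cx c) := by
      show (cx (AG g ((1 : unitInterval) : ℝ) z) - cx (AG g ((1 : unitInterval) : ℝ) c)) /
        (cx z - cx c) = _
      rw [Set.Icc.coe_one, AG_one, AG_one]
    rw [h2, eq_div_iff (cx_sub_ne hcz)] at h1
    simp only [dif_pos hcz]
    set ℓ := L (1, ⟨(c, z), hcz⟩) with hℓ
    have hre := congrArg Complex.re h1
    have him := congrArg Complex.im h1
    rw [Complex.mul_re, Complex.exp_re, Complex.exp_im, Complex.sub_re, Complex.sub_im, Complex.sub_re] at hre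
    rw [Complex.mul_im, Complex.exp_re, Complex.exp_im, Complex.sub_re, Complex.sub_im, Complex.sub_im] at him
    refine ⟨Real.exp ℓ.re, Real.exp_pos _, ?_⟩
    apply Prod.ext
    · show (g z).1 - (g c).1 = Real.exp ℓ.re *
        (Real.cos ℓ.im * (z.1 - c.1) - Real.sin ℓ.im * (z.2 - c.2))
      simp only [cx] at hre
      linarith
    · show (g z).2 - (g c).2 = Real.exp ℓ.re *
        (Real.sin ℓ.im * (z.1 - c.1) + Real.cos ℓ.im * (z.2 - c.2))
      simp only [cx] at him
      linarith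
  · refine ⟨R, fun c z hcz hc hz => ?_⟩
    simp only [dif_pos hcz]
    have h1 : (fun t : unitInterval => (0 : ℂ)) =
        ⇑(Complex.isCoveringMap_exp.liftPath
          (Φ.comp ((ContinuousMap.id unitInterval).prodMk (.const unitInterval ⟨(c, z), hcz⟩)))
          (f ⟨(c, z), hcz⟩) (H0 ⟨(c, z), hcz⟩)) := by
      refine (Complex.isCoveringMap_exp.eq_liftPath_iff _).mpr ⟨continuous_const, ?_, rfl⟩
      funext t
      apply Subtype.ext
      show Complex.exp 0 = (cx (AG g (t : ℝ) z) - cx (AG g (t : ℝ) c)) / (cx z - cx c)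
      rw [AG_far g R hR t t.2.1 t.2.2 z hz, AG_far g R hR t t.2.1 t.2.2 c hc, Complex.exp_zero,
        div_self (cx_sub_ne hcz)]
    have h2 : (0 : ℂ) = L (1, ⟨(c, z), hcz⟩) := congrFun h1 1
    rw [← h2, Complex.zero_im]

end C715
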