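import Pool.Agent.Work.MP_c71557_gt.G.Rt

set_option autoImplicit false
set_option linter.unusedVariables false

/-!
# MP_c71557_gt, module G/FragM: fragments have framing zero (S-M)

`Frag S f`: `k ∈ Gc`, `U` open convex, `K ⊆ U` compact, `f = id` off `k '' K`, `k '' U` disjoint from `S`.  Let `v ∈ S`,
`x = k⁻¹ v`, so `x ∉ U`.  There is `d : P2`, `d ≠ 0`, such that the ray `{x + t d : t ≥ 0}` avoids `U`: if `U` is empty any
`d`; otherwise `geometric_hahn_banach_open_point` gives a continuous linear `ℓ` with `ℓ u < ℓ x` for `u ∈ U`; `ℓ ≠ 0`,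
take `d` with `ℓ d > 0`.  `C = k '' {x + t d : t ≥ 0}` is preconnected (image of an interval), `v ∈ C`.  `k '' K` is
compact, hence closed, and disjoint from `C` (`k` injective, the ray avoids `U ⊇ K`), so `f = id` on the open
set `(k '' K)ᶜ ⊇ C`, i.e. near `C`.  By `conn`, `gm f v = gm f w` for every `w ∈ C`.  The points `w = k (x + t d)`, `t` large,
are in `C` and `‖w‖` is large (`k = id` far out, `‖x + t d‖ ≥ t ‖d‖ - ‖x‖`): `far` gives `gm f w = 1`.
-/

namespace C715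

open Ang

private theorem ray_off (U : Set P2) (hU : IsOpen U) (hc : Convex ℝ U) (x : P2) (hx : x ∉ U) :
    ∃ d : P2, d ≠ 0 ∧ ∀ t : ℝ, 0 ≤ t → x + t • d ∉ U := by
  rcases U.eq_empty_or_nonempty with rfl | ⟨u, hu⟩
  · exact ⟨(1, 0), by simp, fun t _ => Set.notMem_empty _⟩
  · obtain ⟨l, hl⟩ := geometric_hahn_banach_open_point hc hU hx
    have h1 := hl u hu
    refine ⟨x - u, ?_, fun t ht hU' => ?_⟩
    · intro h
      rw [sub_eq_zero.1 h] at h1
      exact lt_irrefl _ h1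
    · have h2 := hl _ hU'
      rw [map_add, map_smul, map_sub, smul_eq_mul] at h2
      have h3 : 0 ≤ t * (l x - l u) := mul_nonneg ht (by linarith)
      linarith

theorem frag_of {gm : ↥Gc → P2 → ↥Ft} (h : IsGerm0 gm) (S : Set P2) (f : ↥Gc)
    (hf : Frag S f.1) : ∀ v ∈ S, gm f v = 1 := by
  intro v hv
  obtain ⟨-, k, hk, U, K, hU, hc, hK, hKU, hoff, hdis⟩ := hf
  have hx : k.symm v ∉ U := fun hx =>
    Set.disjoint_left.1 hdis ⟨_, hx, k.apply_symm_apply v⟩ hv
  obtain ⟨d, hd, hray⟩ := ray_off U hU hc _ hx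
  let γ : ℝ → P2 := fun t => k (k.symm v + t • d)
  have hγ : Continuous γ := by
    refine (Gc_cont hk).comp ?_
    exact continuous_const.add (continuous_id.smul continuous_const)
  let C : Set P2 := γ '' Set.Ici 0
  have hC : IsPreconnected C := isPreconnected_Ici.image γ hγ.continuousOn
  have hvC : v ∈ C := ⟨0, Set.mem_Ici.2 le_rfl, by
    change k (k.symm v + (0 : ℝ) • d) = v
    rw [zero_smul, add_zero, k.apply_symm_apply]⟩
  have hcl : IsClosed (k '' K) := (hK.image (Gc_cont hk)).isClosed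
  have hCs : C ⊆ (k '' K)ᶜ := by
    rintro _ ⟨t, ht, rfl⟩ ⟨y, hy, hyt⟩
    have h1 := k.injective hyt
    rw [h1] at hy
    exact hray t ht (hKU hy)
  have hid : ∀ᶠ x in nhdsSet C, f.1 x = x := by
    have h1 : (k '' K)ᶜ ∈ nhdsSet C := hcl.isOpen_compl.mem_nhdsSet.2 hCs
    filter_upwards [h1] with x hx using hoff x hx
  obtain ⟨R, hR⟩ := h.far f
  obtain ⟨R', hR'⟩ := hk.2
  have hd0 : 0 < ‖d‖ := norm_pos_iff.2 hd
  obtain ⟨t, ht0, ht⟩ : ∃ t : ℝ, 0 ≤ t ∧ max R R' ≤ ‖k.symm v + t • d‖ := by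
    refine ⟨(|max R R'| + ‖k.symm v‖) / ‖d‖, by positivity, ?_⟩
    have h1 : ‖((|max R R'| + ‖k.symm v‖) / ‖d‖) • d‖ = |max R R'| + ‖k.symm v‖ := by
      rw [norm_smul, Real.norm_eq_abs, abs_of_nonneg (by positivity)]
      field_simp
    have h2 := norm_sub_norm_le (((|max R R'| + ‖k.symm v‖) / ‖d‖) • d) (-k.symm v)
    rw [norm_neg, sub_neg_eq_add, h1, add_comm _ (k.symm v)] at h2
    have h3 := le_abs_self (max R R')
    linarith
  have h1 : γ t = k.symm v + t • d := hR' _ ((le_max_right _ _).trans ht)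
  have h2 : γ t ∈ C := ⟨t, ht0, rfl⟩
  rw [h.conn f C hC hid v hvC (γ t) h2]
  refine hR _ ?_
  rw [h1]
  exact (le_max_left _ _).trans ht

end C715
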