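import Pool.Agent.Work.MP_c71557_gt.P.Defs2
import Pool.Agent.Work.MP_c71557_gt.A.Defs

set_option autoImplicit false
set_option linter.unusedVariables false

/-!
# MP_c71557_gt, block G: definitions for the framed germs

`IsGerm gm`: the axioms of the framed germ map `gm : Gc → P2 → Ft`.  `F = gm g v` describes `g` near
`v` in polar coordinates: `g (v + t dir θ) = g v + t r(θ) dir (f θ)`, where the lift `f` of the
map of directions is normalised by the framing (winding) of `g`.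
`IsGerm0`: the part which is proved directly from the construction.
`IsFr g W`: `W` is the framing of `g` (a continuous choice of the angle of rotation of
`z - c` into `g z - g c`, zero far out).  `IsG g W v F`: `F` is the framed germ of `g` at `v`.
-/

namespace C715

open Ang
open scoped Topology

/-- the unit vector of the angle `θ` -/
noncomputable def dir (θ : ℝ) : P2 := (Real.cos θ, Real.sin θ)

/-- the vector `r(θ) dir (f θ)` -/
noncomputable def vec (F : XX) (θ : ℝ) : P2 := F.r θ • dir (F.f θ)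

/-- `F` is the linear map `s ↦ cos s • p + sin s • q` on the angles in `A` -/
def LinA (F : XX) (A : Set ℝ) (p q : P2) : Prop :=
  ∀ s ∈ A, vec F s = Real.cos s • p + Real.sin s • q

/-- the axioms of the framed germ map -/
structure IsGerm (gm : ↥Gc → P2 → ↥Ft) : Prop where
  /-- cocycle -/
  mul : ∀ h g v, gm (h * g) v = gm h (g.1 v) * gm g v
  /-- local form -/
  exp : ∀ g v, ∃ ε : ℝ, 0 < ε ∧ ∀ θ t : ℝ, 0 ≤ t → t ≤ ε →
    g.1 (v + t • dir θ) = g.1 v + t • vec (gm g v).1 θ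
  /-- germ at the points near `v` on the ray `θ` -/
  loc : ∀ g v θ, ∃ ε : ℝ, 0 < ε ∧ ∀ t : ℝ, 0 < t → t ≤ ε →
    (gm g (v + t • dir θ)).1.ev θ = (gm g v).1.ev θ ∧
    (∀ (p q : P2) (e : ℝ), 0 < e → LinA (gm g v).1 (Set.Icc θ (θ + e)) p q →
      LinA (gm g (v + t • dir θ)).1 (Set.Icc θ (θ + Real.pi)) p q) ∧
    (∀ (p q : P2) (e : ℝ), 0 < e → LinA (gm g v).1 (Set.Icc (θ - e) θ) p q →
      LinA (gm g (v + t • dir θ)).1 (Set.Icc (θ - Real.pi) θ) p q)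
  /-- the framing is constant on connected sets on which `g` is the identity -/
  conn : ∀ (g : ↥Gc) (C : Set P2), IsPreconnected C → (∀ᶠ x in 𝓝ˢ C, g.1 x = x) →
    ∀ v ∈ C, ∀ w ∈ C, gm g v = gm g w
  /-- fragments have framing zero -/
  frag : ∀ (S : Set P2) (f : ↥Gc), Frag S f.1 → ∀ v ∈ S, gm f v = 1
  /-- realisation on bounded sets -/
  real : ∀ (F : ↥Ft) (v w : P2) (R : ℝ), ∃ g : ↥Gc, g.1 v = w ∧ gm g v = F ∧
    ∀ θ t : ℝ, 0 ≤ t → t ≤ R → g.1 (v + t • dir θ) = w + t • vec F.1 θ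
  /-- realisation with support off a sector -/
  real0 : ∀ (v : P2) (F : ↥Ft) (a b : ℝ), a ≤ b → b < a + 2 * Real.pi → F.1 ∈ nb a b →
    ∀ ε : ℝ, 0 < ε → ∃ g : ↥Gc, g.1 v = v ∧ gm g v = F ∧
      (∃ δ : ℝ, 0 < δ ∧ ∀ θ t : ℝ, a - δ ≤ θ → θ ≤ b + δ → 0 ≤ t →
        g.1 (v + t • dir θ) = v + t • dir θ) ∧
      ∀ z : P2, ε ≤ ‖z - v‖ → g.1 z = z

/-- the axioms proved directly from the construction -/
structure IsGerm0 (gm : ↥Gc → P2 → ↥Ft) : Prop where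
  mul : ∀ h g v, gm (h * g) v = gm h (g.1 v) * gm g v
  exp : ∀ g v, ∃ ε : ℝ, 0 < ε ∧ ∀ θ t : ℝ, 0 ≤ t → t ≤ ε →
    g.1 (v + t • dir θ) = g.1 v + t • vec (gm g v).1 θ
  loc : ∀ g v θ, ∃ ε : ℝ, 0 < ε ∧ ∀ t : ℝ, 0 < t → t ≤ ε →
    (gm g (v + t • dir θ)).1.ev θ = (gm g v).1.ev θ ∧
    (∀ (p q : P2) (e : ℝ), 0 < e → LinA (gm g v).1 (Set.Icc θ (θ + e)) p q →
      LinA (gm g (v + t • dir θ)).1 (Set.Icc θ (θ + Real.pi)) p q) ∧
    (∀ (p q : P2) (e : ℝ), 0 < e → LinA (gm g v).1 (Set.Icc (θ - e) θ) p q →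
      LinA (gm g (v + t • dir θ)).1 (Set.Icc (θ - Real.pi) θ) p q)
  conn : ∀ (g : ↥Gc) (C : Set P2), IsPreconnected C → (∀ᶠ x in 𝓝ˢ C, g.1 x = x) →
    ∀ v ∈ C, ∀ w ∈ C, gm g v = gm g w
  /-- the framing is zero far out -/
  far : ∀ g : ↥Gc, ∃ R : ℝ, ∀ w : P2, R ≤ ‖w‖ → gm g w = 1

/-- rotation of the plane by the angle `α` -/
noncomputable def rt (α : ℝ) (u : P2) : P2 :=
  (Real.cos α * u.1 - Real.sin α * u.2, Real.sin α * u.1 + Real.cos α * u.2)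

/-- `W` is the framing of `g` -/
structure IsFr (g : P2 → P2) (W : P2 → P2 → ℝ) : Prop where
  cont : ContinuousOn (fun p : P2 × P2 => W p.1 p.2) {p | p.1 ≠ p.2}
  dirn : ∀ c z : P2, c ≠ z → ∃ r : ℝ, 0 < r ∧ g z - g c = r • rt (W c z) (z - c)
  far : ∃ R : ℝ, ∀ c z : P2, c ≠ z → R ≤ ‖c‖ → R ≤ ‖z‖ → W c z = 0

/-- `F` is the framed germ of `g` at `v` -/
def IsG (g : P2 → P2) (W : P2 → P2 → ℝ) (v : P2) (F : XX) : Prop :=
  ∃ ε : ℝ, 0 < ε ∧ ∀ θ t : ℝ, 0 < t → t ≤ ε →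
    g (v + t • dir θ) = g v + t • vec F θ ∧ F.f θ = θ + W v (v + t • dir θ)

/-- the closed sector with axis `α` and half angle `ω` -/
def sec (α ω : ℝ) : Set P2 := {u | ∃ t φ : ℝ, 0 ≤ t ∧ |φ| ≤ ω ∧ u = t • dir (α + φ)}

end C715
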