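import Pool.Agent.Work.MP_c71557_gt.G.GDefs
import Pool.Agent.Work.MP_c71557_gt.A.Per

set_option autoImplicit false
set_option linter.unusedVariables false

/-!
# MP_c71557_gt, module G/Gen: `Ft` is generated by the elements which are the identity near an angle (S-M)

(a) If `|F.f 0| < π` then `F` is a product of two generators: choose `η > 0` with `-π + η < F.f 0 < π - η`, `η < π`, and
by continuity `e > 0` with `-π + η < -e`, `e < π - η`, `-π + η < F.f (-e)`, `F.f e < π - η`.  `exists_Ft_sup F` with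
`c = -π + η < a = -e ≤ b = e < d = π - η ≤ c + 2π` gives `P ∈ Ft`, `P = F` on `[-e, e]`, `P = id` on `[π - η, π + η]`.
`P ∈ nb π π`, `P⁻¹ * F ∈ nb 0 0` (`inv_mul_ev`).
(b) General `F`: `x0 = F.f 0`; `rot x0 ∈ Ft` (`mem_Ft`), `F = rot x0 * (rot (-x0) * F)`, the second factor has `f 0 = 0`:
(a).  `rot x0 = (rot (x0 / n)) ^ n` with `|x0| / n < π`: (a) for `rot (x0 / n)`.
-/

namespace C715

open Ang XX

private abbrev GG : Set ↥Ft := {G : ↥Ft | ∃ a : ℝ, (G : XX) ∈ nb a a}

private theorem gen_a (F : ↥Ft) (h1 : -Real.pi < F.1.f 0) (h2 : F.1.f 0 < Real.pi) :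
    F ∈ Subgroup.closure GG := by
  have hpi := Real.pi_pos
  obtain ⟨η, hη, hη1, hη2, hη3⟩ : ∃ η : ℝ, 0 < η ∧ η < Real.pi ∧ -Real.pi + η < F.1.f 0 ∧
      F.1.f 0 < Real.pi - η := by
    refine ⟨min (min (F.1.f 0 + Real.pi) (Real.pi - F.1.f 0)) Real.pi / 2, ?_, ?_, ?_, ?_⟩
    · have : 0 < min (min (F.1.f 0 + Real.pi) (Real.pi - F.1.f 0)) Real.pi :=
        lt_min (lt_min (by linarith) (by linarith)) hpi
      linarith
    · have := min_le_right (min (F.1.f 0 + Real.pi) (Real.pi - F.1.f 0)) Real.pi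
      linarith
    · have h3 := (min_le_left (min (F.1.f 0 + Real.pi) (Real.pi - F.1.f 0)) Real.pi).trans
        (min_le_left _ _)
      linarith
    · have h3 := (min_le_left (min (F.1.f 0 + Real.pi) (Real.pi - F.1.f 0)) Real.pi).trans
        (min_le_right _ _)
      linarith
  obtain ⟨δ, hδ, hδ'⟩ := Metric.continuousAt_iff.1 (F.1.continuous_f.continuousAt (x := 0))
    (min (F.1.f 0 - (-Real.pi + η)) (Real.pi - η - F.1.f 0))
    (lt_min (by linarith) (by linarith))
  let e : ℝ := min δ (Real.pi - η) / 2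
  have he0 : 0 < min δ (Real.pi - η) := lt_min hδ (by linarith)
  have he : 0 < e := half_pos he0
  have he1 : e < δ := by
    have := min_le_left δ (Real.pi - η)
    change min δ (Real.pi - η) / 2 < δ
    linarith
  have he2 : e < Real.pi - η := by
    have := min_le_right δ (Real.pi - η)
    change min δ (Real.pi - η) / 2 < Real.pi - η
    linarith
  have h3 : F.1.f e < Real.pi - η := by
    have h4 := hδ' (x := e) (by rw [Real.dist_eq, sub_zero, abs_of_pos he]; exact he1)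
    rw [Real.dist_eq] at h4
    have h5 := (le_abs_self _).trans_lt (h4.trans_le (min_le_right _ _))
    linarith
  have h4 : -Real.pi + η < F.1.f (-e) := by
    have h4 := hδ' (x := -e) (by rw [Real.dist_eq, sub_zero, abs_neg, abs_of_pos he]; exact he1)
    rw [Real.dist_eq] at h4
    have h5 := (neg_le_abs _).trans_lt (h4.trans_le (min_le_left _ _))
    linarith
  obtain ⟨P, hP, hP1, hP2⟩ := exists_Ft_sup F.1 (a := -e) (b := e) (c := -Real.pi + η)
    (d := Real.pi - η) (by linarith) (by linarith) he2 (by linarith) h4 h3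
  have m1 : (⟨P, hP⟩ : ↥Ft) ∈ Subgroup.closure GG := by
    refine Subgroup.subset_closure ⟨Real.pi, η, hη, fun s h5 h6 => hP2 s h5 ?_⟩
    linarith
  have m2 : (⟨P, hP⟩ : ↥Ft)⁻¹ * F ∈ Subgroup.closure GG := by
    refine Subgroup.subset_closure ⟨0, e, he, fun s h5 h6 => ?_⟩
    change (P⁻¹ * F.1).ev s = (s, 1)
    rw [inv_mul_ev]
    exact hP1 s (by linarith) (by linarith)
  have h5 : F = ⟨P, hP⟩ * ((⟨P, hP⟩ : ↥Ft)⁻¹ * F) := by group
  rw [h5]
  exact Subgroup.mul_mem _ m1 m2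

private theorem rot_mem (x : ℝ) : rot x ∈ Ft := by
  rw [mem_Ft]
  intro s
  rw [rot_ev, rot_f, rot_r]
  refine Prod.ext ?_ rfl
  change s + 2 * Real.pi + x = s + x + 2 * Real.pi
  ring

private theorem rot_pow (x : ℝ) (n : ℕ) : rot (n * x) = rot x ^ n := by
  induction n with
  | zero => simp [rot_zero]
  | succ n ih =>
    rw [pow_succ, ← ih, ← rot_add]
    congr 1
    push_cast
    ring

theorem Ft_gen (F : ↥Ft) : F ∈ Subgroup.closure {G : ↥Ft | ∃ a : ℝ, (G : XX) ∈ nb a a} := by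
  change F ∈ Subgroup.closure GG
  have hpi := Real.pi_pos
  set x := F.1.f 0 with hx
  obtain ⟨n, hn⟩ := exists_nat_gt (|x| / Real.pi)
  have hn0 : (0 : ℝ) < n := lt_of_le_of_lt (div_nonneg (abs_nonneg _) hpi.le) hn
  rw [div_lt_iff₀ hpi] at hn
  have h1 : (⟨rot (x / n), rot_mem _⟩ : ↥Ft) ∈ Subgroup.closure GG := by
    have h2 : |x / n| < Real.pi := by
      rw [abs_div, abs_of_pos hn0, div_lt_iff₀ hn0]
      linarith
    obtain ⟨h3, h4⟩ := abs_lt.1 h2
    refine gen_a _ ?_ ?_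
    · change -Real.pi < 0 + x / n
      linarith
    · change 0 + x / n < Real.pi
      linarith
  have h2 : (⟨rot x, rot_mem _⟩ : ↥Ft) = (⟨rot (x / n), rot_mem _⟩ : ↥Ft) ^ n := by
    refine Subtype.ext ?_
    change rot x = rot (x / n) ^ n
    rw [← rot_pow]
    congr 1
    field_simp
  have h3 : (⟨rot x, rot_mem _⟩ : ↥Ft) ∈ Subgroup.closure GG := by
    rw [h2]
    exact Subgroup.pow_mem _ h1 n
  have h4 : (⟨rot x, rot_mem _⟩ : ↥Ft)⁻¹ * F ∈ Subgroup.closure GG := by
    have h5 : ((⟨rot x, rot_mem _⟩ : ↥Ft)⁻¹ * F).1.f 0 = 0 := by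
      change ((rot x)⁻¹ * F.1).f 0 = 0
      rw [rot_inv]
      change F.1.f 0 + -x = 0
      rw [← hx]
      ring
    refine gen_a _ ?_ ?_
    · rw [h5]
      linarith
    · rw [h5]
      exact hpi
  have h5 : F = ⟨rot x, rot_mem _⟩ * ((⟨rot x, rot_mem _⟩ : ↥Ft)⁻¹ * F) := by group
  rw [h5]
  exact Subgroup.mul_mem _ h3 h4

end C715
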