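import Pool.Agent.Work.MP_c71557_gt.G.GermA
import Pool.Agent.Work.MP_c71557_gt.P.Frg

set_option autoImplicit false
set_option linter.unusedVariables false

/-!
# MP_c71557_gt, block G: framed germs of piecewise linear homeomorphisms of the plane

`gm : Gc → P2 → Ft`, the framed germ map; its axioms are `IsGerm gm` (`gm_spec`).  `A0 S`: elements of
`Gc` which are the identity near `S`, with framing zero on `S`.
-/

namespace C715

open Ang
open scoped Topology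

theorem exists_gm : ∃ gm : ↥Gc → P2 → ↥Ft, IsGerm gm := exists_gmA

/-- the framed germ map -/
noncomputable def gm : ↥Gc → P2 → ↥Ft := exists_gm.choose

theorem gm_spec : IsGerm gm := exists_gm.choose_spec

theorem gm_mul (h g : ↥Gc) (v : P2) : gm (h * g) v = gm h (g.1 v) * gm g v := gm_spec.mul h g v

theorem gm_one (v : P2) : gm 1 v = 1 := by
  have h := gm_mul 1 1 v
  rw [one_mul] at h
  exact left_eq_mul.1 h

theorem gm_inv (g : ↥Gc) (v : P2) : gm g⁻¹ (g.1 v) = (gm g v)⁻¹ := by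
  have h := gm_mul g⁻¹ g v
  rw [inv_mul_cancel, gm_one] at h
  exact eq_inv_of_mul_eq_one_left h.symm

/-- elements of `Gc` which are the identity near `S`, with framing zero on `S` -/
noncomputable def A0 (S : Set P2) : Subgroup (Equiv.Perm P2) where
  carrier := {g | g ∈ Nr S ∧ ∀ h : g ∈ Gc, ∀ v ∈ S, gm ⟨g, h⟩ v = 1}
  mul_mem' := by
    rintro g h ⟨hg, h1⟩ ⟨hh, h2⟩
    refine ⟨(Nr S).mul_mem hg hh, fun hc v hv => ?_⟩
    have e1 : h v = v := (Filter.Eventually.self_of_nhdsSet hh.2) v hv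
    have e2 : (⟨g * h, hc⟩ : ↥Gc) = ⟨g, hg.1⟩ * ⟨h, hh.1⟩ := rfl
    rw [e2, gm_mul]
    change gm _ (h v) * _ = 1
    rw [e1, h1 hg.1 v hv, h2 hh.1 v hv, mul_one]
  one_mem' := ⟨(Nr S).one_mem, fun hc v hv => gm_one v⟩
  inv_mem' := by
    rintro g ⟨hg, h1⟩
    refine ⟨(Nr S).inv_mem hg, fun hc v hv => ?_⟩
    have e1 : g v = v := (Filter.Eventually.self_of_nhdsSet hg.2) v hv
    have e2 : (⟨g⁻¹, hc⟩ : ↥Gc) = (⟨g, hg.1⟩ : ↥Gc)⁻¹ := rfl
    have e3 := gm_inv ⟨g, hg.1⟩ v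
    change gm _ (g v) = _ at e3
    rw [e1, h1 hg.1 v hv, inv_one] at e3
    rw [e2, e3]

theorem mem_A0 {S : Set P2} {g : Equiv.Perm P2} (hg : g ∈ Gc) :
    g ∈ A0 S ↔ (∀ᶠ x in 𝓝ˢ S, g x = x) ∧ ∀ v ∈ S, gm ⟨g, hg⟩ v = 1 :=
  ⟨fun h => ⟨h.1.2, h.2 hg⟩, fun h => ⟨⟨hg, h.1⟩, fun _ => h.2⟩⟩

theorem A0_wind : IsWind A0 where
  le a g hg := hg.1
  conj a b g n hg hm hn := by
    have hnG : n ∈ Gc := hn.1.1
    refine ⟨Nr_conj hg hm hn.1, fun hc v hv => ?_⟩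
    have e1 : n (g v) = g v := (Filter.Eventually.self_of_nhdsSet hn.1.2) _ (hm hv)
    have e2 : (⟨g⁻¹ * n * g, hc⟩ : ↥Gc) = (⟨g, hg⟩ : ↥Gc)⁻¹ * ⟨n, hnG⟩ * ⟨g, hg⟩ := rfl
    rw [e2, gm_mul, gm_mul]
    change gm _ (n (g v)) * gm _ (g v) * _ = 1
    rw [e1, hn.2 hnG _ (hm hv), mul_one]
    have e3 := gm_inv ⟨g, hg⟩ v
    change gm _ (g v) = _ at e3
    rw [e3, inv_mul_cancel]
  frag a f hf := ⟨Frag_Nr hf, fun hc v hv => gm_spec.frag a.set ⟨f, hc⟩ hf v hv⟩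
  up a b n hab hb ha := by
    refine ⟨hb, fun hc v hv => ?_⟩
    have h1 : a.1.1 ∈ a.set := Metric.mem_closedBall_self a.2.le
    have h2 : IsPreconnected b.set := (convex_closedBall _ _).isPreconnected
    rw [gm_spec.conn ⟨n, hc⟩ b.set h2 hb.2 v hv a.1.1 (hab h1), ha.2 hc _ h1]

end C715
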