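import Pool.Agent.Work.MP_c71557_gt.G.Rl0
import Pool.Agent.Work.MP_c71557_gt.G.Gen
import Pool.Agent.Work.MP_c71557_gt.G.Cen
import Pool.Agent.Work.MP_c71557_gt.P.Shrink

set_option autoImplicit false
set_option linter.unusedVariables false

/-!
# MP_c71557_gt, module G/Rl: realisation of germs on bounded sets (M-L)

* `real_pt`: for all `F`, `v` there is `g` with `g v = v`, `gm g v = F`.  The set of such `F` (for fixed `v`) is a subgroup of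
  `Ft`: `1` (`g = 1`: `gm 1 v = gm 1 v * gm 1 v` by `mul`), products (`mul`), inverses (`gm g⁻¹ (g v) * gm g v = gm 1 v = 1`);
  it contains the generators of `Ft_gen` by `real0_of` (with `a = b`).
* `tr_big`: `t = S₂⁻¹ * S₁` where `S₁ x = v + (x - v)/2`, `S₂ x = q + (x - q)/2`, `q = 2v - w`, on a large ball
  (`shrink Set.univ K _ _ _ _ q _ (1/2)`; `GU Set.univ = Gc` (`GU_univ`)): `S₂ (x + (w - v)) = S₁ x`.
* `real_of`.  `M` = bound for `‖vec F θ‖` (`vec_bdd`), WLOG `0 ≤ R`, `R' = R * (M + 1) + 1`.  `t` from `tr_big v w R'`.  `exp` for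
  `t` at `v`: `vec (gm t v) θ = dir θ`.  `F' = (gm t v)⁻¹ * F`, `vec F' θ = vec F θ` (`cen_vec`).  `real_pt` gives `g₁` with
  `g₁ v = v`, `gm g₁ v = F'`; let `ε₁` be the radius of `exp` for `g₁` at `v`.  Choose `0 < μ ≤ 1` with `μ R ≤ ε₁` and `S ∈ Gc` with
  `S x = v + μ • (x - v)` for `‖x - v‖ ≤ R'` (`shrink`).  `g₂ = S⁻¹ g₁ S`.  For `0 ≤ τ ≤ R`:
  `g₂ (v + τ • dir θ) = S⁻¹ (g₁ (v + (μ τ) • dir θ)) = S⁻¹ (v + (μ τ) • vec F θ) = v + τ • vec F θ` (`‖τ • vec F θ‖ ≤ R'`).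
  `gm g₂ v = (gm S v)⁻¹ * F' * gm S v = F'` (`mul`, `S v = v`, `vec (gm S v) θ = μ • dir θ` by `exp`, `cen_comm`).
  `g = t * g₂`: `g v = w`, `gm g v = gm t v * F' = F`, `g (v + τ • dir θ) = t (v + τ • vec F θ) = w + τ • vec F θ`.
-/

namespace C715

open Ang

private theorem gm_one {gm : ↥Gc → P2 → ↥Ft} (h : IsGerm0 gm) (v : P2) : gm 1 v = 1 := by
  have h1 := h.mul 1 1 v
  rw [mul_one] at h1
  have h2 : gm 1 v = gm 1 v * gm 1 v := h1
  exact (mul_eq_left.1 h2.symm)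

private theorem gm_inv {gm : ↥Gc → P2 → ↥Ft} (h : IsGerm0 gm) (g : ↥Gc) (v : P2)
    (hv : g.1 v = v) : (g⁻¹).1 v = v ∧ gm g⁻¹ v = (gm g v)⁻¹ := by
  refine ⟨?_, ?_⟩
  · change (g.1)⁻¹ v = v
    rw [Equiv.Perm.inv_eq_iff_eq, hv]
  · have h1 := h.mul g⁻¹ g v
    rw [inv_mul_cancel, gm_one h, hv] at h1
    exact eq_inv_of_mul_eq_one_left h1.symm

theorem real_pt {gm : ↥Gc → P2 → ↥Ft} (h : IsGerm0 gm) (F : ↥Ft) (v : P2) :
    ∃ g : ↥Gc, g.1 v = v ∧ gm g v = F := by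
  refine Subgroup.closure_induction (p := fun G _ => ∃ g : ↥Gc, g.1 v = v ∧ gm g v = G)
    ?_ ?_ ?_ ?_ (Ft_gen F)
  · rintro G ⟨a, ha⟩
    obtain ⟨g, h1, h2, _⟩ := real0_of h v G a a le_rfl (by linarith [Real.pi_pos]) ha 1 one_pos
    exact ⟨g, h1, h2⟩
  · exact ⟨1, rfl, gm_one h v⟩
  · rintro G G' _ _ ⟨g, h1, h2⟩ ⟨g', h1', h2'⟩
    refine ⟨g * g', ?_, ?_⟩
    · change g.1 (g'.1 v) = v
      rw [h1', h1]
    · rw [h.mul, h1', h2, h2']
  · rintro G _ ⟨g, h1, h2⟩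
    refine ⟨g⁻¹, (gm_inv h g v h1).1, ?_⟩
    rw [(gm_inv h g v h1).2, h2]

theorem tr_big (v w : P2) (R : ℝ) : ∃ t ∈ Gc, ∀ x : P2, ‖x - v‖ ≤ R → t x = x + (w - v) := by
  obtain ⟨S₁, hS₁, h1⟩ := shrink Set.univ (Metric.closedBall v R) isOpen_univ convex_univ
    (isCompact_closedBall _ _) (Set.subset_univ _) v trivial (1 / 2) (by norm_num) (by norm_num)
  obtain ⟨S₂, hS₂, h2⟩ := shrink Set.univ (Metric.closedBall w R) isOpen_univ convex_univ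
    (isCompact_closedBall _ _) (Set.subset_univ _) ((2 : ℝ) • v - w) trivial (1 / 2) (by norm_num)
    (by norm_num)
  rw [GU_univ] at hS₁ hS₂
  refine ⟨S₂⁻¹ * S₁, Gc.mul_mem (Gc.inv_mem hS₂) hS₁, fun x hx => ?_⟩
  rw [Equiv.Perm.mul_apply, Equiv.Perm.inv_eq_iff_eq, h1 x (by
      rw [Metric.mem_closedBall, dist_eq_norm]
      exact hx), h2 _ (by
      rw [Metric.mem_closedBall, dist_eq_norm]
      have : x + (w - v) - w = x - v := by abel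
      rw [this]
      exact hx)]
  module

theorem real_of {gm : ↥Gc → P2 → ↥Ft} (h : IsGerm0 gm) (F : ↥Ft) (v w : P2) (R : ℝ) :
    ∃ g : ↥Gc, g.1 v = w ∧ gm g v = F ∧
      ∀ θ t : ℝ, 0 ≤ t → t ≤ R → g.1 (v + t • dir θ) = w + t • vec F.1 θ := by
  obtain ⟨M, hM, hMF⟩ := vec_bdd F.1 F.2
  obtain ⟨R₀, hR₀, hR₀'⟩ : ∃ R₀ : ℝ, 0 ≤ R₀ ∧ R ≤ R₀ := ⟨max R 0, le_max_right _ _, le_max_left _ _⟩
  set R' : ℝ := R₀ * (M + 1) + 1 with hR'
  have hR'pos : 0 < R' := by positivity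
  have hR₀R' : R₀ ≤ R' := by nlinarith
  have hnd : ∀ θ τ : ℝ, 0 ≤ τ → ‖τ • dir θ‖ ≤ τ := fun θ τ hτ => by
    rw [norm_smul, Real.norm_eq_abs, abs_of_nonneg hτ]
    have := dir_norm_le θ
    nlinarith
  have hnv : ∀ θ τ : ℝ, 0 ≤ τ → τ ≤ R₀ → ‖τ • vec F.1 θ‖ ≤ R' := fun θ τ hτ hτ' => by
    rw [norm_smul, Real.norm_eq_abs, abs_of_nonneg hτ]
    have h1 := (hMF θ).2
    have h2 : τ * ‖vec F.1 θ‖ ≤ R₀ * M := mul_le_mul hτ' h1 (norm_nonneg _) hR₀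
    nlinarith
  -- the translation
  obtain ⟨t, htG, ht⟩ := tr_big v w R'
  set T : ↥Gc := ⟨t, htG⟩ with hT
  have htv : t v = w := by
    rw [ht v (by rw [sub_self, norm_zero]; exact hR'pos.le)]
    abel
  have hTv : ∀ θ, vec (gm T v).1 θ = dir θ := by
    intro θ
    obtain ⟨ε, hε, h1⟩ := h.exp T v
    have hτ : 0 < min ε R' := lt_min hε hR'pos
    have h2 := h1 θ (min ε R') hτ.le (min_le_left _ _)
    have h3 : T.1 (v + min ε R' • dir θ) = v + min ε R' • dir θ + (w - v) :=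
      ht _ (by
        rw [add_sub_cancel_left]
        exact (hnd θ _ hτ.le).trans (min_le_right _ _))
    have h4 : T.1 v = w := htv
    rw [h3, h4] at h2
    have h5 : min ε R' • vec (gm T v).1 θ = min ε R' • dir θ := by
      have h6 : v + min ε R' • dir θ + (w - v) = w + min ε R' • dir θ := by abel
      rw [h6] at h2
      exact (add_left_cancel h2).symm
    exact smul_right_injective _ hτ.ne' h5
  set F' : ↥Ft := (gm T v)⁻¹ * F with hF'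
  have hvF' : ∀ θ, vec F'.1 θ = vec F.1 θ := fun θ => cen_vec hTv F.1 θ
  obtain ⟨g₁, hg₁, hg₁'⟩ := real_pt h F' v
  obtain ⟨ε₁, hε₁, hexp₁⟩ := h.exp g₁ v
  rw [hg₁', hg₁] at hexp₁
  obtain ⟨μ, hμ, hμ1, hμR⟩ : ∃ μ : ℝ, 0 < μ ∧ μ ≤ 1 ∧ μ * R₀ ≤ ε₁ := by
    refine ⟨min 1 (ε₁ / (R₀ + 1)), by positivity, min_le_left _ _, ?_⟩
    have h1 : min 1 (ε₁ / (R₀ + 1)) * R₀ ≤ ε₁ / (R₀ + 1) * R₀ :=
      mul_le_mul_of_nonneg_right (min_le_right _ _) hR₀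
    refine h1.trans ?_
    rw [div_mul_eq_mul_div, div_le_iff₀ (by positivity)]
    nlinarith
  obtain ⟨s, hsG, hs⟩ := shrink Set.univ (Metric.closedBall v R') isOpen_univ convex_univ
    (isCompact_closedBall _ _) (Set.subset_univ _) v trivial μ hμ hμ1
  rw [GU_univ] at hsG
  have hs' : ∀ u : P2, ‖u‖ ≤ R' → s (v + u) = v + μ • u := fun u hu => by
    rw [hs (v + u) (by
      rw [Metric.mem_closedBall, dist_eq_norm, add_sub_cancel_left]
      exact hu), add_sub_cancel_left]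
  set S : ↥Gc := ⟨s, hsG⟩ with hS
  have hsv : s v = v := by
    have h1 := hs' 0 (by rw [norm_zero]; exact hR'pos.le)
    rwa [add_zero, smul_zero, add_zero] at h1
  have hSv : ∀ θ, vec (gm S v).1 θ = μ • dir θ := by
    intro θ
    obtain ⟨ε, hε, h1⟩ := h.exp S v
    have hτ : 0 < min ε R' := lt_min hε hR'pos
    have h2 := h1 θ (min ε R') hτ.le (min_le_left _ _)
    have h3 : S.1 (v + min ε R' • dir θ) = v + μ • (min ε R' • dir θ) :=
      hs' _ ((hnd θ _ hτ.le).trans (min_le_right _ _))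
    have h4 : S.1 v = v := hsv
    rw [h3, h4] at h2
    have h5 : min ε R' • vec (gm S v).1 θ = min ε R' • (μ • dir θ) := by
      rw [smul_comm (min ε R') μ]
      exact (add_left_cancel h2).symm
    exact smul_right_injective _ hτ.ne' h5
  -- the conjugate
  have hSinv := gm_inv h S v hsv
  have hg₂v : (S⁻¹ * g₁ * S).1 v = v := by
    change (S⁻¹).1 (g₁.1 (S.1 v)) = v
    have h4 : S.1 v = v := hsv
    rw [h4, hg₁, hSinv.1]
  have hg₂ : gm (S⁻¹ * g₁ * S) v = F' := by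
    have h4 : S.1 v = v := hsv
    rw [h.mul, h4, h.mul, hg₁, hg₁', hSinv.2]
    have h5 : gm S v * F' = F' * gm S v := Subtype.ext (cen_comm hμ hSv F'.2)
    rw [mul_assoc, ← h5, inv_mul_cancel_left]
  refine ⟨T * (S⁻¹ * g₁ * S), ?_, ?_, ?_⟩
  · change T.1 ((S⁻¹ * g₁ * S).1 v) = w
    rw [hg₂v]
    exact htv
  · rw [h.mul, hg₂v, hg₂, hF', mul_inv_cancel_left]
  · intro θ τ hτ hτR
    have hτR₀ : τ ≤ R₀ := hτR.trans hR₀'
    change t (s⁻¹ (g₁.1 (s (v + τ • dir θ)))) = w + τ • vec F.1 θ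
    have h1 : s (v + τ • dir θ) = v + (μ * τ) • dir θ := by
      rw [hs' _ ((hnd θ τ hτ).trans (hτR₀.trans hR₀R')), smul_smul]
    have h2 : g₁.1 (v + (μ * τ) • dir θ) = v + (μ * τ) • vec F.1 θ := by
      rw [hexp₁ θ (μ * τ) (by positivity)
        ((mul_le_mul_of_nonneg_left hτR₀ hμ.le).trans hμR), hvF']
    have h3 : s⁻¹ (v + (μ * τ) • vec F.1 θ) = v + τ • vec F.1 θ := by
      rw [Equiv.Perm.inv_eq_iff_eq, hs' _ (hnv θ τ hτ hτR₀), smul_smul]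
    rw [h1, h2, h3, ht _ (by
      rw [add_sub_cancel_left]
      exact hnv θ τ hτ hτR₀)]
    abel

end C715
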