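import Pool.Agent.Work.MP_c71557_gt.G.Base
import Pool.Agent.Work.MP_c71557_gt.G.FragM
import Pool.Agent.Work.MP_c71557_gt.G.Rl

set_option autoImplicit false
set_option linter.unusedVariables false

/-!
# MP_c71557_gt, block G: the framed germ map exists
-/

namespace C715

open Ang

theorem exists_gmA : ∃ gm : ↥Gc → P2 → ↥Ft, IsGerm gm := by
  obtain ⟨gm, h⟩ := exists_germ0
  exact ⟨gm,
    { mul := h.mul
      exp := h.exp
      loc := h.loc
      conn := h.conn
      frag := fun S f hf => frag_of h S f hf
      real := fun F v w R => real_of h F v w R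
      real0 := fun v F a b hab hb hF ε hε => real0_of h v F a b hab hb hF ε hε }⟩

end C715
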