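import Pool.Agent.Work.MP_c71557_gt.G.Rt

set_option autoImplicit false
set_option linter.unusedVariables false

/-!
# MP_c71557_gt, module G/Sec: sectors (S-M)

`sec α ω = {t • dir (α + φ) : t ≥ 0, |φ| ≤ ω}`.  For `|φ| ≤ π` and `0 ≤ ω < π`: `t • dir (α + φ) ∈ sec α ω` (`t > 0`) iff
`|φ| ≤ ω` iff `cos ω ≤ cos φ`.  So in coordinates `u = x • dir α + y • dir (α + π/2)` (`dir_add`):
`u ∈ sec α ω ↔ cos ω * √(x² + y²) ≤ x`.
* `sec_add`: the function `x ↦ x - cos ω * √(x² + y²)` is monotone (`|√((x+s)²+y²) - √(x²+y²)| ≤ s`, `cos ω ≤ 1`,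
  and `cos ω ≥ -1`).
* `sec_nhds`: at `s • dir α`, `s > 0`: strict inequality `cos ω * s < s`, continuity.
-/

namespace C715

open scoped Topology

private theorem smul_dir_add (α t φ : ℝ) : t • dir (α + φ) =
    (t * Real.cos φ) • dir α + (t * Real.sin φ) • dir (α + Real.pi / 2) := by
  rw [dir_add, smul_add, smul_smul, smul_smul]

private theorem mem_sec {α ω x y : ℝ} (h0 : 0 ≤ ω) (h1 : ω < Real.pi)
    (h : Real.cos ω * √(x ^ 2 + y ^ 2) ≤ x) :
    x • dir α + y • dir (α + Real.pi / 2) ∈ sec α ω := by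
  rcases (Real.sqrt_nonneg (x ^ 2 + y ^ 2)).eq_or_lt with h2 | h2
  · have h3 : x ^ 2 + y ^ 2 = 0 := by
      have h4 := Real.sqrt_eq_zero'.1 h2.symm
      nlinarith [sq_nonneg x, sq_nonneg y]
    have hx : x = 0 := by nlinarith [sq_nonneg x, sq_nonneg y]
    have hy : y = 0 := by nlinarith [sq_nonneg x, sq_nonneg y]
    refine ⟨0, 0, le_rfl, by simpa using h0, ?_⟩
    rw [hx, hy]
    simp
  · set z : ℂ := ⟨x, y⟩ with hz
    have hn : ‖z‖ = √(x ^ 2 + y ^ 2) := by
      rw [Complex.norm_def, Complex.normSq_apply, hz]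
      congr 1
      ring
    have e1 : ‖z‖ * Real.cos (Complex.arg z) = x := Complex.norm_mul_cos_arg z
    have e2 : ‖z‖ * Real.sin (Complex.arg z) = y := Complex.norm_mul_sin_arg z
    refine ⟨‖z‖, Complex.arg z, norm_nonneg _, ?_, ?_⟩
    · by_contra h3
      rw [not_le] at h3
      have h4 : Real.cos |Complex.arg z| < Real.cos ω :=
        Real.cos_lt_cos_of_nonneg_of_le_pi h0 (Complex.abs_arg_le_pi z) h3
      rw [Real.cos_abs] at h4
      rw [← hn] at h h2
      have h5 := mul_lt_mul_of_pos_left h4 h2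
      rw [e1] at h5
      linarith
    · rw [smul_dir_add α ‖z‖ (Complex.arg z), e1, e2]

private theorem sec_coord {α ω : ℝ} (h1 : ω < Real.pi) {u : P2} (hu : u ∈ sec α ω) :
    ∃ t x y : ℝ, 0 ≤ t ∧ x ^ 2 + y ^ 2 = t ^ 2 ∧ Real.cos ω * t ≤ x ∧
      u = x • dir α + y • dir (α + Real.pi / 2) := by
  obtain ⟨t, φ, ht, hφ, rfl⟩ := hu
  refine ⟨t, t * Real.cos φ, t * Real.sin φ, ht, ?_, ?_, smul_dir_add _ _ _⟩
  · have := Real.sin_sq_add_cos_sq φ
    linear_combination t ^ 2 * this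
  · have h2 : Real.cos ω ≤ Real.cos φ := by
      rw [← Real.cos_abs φ]
      exact Real.cos_le_cos_of_nonneg_of_le_pi (abs_nonneg _) h1.le hφ
    nlinarith

theorem sec_add {α ω : ℝ} (h0 : 0 ≤ ω) (h1 : ω < Real.pi) {u : P2} (hu : u ∈ sec α ω) {s : ℝ}
    (hs : 0 ≤ s) : u + s • dir α ∈ sec α ω := by
  obtain ⟨t, x, y, ht, hxy, hx, rfl⟩ := sec_coord h1 hu
  have e : x • dir α + y • dir (α + Real.pi / 2) + s • dir α =
      (x + s) • dir α + y • dir (α + Real.pi / 2) := by module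
  rw [e]
  refine mem_sec h0 h1 ?_
  have hxt : |x| ≤ t := abs_le_of_sq_le_sq (by nlinarith [sq_nonneg y]) ht
  obtain ⟨hx1, hx2⟩ := abs_le.1 hxt
  have h3 : √((x + s) ^ 2 + y ^ 2) ≤ t + s := by
    rw [Real.sqrt_le_iff]
    refine ⟨by linarith, ?_⟩
    nlinarith
  have h4 : t - s ≤ √((x + s) ^ 2 + y ^ 2) := by
    refine (le_abs_self _).trans (Real.abs_le_sqrt ?_)
    nlinarith
  have hc1 := Real.cos_le_one ω
  have hc2 := Real.neg_one_le_cos ω
  rcases le_total 0 (Real.cos ω) with h5 | h5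
  · have h6 := mul_le_mul_of_nonneg_left h3 h5
    nlinarith
  · have h6 := mul_le_mul_of_nonpos_left h4 h5
    nlinarith

theorem sec_nhds {α ω : ℝ} (h0 : 0 < ω) (h1 : ω < Real.pi) {s : ℝ} (hs : 0 < s) :
    sec α ω ∈ 𝓝 (s • dir α) := by
  have hcs := Real.sin_sq_add_cos_sq α
  let X : P2 → ℝ := fun u => Real.cos α * u.1 + Real.sin α * u.2
  let Y : P2 → ℝ := fun u => -Real.sin α * u.1 + Real.cos α * u.2
  have hX : Continuous X := by
    change Continuous (fun u : P2 => Real.cos α * u.1 + Real.sin α * u.2)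
    fun_prop
  have hY : Continuous Y := by
    change Continuous (fun u : P2 => -Real.sin α * u.1 + Real.cos α * u.2)
    fun_prop
  have hlt : ∀ᶠ u in 𝓝 (s • dir α), Real.cos ω * √(X u ^ 2 + Y u ^ 2) < X u := by
    have hc : Continuous (fun u => Real.cos ω * √(X u ^ 2 + Y u ^ 2)) :=
      continuous_const.mul (Real.continuous_sqrt.comp ((hX.pow 2).add (hY.pow 2)))
    refine (hc.tendsto _).eventually_lt (hX.tendsto _) ?_
    have e1 : X (s • dir α) = s := by
      change Real.cos α * (s * Real.cos α) + Real.sin α * (s * Real.sin α) = s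
      linear_combination s * hcs
    have e2 : Y (s • dir α) = 0 := by
      change -Real.sin α * (s * Real.cos α) + Real.cos α * (s * Real.sin α) = 0
      ring
    rw [e1, e2]
    have e3 : √(s ^ 2 + 0 ^ 2) = s := by
      rw [show s ^ 2 + 0 ^ 2 = s ^ 2 by ring, Real.sqrt_sq hs.le]
    rw [e3]
    have h2 : Real.cos ω < 1 := by
      have := Real.cos_lt_cos_of_nonneg_of_le_pi (le_refl (0 : ℝ)) h1.le h0
      rwa [Real.cos_zero] at this
    nlinarith
  filter_upwards [hlt] with u hu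
  have h3 := mem_sec (α := α) h0.le h1 hu.le
  have e : X u • dir α + Y u • dir (α + Real.pi / 2) = u := by
    have d1 : dir (α + Real.pi / 2) = (-Real.sin α, Real.cos α) := by
      unfold dir
      rw [Real.cos_add_pi_div_two, Real.sin_add_pi_div_two]
    rw [d1]
    refine Prod.ext ?_ ?_
    · change (Real.cos α * u.1 + Real.sin α * u.2) * Real.cos α +
        (-Real.sin α * u.1 + Real.cos α * u.2) * (-Real.sin α) = u.1
      linear_combination u.1 * hcs
    · change (Real.cos α * u.1 + Real.sin α * u.2) * Real.sin α +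
        (-Real.sin α * u.1 + Real.cos α * u.2) * Real.cos α = u.2
      linear_combination u.2 * hcs
  rwa [e] at h3

end C715
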