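import Pool.Agent.Work.MP_c71557_gt.G.Rt
import Pool.Agent.Work.MP_c71557_gt.P.Alg
import Pool.Agent.Work.MP_c71557_gt.P.Bump
import Pool.Agent.Work.MP_c71557_gt.P.Shear

set_option autoImplicit false
set_option linter.unusedVariables false

/-!
# MP_c71557_gt, module G/ShD: a small shear in a given direction (S-M)

Let `A x = v + x.1 • dir α + x.2 • dir (α + π/2)`: an affine permutation of the plane, `A ∈ PLH` (`PLH_aff`; inverse
`x = ((z - v) · dir α, (z - v) · dir (α + π/2))`).  Choose `δ > 0` with `‖A x - v‖ < ε` for `‖x‖ ≤ δ`.  `bump` with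
`U = ball 0 δ`, `K = {0}` gives `β`, `IsPLf β`, `β ≥ 0`, `β 0 ≥ 1`, zero off a compact `K' ⊆ U`.  `β` is Lipschitz
(`IsPLf.lipschitz`), so for small `c > 0` the function `φ = c β` has slopes of absolute value `< 1`
(`strictMono_of_slope`) and `shear1` gives `κ0 ∈ GU U`, `κ0 x = (x.1 + φ x, x.2)`.
`κ = A * κ0 * A⁻¹`, `η z = φ (A⁻¹ z)`: `κ z = z + η z • dir α`; `η v = φ 0 > 0`; `η z ≠ 0` implies `A⁻¹ z ∈ U`, `‖z - v‖ < ε`.
`κ ∈ Gc`: `PLH` is a group; `κ z = z` off the bounded set `A '' U`.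
-/

namespace C715

/-- the affine frame at `v` with first axis of direction `α` -/
private noncomputable def frm (v : P2) (α : ℝ) : Equiv.Perm P2 where
  toFun x := (v.1 + x.1 * Real.cos α - x.2 * Real.sin α, v.2 + x.1 * Real.sin α + x.2 * Real.cos α)
  invFun z := (Real.cos α * (z.1 - v.1) + Real.sin α * (z.2 - v.2),
    -Real.sin α * (z.1 - v.1) + Real.cos α * (z.2 - v.2))
  left_inv x := by
    have hcs := Real.sin_sq_add_cos_sq α
    refine Prod.ext ?_ ?_
    · simp only
      linear_combination x.1 * hcs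
    · simp only
      linear_combination x.2 * hcs
  right_inv z := by
    have hcs := Real.sin_sq_add_cos_sq α
    refine Prod.ext ?_ ?_
    · simp only
      linear_combination (z.1 - v.1) * hcs
    · simp only
      linear_combination (z.2 - v.2) * hcs

private theorem frm_apply (v : P2) (α : ℝ) (x : P2) : frm v α x =
    (v.1 + x.1 * Real.cos α - x.2 * Real.sin α, v.2 + x.1 * Real.sin α + x.2 * Real.cos α) := rfl

private theorem frm_symm_apply (v : P2) (α : ℝ) (z : P2) : (frm v α).symm z =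
    (Real.cos α * (z.1 - v.1) + Real.sin α * (z.2 - v.2),
    -Real.sin α * (z.1 - v.1) + Real.cos α * (z.2 - v.2)) := rfl

private theorem frm_PLH (v : P2) (α : ℝ) : frm v α ∈ PLH := by
  refine PLH_aff _ ⟨Real.cos α, -Real.sin α, v.1⟩ ⟨Real.sin α, Real.cos α, v.2⟩
    ⟨Real.cos α, Real.sin α, -(Real.cos α * v.1) - Real.sin α * v.2⟩
    ⟨-Real.sin α, Real.cos α, Real.sin α * v.1 - Real.cos α * v.2⟩ ?_ ?_
  · intro x
    rw [frm_apply]
    refine Prod.ext ?_ ?_
    · simp only [L3.ev]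
      ring
    · simp only [L3.ev]
      ring
  · intro x
    rw [frm_symm_apply]
    refine Prod.ext ?_ ?_
    · simp only [L3.ev]
      ring
    · simp only [L3.ev]
      ring

private theorem frm_norm (v : P2) (α : ℝ) (x : P2) : ‖frm v α x - v‖ ≤ 2 * ‖x‖ := by
  have h1 : |x.1| ≤ ‖x‖ := norm_fst_le x
  have h2 : |x.2| ≤ ‖x‖ := norm_snd_le x
  have hc := Real.abs_cos_le_one α
  have hs := Real.abs_sin_le_one α
  have hx := norm_nonneg x
  have m1 : |x.1 * Real.cos α| ≤ ‖x‖ := by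
    rw [abs_mul]
    nlinarith [abs_nonneg x.1, abs_nonneg (Real.cos α)]
  have m2 : |x.2 * Real.sin α| ≤ ‖x‖ := by
    rw [abs_mul]
    nlinarith [abs_nonneg x.2, abs_nonneg (Real.sin α)]
  have m3 : |x.1 * Real.sin α| ≤ ‖x‖ := by
    rw [abs_mul]
    nlinarith [abs_nonneg x.1, abs_nonneg (Real.sin α)]
  have m4 : |x.2 * Real.cos α| ≤ ‖x‖ := by
    rw [abs_mul]
    nlinarith [abs_nonneg x.2, abs_nonneg (Real.cos α)]
  rw [abs_le] at m1 m2 m3 m4
  rw [Prod.norm_def, frm_apply]
  refine max_le ?_ ?_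
  · change |v.1 + x.1 * Real.cos α - x.2 * Real.sin α - v.1| ≤ _
    rw [abs_le]
    constructor <;> linarith [m1.1, m1.2, m2.1, m2.2]
  · change |v.2 + x.1 * Real.sin α + x.2 * Real.cos α - v.2| ≤ _
    rw [abs_le]
    constructor <;> linarith [m3.1, m3.2, m4.1, m4.2]

private theorem frm_add (v : P2) (α : ℝ) (x : P2) (c : ℝ) :
    frm v α (x.1 + c, x.2) = frm v α x + c • dir α := by
  rw [frm_apply, frm_apply]
  refine Prod.ext ?_ ?_
  · change v.1 + (x.1 + c) * Real.cos α - x.2 * Real.sin α =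
      v.1 + x.1 * Real.cos α - x.2 * Real.sin α + c * Real.cos α
    ring
  · change v.2 + (x.1 + c) * Real.sin α + x.2 * Real.cos α =
      v.2 + x.1 * Real.sin α + x.2 * Real.cos α + c * Real.sin α
    ring

theorem exists_shd (v : P2) (α ε : ℝ) (hε : 0 < ε) :
    ∃ κ ∈ Gc, ∃ η : P2 → ℝ, (∀ z, 0 ≤ η z) ∧ (∀ z, κ z = z + η z • dir α) ∧ 0 < η v ∧
      ∀ z, ε ≤ ‖z - v‖ → η z = 0 := by
  obtain ⟨β, hβ, hβ0, hβ1, K', hK', hK'U, hβK⟩ := bump (Metric.ball 0 (ε / 4)) {0} Metric.isOpen_ball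
    isCompact_singleton (by
      rw [Set.singleton_subset_iff]
      exact Metric.mem_ball_self (by positivity))
  obtain ⟨C, hC, hL⟩ := hβ.lipschitz
  set c : ℝ := 1 / (2 * C) with hc
  have hc0 : 0 < c := by positivity
  have hcC : c * C = 1 / 2 := by
    rw [hc]
    field_simp
  obtain ⟨κ0, hκ0, hκ⟩ := shear1 (fun x => c * β x) (hβ.smul c) (Metric.ball 0 (ε / 4)) K' hK'U hK'
    (fun x hx => by rw [hβK x hx, mul_zero]) (fun y => by
      refine strictMono_of_slope (fun t => c * β (t, y)) (1 / 2) (by norm_num) fun s t hst => ?_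
      have h1 := hL (t, y) (s, y)
      have h2 : dist ((t, y) : P2) (s, y) = t - s := by
        rw [Prod.dist_eq, dist_self, Real.dist_eq, abs_of_pos (by linarith : (0 : ℝ) < t - s)]
        exact max_eq_left (by linarith)
      rw [h2, abs_le] at h1
      have h3 := mul_le_mul_of_nonneg_left h1.1 hc0.le
      have h4 : c * -(C * (t - s)) = -(1 / 2 * (t - s)) := by
        rw [← hcC]
        ring
      rw [h4] at h3
      linarith)
  set A := frm v α with hA
  have hκz : ∀ z, (A * κ0 * A⁻¹) z = z + (c * β (A.symm z)) • dir α := by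
    intro z
    change A (κ0 (A.symm z)) = _
    rw [hκ]
    change A ((A.symm z).1 + c * β (A.symm z), (A.symm z).2) = _
    rw [hA, frm_add, Equiv.apply_symm_apply]
  have hη : ∀ z, ε ≤ ‖z - v‖ → c * β (A.symm z) = 0 := by
    intro z hz
    by_cases h : A.symm z ∈ K'
    · exfalso
      have h1 := hK'U h
      rw [Metric.mem_ball, dist_zero_right] at h1
      have h2 := frm_norm v α (A.symm z)
      rw [← hA, Equiv.apply_symm_apply] at h2
      linarith
    · rw [hβK _ h, mul_zero]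
  refine ⟨A * κ0 * A⁻¹, ⟨?_, ε + ‖v‖, ?_⟩, fun z => c * β (A.symm z), ?_, hκz, ?_, hη⟩
  · exact PLH.mul_mem (PLH.mul_mem (frm_PLH v α) hκ0.1.1) (PLH.inv_mem (frm_PLH v α))
  · intro x hx
    rw [hκz, hη x, zero_smul, add_zero]
    have := norm_sub_norm_le x v
    linarith
  · intro z
    exact mul_nonneg hc0.le (hβ0 _)
  · have h1 : A.symm v = 0 := by
      rw [hA, frm_symm_apply]
      refine Prod.ext ?_ ?_ <;> simp
    change 0 < c * β (A.symm v)
    rw [h1]
    have := hβ1 0 (Set.mem_singleton 0)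
    positivity

end C715
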