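import Pool.Agent.Work.MP_c71557_gt.G.Bh
import Pool.Agent.Work.MP_c71557_gt.G.ShD
import Pool.Agent.Work.MP_c71557_gt.G.Sec

set_option autoImplicit false
set_option linter.unusedVariables false

/-!
# MP_c71557_gt, module G/Rl0: realisation of germs with support off a sector (M-L)

`F ∈ Ft` is the identity on `[a - e, b + e]`; shrink `e` such that `ω = (b - a)/2 + e < π`; `α = (a + b)/2`.  `b₀ ∈ PLH` from
`exists_bh F`; `T` the translation by `v`, `B = T b₀ T⁻¹ ∈ PLH`, `B (v + t • dir θ) = v + t • vec F θ`.  On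
`Cv = {v + u : u ∈ sec α ω}` `B` is the identity (`a - e ≤ α + φ ≤ b + e`).  `M` = bound for `F.r`, `‖vec F θ‖` (`vec_bdd`);
`‖B z - v‖ ≤ 2 (M + 1) ‖z - v‖`.  `exists_shd v α ε₁`, `ε₁ = ε / (2 (M + 1))`, gives `κ, η`.
Let `g = B * κ⁻¹ * B⁻¹ * κ`.
* `z ∈ Cv`: `κ z = z + η z • dir α ∈ Cv` (`sec_add`), so `B⁻¹ (κ z) = κ z`, `κ⁻¹` gives `z`, `B z = z`: `g z = z`.
* near `v`: `κ v = v + η v • dir α` is in the interior of `Cv` (`sec_nhds`), `κ` is continuous, so for `z` near `v`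
  `κ z ∈ Cv` and `g z = B z`; `g v = v`.
* `ε ≤ ‖z - v‖`: `κ z = z`; if `z' = B⁻¹ z` then `ε ≤ ‖B z' - v‖ ≤ 2 (M+1) ‖z' - v‖`, so `κ z' = z'`, `κ⁻¹ z' = z'`, `g z = z`.
* `g ∈ Gc`: in `PLH`, the identity far out.
* `gm g v = F`: `exp` and `g = B` near `v`: `vec (gm g v) θ = vec F θ` for all `θ`; so `(gm g v).f θ - F.f θ ∈ 2πℤ`
  (`smul_dir_inj`), constant (`const_of_int`).  At `θ = α`: `C = {v + t • dir α : t > 0}` is preconnected, `g = id` near
  `C` (`sec_nhds`), `conn` and `far`: `gm g (v + t • dir α) = 1` for all `t > 0`; `loc` at `v`, `α`: `(gm g v).ev α = (α, 1)`;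
  and `F.ev α = (α, 1)`.  So the constant is `0`; `vec_inj`, `XX.ext_ev`.
* `δ = e`.
-/

namespace C715

open Ang
open scoped Topology

/-- the conjugate of `b` by the translation by `v` -/
private theorem exists_conj (v : P2) (b : Equiv.Perm P2) (hb : b ∈ PLH) :
    ∃ B ∈ PLH, (∀ u, B (v + u) = v + b u) := by
  let T : Equiv.Perm P2 := Equiv.addLeft v
  have hT : T ∈ PLH := by
    refine PLH_aff T ⟨1, 0, v.1⟩ ⟨0, 1, v.2⟩ ⟨1, 0, -v.1⟩ ⟨0, 1, -v.2⟩ (fun x => ?_) (fun x => ?_)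
    · refine Prod.ext ?_ ?_
      · change v.1 + x.1 = 1 * x.1 + 0 * x.2 + v.1
        ring
      · change v.2 + x.2 = 0 * x.1 + 1 * x.2 + v.2
        ring
    · refine Prod.ext ?_ ?_
      · change -v.1 + x.1 = 1 * x.1 + 0 * x.2 + -v.1
        ring
      · change -v.2 + x.2 = 0 * x.1 + 1 * x.2 + -v.2
        ring
  refine ⟨T * b * T⁻¹, PLH.mul_mem (PLH.mul_mem hT hb) (PLH.inv_mem hT), fun u => ?_⟩
  change v + b (-v + (v + u)) = v + b u
  rw [neg_add_cancel_left]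

theorem real0_of {gm : ↥Gc → P2 → ↥Ft} (h : IsGerm0 gm) (v : P2) (F : ↥Ft) (a b : ℝ)
    (hab : a ≤ b) (hb : b < a + 2 * Real.pi) (hF : F.1 ∈ nb a b) (ε : ℝ) (hε : 0 < ε) :
    ∃ g : ↥Gc, g.1 v = v ∧ gm g v = F ∧
      (∃ δ : ℝ, 0 < δ ∧ ∀ θ t : ℝ, a - δ ≤ θ → θ ≤ b + δ → 0 ≤ t →
        g.1 (v + t • dir θ) = v + t • dir θ) ∧
      ∀ z : P2, ε ≤ ‖z - v‖ → g.1 z = z := by
  obtain ⟨e0, he0, hF0⟩ := hF
  obtain ⟨e, he, hee0, heω⟩ : ∃ e : ℝ, 0 < e ∧ e ≤ e0 ∧ (b - a) / 2 + e < Real.pi := by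
    have h1 : 0 < (Real.pi - (b - a) / 2) / 2 := by linarith
    refine ⟨min e0 ((Real.pi - (b - a) / 2) / 2), lt_min he0 h1, min_le_left _ _, ?_⟩
    have := min_le_right e0 ((Real.pi - (b - a) / 2) / 2)
    linarith
  obtain ⟨ω, hω⟩ : ∃ ω : ℝ, ω = (b - a) / 2 + e := ⟨_, rfl⟩
  obtain ⟨α, hα⟩ : ∃ α : ℝ, α = (a + b) / 2 := ⟨_, rfl⟩
  have hω0 : 0 < ω := by rw [hω]; linarith
  have hωpi : ω < Real.pi := by rw [hω]; exact heω
  have hFid : ∀ s, a - e ≤ s → s ≤ b + e → F.1.ev s = (s, 1) :=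
    fun s h1 h2 => hF0 s (by linarith) (by linarith)
  obtain ⟨b0, hb0, hb0'⟩ := exists_bh F.1 F.2
  obtain ⟨B, hB, hBv⟩ := exists_conj v b0 hb0
  have hBray : ∀ θ t : ℝ, 0 ≤ t → B (v + t • dir θ) = v + t • vec F.1 θ := by
    intro θ t ht
    rw [hBv, hb0' θ t ht]
  obtain ⟨M, hM, hMb⟩ := vec_bdd F.1 F.2
  have hdec : ∀ z : P2, ∃ t θ : ℝ, 0 ≤ t ∧ z = v + t • dir θ := by
    intro z
    by_cases hz : z - v = 0
    · exact ⟨0, 0, le_rfl, by rw [zero_smul, add_zero]; exact sub_eq_zero.1 hz⟩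
    · obtain ⟨t, θ, ht, _, _, h1⟩ := exists_dir (z - v) hz 0
      exact ⟨t, θ, ht.le, by rw [← h1]; abel⟩
  have hBnorm : ∀ z : P2, ‖B z - v‖ ≤ 2 * (M + 1) * ‖z - v‖ := by
    intro z
    obtain ⟨t, θ, ht, rfl⟩ := hdec z
    rw [hBray θ t ht, add_sub_cancel_left, add_sub_cancel_left, norm_smul, norm_smul,
      Real.norm_of_nonneg ht]
    have h1 := (hMb θ).2
    have h2 := dir_norm_ge θ
    have h3 : t * ‖vec F.1 θ‖ ≤ t * M := mul_le_mul_of_nonneg_left h1 ht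
    have h4 : t * (1 / 2) ≤ t * ‖dir θ‖ := mul_le_mul_of_nonneg_left h2 ht
    have h5 : 2 * (M + 1) * (t * (1 / 2)) ≤ 2 * (M + 1) * (t * ‖dir θ‖) :=
      mul_le_mul_of_nonneg_left h4 (by linarith)
    nlinarith
  -- the sector
  have hvecid : ∀ s, a - e ≤ s → s ≤ b + e → vec F.1 s = dir s := by
    intro s h1 h2
    have h3 := hFid s h1 h2
    have h4 : F.1.f s = s := congrArg Prod.fst h3
    have h5 : F.1.r s = 1 := congrArg Prod.snd h3
    unfold vec
    rw [h4, h5, one_smul]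
  have hBC : ∀ u ∈ sec α ω, B (v + u) = v + u := by
    rintro u ⟨t, φ, ht, hφ, rfl⟩
    rw [abs_le] at hφ
    rw [hBray _ t ht, hvecid (α + φ) (by rw [hα]; linarith [hφ.1]) (by rw [hα]; linarith [hφ.2])]
  have hBC' : ∀ u ∈ sec α ω, B⁻¹ (v + u) = v + u := by
    intro u hu
    rw [Equiv.Perm.inv_eq_iff_eq]
    exact (hBC u hu).symm
  have hM1 : 0 < 2 * (M + 1) := by linarith
  obtain ⟨κ, hκ, η, hη0, hκη, hηv, hηfar⟩ := exists_shd v α (ε / (2 * (M + 1)))
    (div_pos hε hM1)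
  have hsecκ : ∀ z, z - v ∈ sec α ω → κ z - v ∈ sec α ω := by
    intro z hz
    have h1 : κ z - v = (z - v) + η z • dir α := by
      rw [hκη]
      abel
    rw [h1]
    exact sec_add hω0.le hωpi hz (hη0 z)
  let g0 : Equiv.Perm P2 := B * κ⁻¹ * B⁻¹ * κ
  have hg0 : ∀ z, g0 z = B (κ⁻¹ (B⁻¹ (κ z))) := fun z => rfl
  have hgB : ∀ z, κ z - v ∈ sec α ω → g0 z = B z := by
    intro z hz
    have h1 : B⁻¹ (κ z) = κ z := by
      have h2 := hBC' _ hz
      have h3 : v + (κ z - v) = κ z := by abel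
      rwa [h3] at h2
    rw [hg0, h1]
    congr 1
    exact κ.symm_apply_apply z
  have hgC : ∀ z, z - v ∈ sec α ω → g0 z = z := by
    intro z hz
    rw [hgB z (hsecκ z hz)]
    have h2 := hBC _ hz
    have h3 : v + (z - v) = z := by abel
    rwa [h3] at h2
  have hgfar : ∀ z : P2, ε ≤ ‖z - v‖ → g0 z = z := by
    intro z hz
    have hle : ε / (2 * (M + 1)) ≤ ε := by
      rw [div_le_iff₀ hM1]
      nlinarith
    have h1 : κ z = z := by
      rw [hκη, hηfar z (hle.trans hz), zero_smul, add_zero]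
    have h2 : B (B⁻¹ z) = z := B.apply_symm_apply z
    have h3 : ε / (2 * (M + 1)) ≤ ‖B⁻¹ z - v‖ := by
      rw [div_le_iff₀ hM1]
      have h4 := hBnorm (B⁻¹ z)
      rw [h2] at h4
      linarith
    have h5 : κ (B⁻¹ z) = B⁻¹ z := by
      rw [hκη, hηfar _ h3, zero_smul, add_zero]
    have h6 : κ⁻¹ (B⁻¹ z) = B⁻¹ z := by
      rw [Equiv.Perm.inv_eq_iff_eq]
      exact h5.symm
    rw [hg0, h1, h6, h2]
  have hg0Gc : g0 ∈ Gc := by
    refine ⟨PLH.mul_mem (PLH.mul_mem (PLH.mul_mem hB (PLH.inv_mem hκ.1)) (PLH.inv_mem hB)) hκ.1,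
      ε + ‖v‖, fun x hx => hgfar x ?_⟩
    have := norm_sub_norm_le x v
    linarith
  -- near `v`
  have hnear : ∀ᶠ z in 𝓝 v, g0 z = B z := by
    have h1 : Filter.Tendsto (fun z => κ z - v) (𝓝 v) (𝓝 (η v • dir α)) := by
      have h2 : Continuous (fun z => κ z - v) := (Gc_cont hκ).sub continuous_const
      have h3 := h2.tendsto v
      have h4 : κ v - v = η v • dir α := by
        rw [hκη]
        abel
      rwa [h4] at h3
    have h5 := h1.eventually (sec_nhds (α := α) hω0 hωpi hηv)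
    exact h5.mono fun z hz => hgB z hz
  have hgv : g0 v = v := by
    have h1 : g0 v = B v := hnear.self_of_nhds
    have h2 := hBray 0 0 le_rfl
    rw [zero_smul, zero_smul, add_zero] at h2
    rw [h1, h2]
  let g : ↥Gc := ⟨g0, hg0Gc⟩
  -- the germ at `v`
  have hvec : ∀ θ, vec (gm g v).1 θ = vec F.1 θ := by
    intro θ
    obtain ⟨ε2, hε2, h2⟩ := h.exp g v
    have h3 : Filter.Tendsto (fun t : ℝ => v + t • dir θ) (𝓝 0) (𝓝 v) := by
      have h4 : Continuous (fun t : ℝ => v + t • dir θ) := by fun_prop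
      have h5 := h4.tendsto 0
      rwa [zero_smul, add_zero] at h5
    have h6 := h3.eventually hnear
    rw [Metric.eventually_nhds_iff] at h6
    obtain ⟨d, hd, h7⟩ := h6
    have ht : 0 < min ε2 (d / 2) := lt_min hε2 (half_pos hd)
    have h8 : g0 (v + min ε2 (d / 2) • dir θ) = B (v + min ε2 (d / 2) • dir θ) := by
      refine h7 ?_
      rw [Real.dist_eq, sub_zero, abs_of_pos ht]
      have := min_le_right ε2 (d / 2)
      linarith
    have h9 := h2 θ _ ht.le (min_le_left _ _)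
    have h10 : g.1 (v + min ε2 (d / 2) • dir θ) = g0 (v + min ε2 (d / 2) • dir θ) := rfl
    have h11 : g.1 v = v := hgv
    rw [h10, h8, hBray θ _ ht.le, h11] at h9
    exact (smul_right_injective P2 ht.ne' (add_left_cancel h9)).symm
  have hint : ∀ θ ∈ (Set.univ : Set ℝ), ∃ k : ℤ,
      (gm g v).1.f θ - F.1.f θ = k * (2 * Real.pi) := by
    intro θ _
    obtain ⟨_, k, hk⟩ := smul_dir_inj ((gm g v).1.pos θ) (F.1.pos θ) (hvec θ)
    exact ⟨k, by rw [hk]; ring⟩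
  have hcst := const_of_int isPreconnected_univ (fun θ => (gm g v).1.f θ - F.1.f θ)
    (((gm g v).1.continuous_f.sub F.1.continuous_f).continuousOn) hint
  -- the framing on the axis of the sector
  have hCpre : IsPreconnected ((fun t : ℝ => v + t • dir α) '' Set.Ioi 0) :=
    isPreconnected_Ioi.image _ (Continuous.continuousOn (by fun_prop))
  have hCid : ∀ᶠ x in 𝓝ˢ ((fun t : ℝ => v + t • dir α) '' Set.Ioi 0), g.1 x = x := by
    rw [eventually_nhdsSet_iff_forall]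
    rintro x ⟨t, ht, rfl⟩
    have h1 : Filter.Tendsto (fun z : P2 => z - v) (𝓝 (v + t • dir α)) (𝓝 (t • dir α)) := by
      have h2 : Continuous (fun z : P2 => z - v) := by fun_prop
      have h3 := h2.tendsto (v + t • dir α)
      rwa [add_sub_cancel_left] at h3
    have h5 := h1.eventually (sec_nhds (α := α) hω0 hωpi ht)
    exact h5.mono fun z hz => hgC z hz
  have hone : ∀ t : ℝ, 0 < t → gm g (v + t • dir α) = 1 := by
    intro t ht
    obtain ⟨R, hR⟩ := h.far g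
    have hs : 0 < 2 * (|R| + ‖v‖) + 1 := by positivity
    have h1 : gm g (v + (2 * (|R| + ‖v‖) + 1) • dir α) = 1 := by
      apply hR
      have h2 := norm_sub_norm_le ((2 * (|R| + ‖v‖) + 1) • dir α) (-v)
      rw [sub_neg_eq_add, norm_neg, norm_smul, Real.norm_of_nonneg hs.le, add_comm _ v] at h2
      have h3 := mul_le_mul_of_nonneg_left (dir_norm_ge α) hs.le
      have h4 := le_abs_self R
      linarith
    rw [← h1]
    exact h.conn g _ hCpre hCid _ ⟨t, ht, rfl⟩ _ ⟨_, hs, rfl⟩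
  have hevα : (gm g v).1.ev α = (α, 1) := by
    obtain ⟨d, hd, h1⟩ := h.loc g v α
    have h2 := (h1 d hd le_rfl).1
    rw [hone d hd] at h2
    rw [← h2]
    rfl
  have hFα : F.1.ev α = (α, 1) := hFid α (by rw [hα]; linarith) (by rw [hα]; linarith)
  have hff : ∀ θ, (gm g v).1.f θ = F.1.f θ := by
    intro θ
    have h1 := hcst θ (Set.mem_univ _) α (Set.mem_univ _)
    have h2 : (gm g v).1.f α = α := congrArg Prod.fst hevα
    have h3 : F.1.f α = α := congrArg Prod.fst hFα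
    beta_reduce at h1
    rw [h2, h3, sub_self] at h1
    exact sub_eq_zero.1 h1
  refine ⟨g, hgv, ?_, ⟨e, he, fun θ t h1 h2 ht => ?_⟩, hgfar⟩
  · refine Subtype.ext (XX.ext_ev fun θ => vec_inj (hff θ) (hvec θ))
  · refine hgC _ ?_
    rw [add_sub_cancel_left]
    refine ⟨t, θ - α, ht, ?_, ?_⟩
    · rw [abs_le, hω, hα]
      constructor <;> linarith
    · rw [add_sub_cancel]

end C715
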